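import Pool.Agent.Work.MP_3615d2_al.Mo.Hens
import Pool.Agent.Work.MP_3615d2_al.HypTop

/-!
MP_3615d2_al, the closed functional: isotropic frames.

`hf σ H x y = x^t H σ(y)` is the matrix of the values of the form on the columns of `x`, `y`.
A frame is a matrix `x` with a left inverse; it is isotropic if `hf σ H x x = 0`.  Near an
isotropic frame `x₀` the isotropic frames are the `u x₀` with `u` in `U(X)` near `1`.
-/

open Filter Topology Matrix

set_option linter.unusedSectionVars false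

namespace SpW

section alg

variable {F E : Type} [Field F] [Field E] [Algebra F E] {N : ℕ}
  {k l k' l' : Type} [Fintype k] [Fintype l] [Fintype k'] [Fintype l']

/-- The matrix `x^t H σ(y)` of the values of the form on the columns of `x` and `y`. -/
def hf (σ : E ≃ₐ[F] E) (H : Matrix (Fin N) (Fin N) E) {k l : Type} (x : Matrix (Fin N) k E)
    (y : Matrix (Fin N) l E) : Matrix k l E :=
  x.transpose * H * y.map σ

variable (σ : E ≃ₐ[F] E) (H : Matrix (Fin N) (Fin N) E)

omit [Fintype k] [Fintype l'] in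
theorem mapσ_mul (x : Matrix k l E) (y : Matrix l l' E) :
    (x * y).map σ = x.map σ * y.map σ :=
  Matrix.map_mul (f := (σ : E →+* E)) (L := x) (M := y)

omit [Fintype k] [Fintype l] in
theorem mapσ_add (x y : Matrix k l E) : (x + y).map σ = x.map σ + y.map σ := by
  ext i j
  simp

omit [Fintype k] [Fintype l] in
theorem mapσ_sub (x y : Matrix k l E) : (x - y).map σ = x.map σ - y.map σ := by
  ext i j
  simp

omit [Fintype k] [Fintype l] in
theorem mapσ_neg (x : Matrix k l E) : (-x).map σ = -x.map σ := by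
  ext i j
  simp

omit [Fintype k] in
theorem mapσ_one [DecidableEq k] : (1 : Matrix k k E).map σ = 1 :=
  Matrix.map_one _ (map_zero σ) (map_one σ)

theorem hf_mul (x : Matrix (Fin N) k E) (a : Matrix k k' E) (y : Matrix (Fin N) l E)
    (b : Matrix l l' E) :
    hf σ H (x * a) (y * b) = a.transpose * hf σ H x y * b.map σ := by
  rw [hf, hf, mapσ_mul, Matrix.transpose_mul]
  simp only [Matrix.mul_assoc]

theorem hf_mul_left (x : Matrix (Fin N) k E) (a : Matrix k k' E) (y : Matrix (Fin N) l E) :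
    hf σ H (x * a) y = a.transpose * hf σ H x y := by
  rw [hf, hf, Matrix.transpose_mul]
  simp only [Matrix.mul_assoc]

theorem hf_mul_right (x : Matrix (Fin N) k E) (y : Matrix (Fin N) l E)
    (b : Matrix l l' E) :
    hf σ H x (y * b) = hf σ H x y * b.map σ := by
  rw [hf, hf, mapσ_mul]
  simp only [Matrix.mul_assoc]

omit [Fintype k] [Fintype l] in
theorem hf_add_left (x x' : Matrix (Fin N) k E) (y : Matrix (Fin N) l E) :
    hf σ H (x + x') y = hf σ H x y + hf σ H x' y := by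
  rw [hf, hf, hf, Matrix.transpose_add, Matrix.add_mul, Matrix.add_mul]

omit [Fintype k] [Fintype l] in
theorem hf_add_right (x : Matrix (Fin N) k E) (y y' : Matrix (Fin N) l E) :
    hf σ H x (y + y') = hf σ H x y + hf σ H x y' := by
  rw [hf, hf, hf, mapσ_add, Matrix.mul_add]

omit [Fintype k] [Fintype l] in
theorem hf_sub_left (x x' : Matrix (Fin N) k E) (y : Matrix (Fin N) l E) :
    hf σ H (x - x') y = hf σ H x y - hf σ H x' y := by
  rw [hf, hf, hf, Matrix.transpose_sub, Matrix.sub_mul, Matrix.sub_mul]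

omit [Fintype k] [Fintype l] in
theorem hf_sub_right (x : Matrix (Fin N) k E) (y y' : Matrix (Fin N) l E) :
    hf σ H x (y - y') = hf σ H x y - hf σ H x y' := by
  rw [hf, hf, hf, mapσ_sub, Matrix.mul_sub]

omit [Fintype k] [Fintype l] in
theorem hf_skew (hσ : ∀ x, σ (σ x) = x) (hH : IsSkew σ H) (x : Matrix (Fin N) k E)
    (y : Matrix (Fin N) l E) : hf σ H y x = -((hf σ H x y).map σ).transpose := by
  have h1 : (H.map σ).transpose = -H := by
    ext i j
    rw [Matrix.transpose_apply, Matrix.map_apply, Matrix.neg_apply, hH.skew j i, neg_neg]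
  have h2 : (y.map σ).map σ = y := by
    ext i j
    exact hσ _
  rw [hf, hf, mapσ_mul, mapσ_mul, h2, Matrix.transpose_mul, Matrix.transpose_mul, h1,
    Matrix.transpose_map, Matrix.transpose_transpose, ← Matrix.mul_assoc, Matrix.mul_neg,
    Matrix.neg_mul, neg_neg]

theorem mem_unitary_iff (g : GL (Fin N) E) :
    g ∈ unitary σ H ↔ hf σ H (g : Matrix (Fin N) (Fin N) E) g = H := by
  have h1 : ∀ x y : Fin N → E, sk σ H x y = x ⬝ᵥ (H.mulVec fun j => σ (y j)) := by
    intro x y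
    rw [sk, dotProduct]
    refine Finset.sum_congr rfl fun i _ => ?_
    rw [Matrix.mulVec, dotProduct, Finset.mul_sum]
    exact Finset.sum_congr rfl fun j _ => mul_assoc _ _ _
  have h2 : ∀ (g : Matrix (Fin N) (Fin N) E) (y : Fin N → E),
      (fun j => σ (g.mulVec y j)) = (g.map σ).mulVec fun j => σ (y j) := by
    intro g y
    funext j
    rw [Matrix.mulVec, dotProduct, map_sum]
    exact Finset.sum_congr rfl fun i _ => map_mul σ _ _
  have h3 : ∀ (g : Matrix (Fin N) (Fin N) E) (x y : Fin N → E),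
      sk σ H (g.mulVec x) (g.mulVec y) = x ⬝ᵥ ((hf σ H g g).mulVec fun j => σ (y j)) := by
    intro g x y
    rw [h1, h2, hf, ← Matrix.mulVec_mulVec, ← Matrix.mulVec_mulVec, Matrix.dotProduct_mulVec x,
      Matrix.vecMul_transpose]
  constructor
  · intro hg
    ext i j
    have h4 := hg (Pi.single i 1) (Pi.single j 1)
    rw [h3, h1] at h4
    have h5 : (fun j' => σ ((Pi.single j (1 : E) : Fin N → E) j')) = Pi.single j 1 := by
      funext j'
      by_cases h : j' = j
      · subst h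
        simp
      · simp [Pi.single_eq_of_ne h]
    rw [h5] at h4
    simpa using h4
  · intro hg x y
    rw [h3, hg, h1]

omit [Fintype k] [Fintype l] in
theorem hf_unitary (u : unitary σ H) (x : Matrix (Fin N) k E) (y : Matrix (Fin N) l E) :
    hf σ H (umat u * x) (umat u * y) = hf σ H x y := by
  have h1 := (mem_unitary_iff σ H u.1).1 u.2
  rw [hf, mapσ_mul, Matrix.transpose_mul, Matrix.mul_assoc, Matrix.mul_assoc, ← Matrix.mul_assoc H,
    ← Matrix.mul_assoc (umat u).transpose, ← Matrix.mul_assoc (umat u).transpose, ← hf, h1, hf,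
    Matrix.mul_assoc]

/-- An element of `U(X)` from its matrix. -/
theorem exists_unitary_hf (hH : IsSkew σ H) (g : Matrix (Fin N) (Fin N) E) (hg : hf σ H g g = H) :
    ∃ u : unitary σ H, umat u = g ∧
      (((u : GL (Fin N) E)⁻¹ : GL (Fin N) E) : Matrix (Fin N) (Fin N) E) =
        ((H⁻¹ * g.transpose * H).map σ.symm) := by
  have hu : IsUnit H.det := isUnit_iff_ne_zero.2 hH.det_ne
  have hs : ∀ M : Matrix (Fin N) (Fin N) E, (M.map σ.symm).map σ = M := by
    intro M
    ext i j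
    exact σ.apply_symm_apply _
  have h1 : (H⁻¹ * g.transpose * H) * g.map σ = 1 := by
    have h2 : g.transpose * H * g.map σ = H := hg
    rw [Matrix.mul_assoc, Matrix.mul_assoc, ← Matrix.mul_assoc g.transpose, h2,
      Matrix.nonsing_inv_mul _ hu]
  have h3 : ((H⁻¹ * g.transpose * H).map σ.symm) * g = 1 := by
    have h4 : (((H⁻¹ * g.transpose * H).map σ.symm) * g).map σ = 1 := by
      rw [mapσ_mul, hs, h1]
    ext i j
    have h5 := congrFun (congrFun h4 i) j
    rw [Matrix.map_apply] at h5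
    apply σ.injective
    rw [h5]
    by_cases h : i = j
    · subst h
      simp
    · simp [Matrix.one_apply_ne h]
  refine ⟨⟨⟨g, (H⁻¹ * g.transpose * H).map σ.symm, mul_eq_one_comm.1 h3, h3⟩,
    (mem_unitary_iff σ H _).2 hg⟩, rfl, rfl⟩

variable {m : ℕ}

/-- Every isotropic frame has a dual isotropic frame. -/
theorem exists_dual_frame (hσ : ∀ x, σ (σ x) = x) (h2 : (2 : E) ≠ 0) (hH : IsSkew σ H)
    (x : Matrix (Fin N) (Fin m) E) (hx : hf σ H x x = 0)
    (hl : ∃ l : Matrix (Fin m) (Fin N) E, l * x = 1) :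
    ∃ y : Matrix (Fin N) (Fin m) E, hf σ H y x = 1 ∧ hf σ H y y = 0 := by
  obtain ⟨l, hl⟩ := hl
  have hu : IsUnit H.det := isUnit_iff_ne_zero.2 hH.det_ne
  set y : Matrix (Fin N) (Fin m) E := (l.map σ * H⁻¹).transpose with hy
  have h1 : hf σ H y x = 1 := by
    rw [hf, hy, Matrix.transpose_transpose, Matrix.mul_assoc (l.map σ), Matrix.nonsing_inv_mul _ hu,
      Matrix.mul_one, ← mapσ_mul, hl, mapσ_one]
  set s := hf σ H y y with hs
  have h3 : (s.map σ).transpose = -s := by
    have := hf_skew σ H hσ hH y y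
    rw [← hs] at this
    rw [eq_neg_iff_add_eq_zero, ← neg_neg ((s.map σ).transpose), ← this, neg_add_cancel]
  have h4 : hf σ H x y = -1 := by
    rw [hf_skew σ H hσ hH y x, h1, mapσ_one, Matrix.transpose_one]
  set c : Matrix (Fin m) (Fin m) E := (-(2 : E)⁻¹) • s.map σ with hc
  have h5 : c.map σ = (-(2 : E)⁻¹) • s := by
    ext i j
    rw [hc, Matrix.map_apply, Matrix.smul_apply, Matrix.map_apply, smul_eq_mul, map_mul, hσ,
      Matrix.smul_apply, smul_eq_mul, map_neg, map_inv₀, map_ofNat]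
  have h6 : c.transpose = (2 : E)⁻¹ • s := by
    rw [hc, Matrix.transpose_smul, h3, smul_neg, neg_smul, neg_neg]
  refine ⟨y + x * c, ?_, ?_⟩
  · rw [hf_add_left, hf_mul_left, hx, h1, Matrix.mul_zero, add_zero]
  · rw [hf_add_left, hf_add_right, hf_add_right, hf_mul_left, hf_mul_right, hf_mul, hx, ← hs, h1,
      h4, Matrix.mul_zero, Matrix.zero_mul, add_zero, Matrix.one_mul, Matrix.mul_neg, Matrix.mul_one,
      h5, h6, ← sub_eq_add_neg, add_sub_assoc, ← sub_smul]
    have h7 : (-(2 : E)⁻¹ - (2 : E)⁻¹) = -1 := by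
      field_simp
      norm_num
    rw [h7, neg_smul, one_smul, add_neg_cancel]

theorem hf_one_left (y : Matrix (Fin N) l E) : hf σ H (1 : Matrix (Fin N) (Fin N) E) y =
    H * y.map σ := by
  rw [hf, Matrix.transpose_one, Matrix.one_mul]

theorem hf_zero_of (hσ : ∀ x, σ (σ x) = x) (hH : IsSkew σ H) {x : Matrix (Fin N) k E}
    {y : Matrix (Fin N) l E} (h : hf σ H x y = 0) : hf σ H y x = 0 := by
  rw [hf_skew σ H hσ hH x y, h]
  ext i j
  simp

/-- The Gram matrix of `x A + y B + W`, for a hyperbolic pair of frames `x`, `y` orthogonal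
to `W`. -/
theorem hf_hyp (hσ : ∀ x, σ (σ x) = x) (hH : IsSkew σ H) (x y : Matrix (Fin N) (Fin m) E)
    (W : Matrix (Fin N) k E) (A B : Matrix (Fin m) k E) (hxx : hf σ H x x = 0)
    (hyx : hf σ H y x = 1) (hyy : hf σ H y y = 0) (hWx : hf σ H W x = 0) (hWy : hf σ H W y = 0) :
    hf σ H (x * A + y * B + W) (x * A + y * B + W) =
      B.transpose * A.map σ - A.transpose * B.map σ + hf σ H W W := by
  have hxy : hf σ H x y = -1 := by
    rw [hf_skew σ H hσ hH y x, hyx, mapσ_one, Matrix.transpose_one]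
  have hxW := hf_zero_of σ H hσ hH hWx
  have hyW := hf_zero_of σ H hσ hH hWy
  simp only [hf_add_left, hf_add_right, hf_mul_left, hf_mul_right, hxx, hyx, hyy, hxy, hWx,
    hWy, hxW, hyW, Matrix.mul_zero, Matrix.mul_one, Matrix.mul_neg,
    Matrix.neg_mul, add_zero, zero_add]
  abel

/-- The element of `U(X)` which maps `x₀` to `x` and `y₀` to `y₀ Gi^t`. -/
def secM (x₀ y₀ x : Matrix (Fin N) (Fin m) E) (Gi : Matrix (Fin m) (Fin m) E) :
    Matrix (Fin N) (Fin N) E :=
  x * (-(H * y₀.map σ).transpose) + (y₀ * Gi.transpose) * (H * x₀.map σ).transpose +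
    (1 - (y₀ * Gi.transpose) * (H * x.map σ).transpose) *
      (1 - (x₀ * (-(H * y₀.map σ).transpose) + y₀ * (H * x₀.map σ).transpose))

theorem secM_hf (hσ : ∀ x, σ (σ x) = x) (hH : IsSkew σ H) (x₀ y₀ x : Matrix (Fin N) (Fin m) E)
    (Gi : Matrix (Fin m) (Fin m) E) (h00 : hf σ H x₀ x₀ = 0) (h10 : hf σ H y₀ x₀ = 1)
    (h11 : hf σ H y₀ y₀ = 0) (hx : hf σ H x x = 0) (hG : Gi * hf σ H y₀ x = 1) :
    hf σ H (secM σ H x₀ y₀ x Gi) (secM σ H x₀ y₀ x Gi) = H := by
  have h01 : hf σ H x₀ y₀ = -1 := by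
    rw [hf_skew σ H hσ hH y₀ x₀, h10, mapσ_one, Matrix.transpose_one]
  rw [secM]
  set A : Matrix (Fin m) (Fin N) E := -(H * y₀.map σ).transpose with hA
  set B : Matrix (Fin m) (Fin N) E := (H * x₀.map σ).transpose with hB
  set C : Matrix (Fin m) (Fin N) E := (H * x.map σ).transpose with hC
  set W : Matrix (Fin N) (Fin N) E := 1 - (x₀ * A + y₀ * B) with hW
  set y₁ : Matrix (Fin N) (Fin m) E := y₀ * Gi.transpose with hy₁
  have hWy0 : hf σ H W y₀ = 0 := by
    rw [hW, hf_sub_left, hf_add_left, hf_mul_left, hf_mul_left, h01, h11, hf_one_left, hA,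
      Matrix.transpose_neg, Matrix.transpose_transpose, Matrix.mul_zero, add_zero, Matrix.mul_neg,
      Matrix.mul_one, neg_neg, sub_self]
  have hWx0 : hf σ H W x₀ = 0 := by
    rw [hW, hf_sub_left, hf_add_left, hf_mul_left, hf_mul_left, h00, h10, hf_one_left, hB,
      Matrix.transpose_transpose, Matrix.mul_zero, zero_add, Matrix.mul_one, sub_self]
  have hWy : hf σ H W y₁ = 0 := by
    rw [hy₁, hf_mul_right, hWy0, Matrix.zero_mul]
  have hyW : hf σ H y₁ W = 0 := hf_zero_of σ H hσ hH hWy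
  have hyy : hf σ H y₁ y₁ = 0 := by
    rw [hy₁, hf_mul, h11, Matrix.mul_zero, Matrix.zero_mul]
  have hyx : hf σ H y₁ x = 1 := by
    rw [hy₁, hf_mul_left, Matrix.transpose_transpose, hG]
  have hW' : (1 - y₁ * C) * W = W - y₁ * (C * W) := by
    rw [Matrix.sub_mul, Matrix.one_mul, Matrix.mul_assoc]
  have hW'x : hf σ H ((1 - y₁ * C) * W) x = 0 := by
    rw [hW', hf_sub_left, hf_mul_left, hyx, Matrix.mul_one, Matrix.transpose_mul, hC,
      Matrix.transpose_transpose, hf, ← Matrix.mul_assoc, sub_self]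
  have hW'y : hf σ H ((1 - y₁ * C) * W) y₁ = 0 := by
    rw [hW', hf_sub_left, hf_mul_left, hyy, hWy, Matrix.mul_zero, sub_zero]
  have hWW : hf σ H ((1 - y₁ * C) * W) ((1 - y₁ * C) * W) = hf σ H W W := by
    clear_value W
    rw [hW', hf_sub_left, hf_sub_right, hf_mul_right, hWy, Matrix.zero_mul, sub_zero, hf_mul_left,
      hf_sub_right, hyW, hf_mul_right, hyy, Matrix.zero_mul, sub_zero, Matrix.mul_zero, sub_zero]
  have h1 := hf_hyp σ H hσ hH x y₁ ((1 - y₁ * C) * W) A B hx hyx hyy hW'x hW'y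
  have h2 := hf_hyp σ H hσ hH x₀ y₀ W A B h00 h10 h11 hWx0 hWy0
  have h3 : x₀ * A + y₀ * B + W = 1 := by
    rw [hW]
    abel
  rw [h1, hWW, ← h2, h3, hf_one_left, mapσ_one, Matrix.mul_one]

theorem secM_mul (x₀ y₀ x : Matrix (Fin N) (Fin m) E) (Gi : Matrix (Fin m) (Fin m) E)
    (h00 : hf σ H x₀ x₀ = 0) (h01 : hf σ H x₀ y₀ = -1) : secM σ H x₀ y₀ x Gi * x₀ = x := by
  have h1 : (-(H * y₀.map σ).transpose) * x₀ = 1 := by
    have h2 : ((H * y₀.map σ).transpose * x₀).transpose = -1 := by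
      rw [Matrix.transpose_mul, Matrix.transpose_transpose, ← Matrix.mul_assoc]
      exact h01
    have h3 := congrArg Matrix.transpose h2
    rw [Matrix.transpose_transpose, Matrix.transpose_neg, Matrix.transpose_one] at h3
    rw [Matrix.neg_mul, h3, neg_neg]
  have h4 : (H * x₀.map σ).transpose * x₀ = 0 := by
    have h2 : ((H * x₀.map σ).transpose * x₀).transpose = 0 := by
      rw [Matrix.transpose_mul, Matrix.transpose_transpose, ← Matrix.mul_assoc]
      exact h00
    have h3 := congrArg Matrix.transpose h2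
    rwa [Matrix.transpose_transpose, Matrix.transpose_zero] at h3
  have h5 : (1 - (x₀ * (-(H * y₀.map σ).transpose) + y₀ * (H * x₀.map σ).transpose)) * x₀ = 0 := by
    rw [Matrix.sub_mul, Matrix.add_mul, Matrix.mul_assoc, Matrix.mul_assoc, h1, h4]
    simp
  rw [secM, Matrix.add_mul, Matrix.add_mul, Matrix.mul_assoc x, h1,
    Matrix.mul_assoc (y₀ * Gi.transpose), h4,
    Matrix.mul_assoc (1 - y₀ * Gi.transpose * (H * x.map σ).transpose), h5]
  simp

theorem secM_mul_dual (x₀ y₀ x : Matrix (Fin N) (Fin m) E) (Gi : Matrix (Fin m) (Fin m) E)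
    (h10 : hf σ H y₀ x₀ = 1) (h11 : hf σ H y₀ y₀ = 0) :
    secM σ H x₀ y₀ x Gi * y₀ = y₀ * Gi.transpose := by
  have h1 : (-(H * y₀.map σ).transpose) * y₀ = 0 := by
    have h2 : ((H * y₀.map σ).transpose * y₀).transpose = 0 := by
      rw [Matrix.transpose_mul, Matrix.transpose_transpose, ← Matrix.mul_assoc]
      exact h11
    have h3 := congrArg Matrix.transpose h2
    rw [Matrix.transpose_transpose, Matrix.transpose_zero] at h3
    rw [Matrix.neg_mul, h3, neg_zero]
  have h4 : (H * x₀.map σ).transpose * y₀ = 1 := by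
    have h2 : ((H * x₀.map σ).transpose * y₀).transpose = 1 := by
      rw [Matrix.transpose_mul, Matrix.transpose_transpose, ← Matrix.mul_assoc]
      exact h10
    have h3 := congrArg Matrix.transpose h2
    rwa [Matrix.transpose_transpose, Matrix.transpose_one] at h3
  have h5 : (1 - (x₀ * (-(H * y₀.map σ).transpose) + y₀ * (H * x₀.map σ).transpose)) * y₀ = 0 := by
    rw [Matrix.sub_mul, Matrix.add_mul, Matrix.mul_assoc, Matrix.mul_assoc, h1, h4]
    simp
  rw [secM, Matrix.add_mul, Matrix.add_mul, Matrix.mul_assoc x, h1,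
    Matrix.mul_assoc (y₀ * Gi.transpose), h4,
    Matrix.mul_assoc (1 - y₀ * Gi.transpose * (H * x.map σ).transpose), h5]
  simp

theorem secM_self (x₀ y₀ : Matrix (Fin N) (Fin m) E)
    (h00 : hf σ H x₀ x₀ = 0) (h10 : hf σ H y₀ x₀ = 1) :
    secM σ H x₀ y₀ x₀ 1 = 1 := by
  rw [secM, Matrix.transpose_one, Matrix.mul_one]
  set A : Matrix (Fin m) (Fin N) E := -(H * y₀.map σ).transpose with hA
  set B : Matrix (Fin m) (Fin N) E := (H * x₀.map σ).transpose with hB
  have hWx0 : hf σ H (1 - (x₀ * A + y₀ * B)) x₀ = 0 := by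
    rw [hf_sub_left, hf_add_left, hf_mul_left, hf_mul_left, h00, h10, hf_one_left, hB,
      Matrix.transpose_transpose, Matrix.mul_zero, zero_add, Matrix.mul_one, sub_self]
  have h1 : B * (1 - (x₀ * A + y₀ * B)) = 0 := by
    have h2 : (B * (1 - (x₀ * A + y₀ * B))).transpose = 0 := by
      rw [Matrix.transpose_mul, hB, Matrix.transpose_transpose, ← Matrix.mul_assoc]
      exact hWx0
    have h3 := congrArg Matrix.transpose h2
    rwa [Matrix.transpose_transpose, Matrix.transpose_zero] at h3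
  rw [Matrix.sub_mul 1, Matrix.one_mul, Matrix.mul_assoc, h1, Matrix.mul_zero, sub_zero]
  abel

/-- The elements of the Levi subgroup: `x₀ ↦ x₀ a`, `y₀ ↦ y₀ σ(a)^{-t}`, the identity on the
complement. -/
theorem exists_levi (hσ : ∀ x, σ (σ x) = x) (hH : IsSkew σ H) (x₀ y₀ : Matrix (Fin N) (Fin m) E)
    (h00 : hf σ H x₀ x₀ = 0) (h10 : hf σ H y₀ x₀ = 1) (h11 : hf σ H y₀ y₀ = 0)
    (a : GL (Fin m) E) :
    ∃ u : unitary σ H, umat u * x₀ = x₀ * (a : Matrix (Fin m) (Fin m) E) ∧
      umat u * y₀ = y₀ * (((a⁻¹ : GL (Fin m) E) : Matrix (Fin m) (Fin m) E).map σ).transpose ∧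
      ∀ (k : ℕ) (w : Matrix (Fin N) (Fin k) E), hf σ H w x₀ = 0 → hf σ H w y₀ = 0 →
        umat u * w = w := by
  have h01 : hf σ H x₀ y₀ = -1 := by
    rw [hf_skew σ H hσ hH y₀ x₀, h10, mapσ_one, Matrix.transpose_one]
  set x := x₀ * (a : Matrix (Fin m) (Fin m) E) with hx
  set Gi := ((a⁻¹ : GL (Fin m) E) : Matrix (Fin m) (Fin m) E).map σ with hGi
  have h1 : hf σ H x x = 0 := by rw [hx, hf_mul, h00, Matrix.mul_zero, Matrix.zero_mul]
  have h2 : Gi * hf σ H y₀ x = 1 := by
    rw [hx, hf_mul_right, h10, Matrix.one_mul, hGi, ← mapσ_mul, ← Units.val_mul, inv_mul_cancel,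
      Units.val_one, mapσ_one]
  obtain ⟨u, hu, -⟩ := exists_unitary_hf σ H hH (secM σ H x₀ y₀ x Gi)
    (secM_hf σ H hσ hH x₀ y₀ x Gi h00 h10 h11 h1 h2)
  refine ⟨u, ?_, ?_, ?_⟩
  · rw [hu]
    exact secM_mul σ H x₀ y₀ x Gi h00 h01
  · rw [hu]
    exact secM_mul_dual σ H x₀ y₀ x Gi h10 h11
  · intro k w hwx hwy
    have h3 : ∀ z : Matrix (Fin N) (Fin m) E, hf σ H w z = 0 → (H * z.map σ).transpose * w = 0 := by
      intro z hz
      have h4 : ((H * z.map σ).transpose * w).transpose = 0 := by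
        rw [Matrix.transpose_mul, Matrix.transpose_transpose, ← Matrix.mul_assoc]
        exact hz
      have h5 := congrArg Matrix.transpose h4
      rwa [Matrix.transpose_transpose, Matrix.transpose_zero] at h5
    have h6 : (H * x.map σ).transpose * w = 0 := by
      refine h3 x ?_
      rw [hx, hf_mul_right, hwx, Matrix.zero_mul]
    have h7 : (1 - (x₀ * (-(H * y₀.map σ).transpose) + y₀ * (H * x₀.map σ).transpose)) * w = w := by
      rw [Matrix.sub_mul, Matrix.add_mul, Matrix.mul_assoc, Matrix.mul_assoc, Matrix.neg_mul,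
        h3 _ hwx, h3 _ hwy]
      simp
    rw [hu, secM, Matrix.add_mul, Matrix.add_mul, Matrix.mul_assoc x, Matrix.neg_mul, h3 _ hwy,
      Matrix.mul_assoc (y₀ * Gi.transpose), h3 _ hwx,
      Matrix.mul_assoc (1 - y₀ * Gi.transpose * (H * x.map σ).transpose), h7, Matrix.sub_mul,
      Matrix.mul_assoc (y₀ * Gi.transpose), h6]
    simp

/-- `x` is in the orbit of `x₀`. -/
def Orb (x₀ x : Matrix (Fin N) (Fin m) E) : Prop := ∃ u : unitary σ H, umat u * x₀ = x

private theorem umat_mul (u v : unitary σ H) : umat (u * v) = umat u * umat v := rfl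

private theorem umat_inv_mul (u : unitary σ H) : umat u⁻¹ * umat u = 1 := by
  rw [← umat_mul, inv_mul_cancel]
  rfl

private theorem umat_mul_inv (u : unitary σ H) : umat u * umat u⁻¹ = 1 := by
  rw [← umat_mul, mul_inv_cancel]
  rfl

theorem Orb.trans {x₀ x y : Matrix (Fin N) (Fin m) E} (h : Orb σ H x₀ x) (h' : Orb σ H x y) :
    Orb σ H x₀ y := by
  obtain ⟨u, rfl⟩ := h
  obtain ⟨v, rfl⟩ := h'
  exact ⟨v * u, by rw [umat_mul, Matrix.mul_assoc]⟩

theorem Orb.symm {x₀ x : Matrix (Fin N) (Fin m) E} (h : Orb σ H x₀ x) : Orb σ H x x₀ := by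
  obtain ⟨u, rfl⟩ := h
  exact ⟨u⁻¹, by rw [← Matrix.mul_assoc, umat_inv_mul, Matrix.one_mul]⟩

theorem Orb.refl (x₀ : Matrix (Fin N) (Fin m) E) : Orb σ H x₀ x₀ :=
  ⟨1, by
    show (1 : Matrix (Fin N) (Fin N) E) * x₀ = x₀
    rw [Matrix.one_mul]⟩

theorem Orb.hf_eq {x₀ x : Matrix (Fin N) (Fin m) E} (h : Orb σ H x₀ x)
    (h00 : hf σ H x₀ x₀ = 0) : hf σ H x x = 0 := by
  obtain ⟨u, rfl⟩ := h
  rw [hf_unitary, h00]

theorem Orb.left_inv {x₀ x : Matrix (Fin N) (Fin m) E} (h : Orb σ H x₀ x)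
    (hl : ∃ l : Matrix (Fin m) (Fin N) E, l * x₀ = 1) :
    ∃ l : Matrix (Fin m) (Fin N) E, l * x = 1 := by
  obtain ⟨u, rfl⟩ := h
  obtain ⟨l, hl⟩ := hl
  refine ⟨l * umat u⁻¹, ?_⟩
  rw [Matrix.mul_assoc, ← Matrix.mul_assoc (umat u⁻¹), umat_inv_mul, Matrix.one_mul, hl]

end alg

section top

variable {F E : Type} [NontriviallyNormedField F] [IsUltrametricDist F] [ProperSpace F]
  [NontriviallyNormedField E] [NormedAlgebra F E] [IsUltrametricDist E] [ProperSpace E]
  {σ : E ≃ₐ[F] E} {δ : E} {d : F} {N m : ℕ} {H : Matrix (Fin N) (Fin N) E}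

theorem continuous_σ (hq : QuadDatum σ δ d) : Continuous (σ : E → E) := by
  have hfin := hq.finite
  exact σ.toLinearMap.continuous_of_finiteDimensional

theorem continuous_σ_symm (hq : QuadDatum σ δ d) : Continuous (σ.symm : E → E) := by
  have hfin := hq.finite
  exact σ.symm.toLinearMap.continuous_of_finiteDimensional

theorem continuous_mapσ (hq : QuadDatum σ δ d) {k l : Type} :
    Continuous fun x : Matrix k l E => x.map σ :=
  continuous_id.matrix_map (continuous_σ hq)

theorem continuous_hf (hq : QuadDatum σ δ d) {k : Type} :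
    Continuous fun x : Matrix (Fin N) k E => hf σ H x x :=
  (continuous_id.matrix_transpose.matrix_mul continuous_const).matrix_mul (continuous_mapσ hq)

/-- The orbit map is open, with an explicit section. -/
theorem exists_near (hq : QuadDatum σ δ d) (hH : IsSkew σ H) (x₀ : Matrix (Fin N) (Fin m) E)
    (h00 : hf σ H x₀ x₀ = 0) (hl : ∃ l : Matrix (Fin m) (Fin N) E, l * x₀ = 1)
    (K : Set (unitary σ H)) (hK : K ∈ 𝓝 (1 : unitary σ H)) :
    ∀ᶠ x in 𝓝 x₀, hf σ H x x = 0 → ∃ k ∈ K, umat k * x₀ = x := by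
  have hσ := sig_sig hq
  obtain ⟨y₀, h10, h11⟩ := exists_dual_frame σ H hσ hq.two_E hH x₀ h00 hl
  have h01 : hf σ H x₀ y₀ = -1 := by
    rw [hf_skew σ H hσ hH y₀ x₀, h10, mapσ_one, Matrix.transpose_one]
  rw [nhds_subtype_eq_comap, Filter.mem_comap] at hK
  obtain ⟨U, hU, hUK⟩ := hK
  obtain ⟨ε, hε, -, hεU⟩ := exists_ball_gl hU
  set G : Matrix (Fin N) (Fin m) E → Matrix (Fin m) (Fin m) E := fun x => hf σ H y₀ x with hG
  have hGc : Continuous G := continuous_const.matrix_mul (continuous_mapσ hq)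
  set Gi : Matrix (Fin N) (Fin m) E → Matrix (Fin m) (Fin m) E :=
    fun x => ((G x).det)⁻¹ • (G x).adjugate with hGi
  have hdet : ∀ᶠ x in 𝓝 x₀, (G x).det ≠ 0 := by
    refine hGc.matrix_det.continuousAt.eventually_ne ?_
    rw [hG]
    simp only
    rw [h10, Matrix.det_one]
    exact one_ne_zero
  have hGic : ContinuousAt Gi x₀ :=
    (hGc.matrix_det.continuousAt.inv₀ hdet.self_of_nhds).smul hGc.matrix_adjugate.continuousAt
  have hGi0 : Gi x₀ = 1 := by
    rw [hGi]
    simp only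
    rw [hG]
    simp only
    rw [h10, Matrix.det_one, Matrix.adjugate_one, inv_one, one_smul]
  set Ψ : Matrix (Fin N) (Fin m) E → Matrix (Fin N) (Fin N) E :=
    fun x => secM σ H x₀ y₀ x (Gi x) with hΨ
  have hΨ0 : Ψ x₀ = 1 := by
    rw [hΨ]
    simp only
    rw [hGi0, secM_self σ H x₀ y₀ h00 h10]
  have hmm : ∀ {a b c : Type} [Fintype b] {f : Matrix (Fin N) (Fin m) E → Matrix a b E}
      {g : Matrix (Fin N) (Fin m) E → Matrix b c E}, ContinuousAt f x₀ → ContinuousAt g x₀ →
      ContinuousAt (fun x => f x * g x) x₀ := by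
    intro a b c _ f g hf' hg'
    have h1 : Continuous fun p : Matrix a b E × Matrix b c E => p.1 * p.2 :=
      continuous_fst.matrix_mul continuous_snd
    exact h1.continuousAt.comp (hf'.prodMk hg')
  have hΨc : ContinuousAt Ψ x₀ := by
    have h1 : ContinuousAt (fun x => y₀ * (Gi x).transpose) x₀ :=
      hmm continuousAt_const (continuous_id.matrix_transpose.continuousAt.comp hGic)
    have h2 : ContinuousAt (fun x : Matrix (Fin N) (Fin m) E => (H * x.map σ).transpose) x₀ :=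
      ((continuous_const.matrix_mul (continuous_mapσ hq)).matrix_transpose).continuousAt
    exact ((hmm continuousAt_id continuousAt_const).add (hmm h1 continuousAt_const)).add
      (hmm (continuousAt_const.sub (hmm h1 h2)) continuousAt_const)
  have hΨc' : ContinuousAt (fun x => (H⁻¹ * (Ψ x).transpose * H).map σ.symm) x₀ := by
    have h1 : Continuous fun M : Matrix (Fin N) (Fin N) E => (H⁻¹ * M.transpose * H).map σ.symm :=
      ((continuous_const.matrix_mul continuous_id.matrix_transpose).matrix_mul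
        continuous_const).matrix_map (continuous_σ_symm hq)
    exact h1.continuousAt.comp hΨc
  have hΨ'0 : (H⁻¹ * (Ψ x₀).transpose * H).map σ.symm = 1 := by
    rw [hΨ0, Matrix.transpose_one, Matrix.mul_one,
      Matrix.nonsing_inv_mul _ (isUnit_iff_ne_zero.2 hH.det_ne)]
    exact Matrix.map_one _ (map_zero _) (map_one _)
  have hent : ∀ (f : Matrix (Fin N) (Fin m) E → Matrix (Fin N) (Fin N) E),
      ContinuousAt f x₀ → f x₀ = 1 → ∀ᶠ x in 𝓝 x₀, ∀ i j, ‖(f x - 1) i j‖ ≤ ε := by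
    intro f hf' h1
    rw [Filter.eventually_all]
    intro i
    rw [Filter.eventually_all]
    intro j
    have h2 : ContinuousAt (fun x => ‖(f x - 1) i j‖) x₀ := by
      have h3 : Continuous fun M : Matrix (Fin N) (Fin N) E => ‖(M - 1) i j‖ :=
        ((continuous_id.sub continuous_const).matrix_elem i j).norm
      exact h3.continuousAt.comp hf'
    have h4 : ‖(f x₀ - 1) i j‖ < ε := by
      rw [h1, sub_self]
      simpa using hε
    exact (h2.eventually_lt continuousAt_const h4).mono fun x hx => hx.le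
  filter_upwards [hdet, hent Ψ hΨc hΨ0, hent _ hΨc' hΨ'0] with x hx1 hx2 hx3 hxx
  have h1 : Gi x * hf σ H y₀ x = 1 := by
    show (((G x).det)⁻¹ • (G x).adjugate) * G x = 1
    rw [Matrix.smul_mul, Matrix.adjugate_mul, smul_smul, inv_mul_cancel₀ hx1, one_smul]
  obtain ⟨u, hu, hu'⟩ := exists_unitary_hf σ H hH (Ψ x)
    (secM_hf σ H hσ hH x₀ y₀ x (Gi x) h00 h10 h11 hxx h1)
  refine ⟨u, hUK ?_, ?_⟩
  · refine hεU _ (fun i j => ?_) (fun i j => ?_)
    · have := hx2 i j
      rwa [← hu] at this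
    · rw [hu']
      exact hx3 i j
  · rw [hu]
    exact secM_mul σ H x₀ y₀ x (Gi x) h00 h01

/-- The orbits of `U(X)` are open in the set of the isotropic frames. -/
theorem orb_near (hq : QuadDatum σ δ d) (hH : IsSkew σ H) (x₀ x : Matrix (Fin N) (Fin m) E)
    (hx : hf σ H x x = 0) (hl : ∃ l : Matrix (Fin m) (Fin N) E, l * x = 1) :
    ∀ᶠ x' in 𝓝 x, hf σ H x' x' = 0 → (Orb σ H x₀ x' ↔ Orb σ H x₀ x) := by
  filter_upwards [exists_near hq hH x hx hl Set.univ Filter.univ_mem] with x' h hx'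
  obtain ⟨k, -, hk⟩ := h hx'
  have h1 : Orb σ H x x' := ⟨k, hk⟩
  exact ⟨fun h2 => h2.trans σ H (h1.symm σ H), fun h2 => h2.trans σ H h1⟩

theorem orb_mul (hq : QuadDatum σ δ d) (hH : IsSkew σ H) (x₀ : Matrix (Fin N) (Fin m) E)
    (h00 : hf σ H x₀ x₀ = 0) (hl : ∃ l : Matrix (Fin m) (Fin N) E, l * x₀ = 1)
    (a : GL (Fin m) E) : Orb σ H x₀ (x₀ * (a : Matrix (Fin m) (Fin m) E)) := by
  obtain ⟨y₀, h10, h11⟩ := exists_dual_frame σ H (sig_sig hq) hq.two_E hH x₀ h00 hl
  obtain ⟨u, hu, -⟩ := exists_levi σ H (sig_sig hq) hH x₀ y₀ h00 h10 h11 a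
  exact ⟨u, hu⟩

end top

end SpW
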