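import Pool.Agent.Work.MP_3615d2_al.Clo.Par
import Pool.Agent.Work.MP_3615d2_al.Clo.Sec
import Pool.Agent.Work.MP_3615d2_al.P1.DefsQ
import Pool.Agent.Work.MP_3615d2_al.P1.Ev0H
import Pool.Agent.Work.MP_3615d2_al.P1.Kap
import Pool.Agent.Work.MP_3615d2_al.P1.Normal
import Pool.Agent.Work.MP_3615d2_al.P1.FreezeW

/-!
MP_3615d2_al, Part 1, module CLOSED: the closed functional in dimension `3m`.
-/

open MeasureTheory Filter Topology Matrix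
open scoped TensorProduct

set_option linter.unusedSectionVars false

namespace SpW.Clo

open SpW.P1

section form

variable {V S₀ S W : Type} [AddCommGroup V] [Module ℂ V] [AddCommGroup S₀] [Module ℂ S₀]
  [AddCommGroup S] [Module ℂ S] [AddCommGroup W] [Module ℂ W]

/-- `(v₁ ⊗ v₂, v₃, t) ↦ l(v₁, v₃) β₀(v₂, t)` -/
noncomputable def bV (l : V →ₗ[ℂ] V →ₗ[ℂ] ℂ) (β₀ : V →ₗ[ℂ] S₀ →ₗ[ℂ] ℂ) :
    V ⊗[ℂ] V →ₗ[ℂ] V →ₗ[ℂ] S₀ →ₗ[ℂ] ℂ :=
  TensorProduct.lift (LinearMap.mk₂ ℂ (fun v₁ v₂ => (l v₁).smulRight (β₀ v₂))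
    (fun a b c => by ext; simp [add_mul])
    (fun a b c => by ext; simp [mul_assoc])
    (fun a b c => by ext; simp)
    (fun a b c => by ext; simp [mul_left_comm]))

theorem bV_tmul (l : V →ₗ[ℂ] V →ₗ[ℂ] ℂ) (β₀ : V →ₗ[ℂ] S₀ →ₗ[ℂ] ℂ) (v₁ v₂ v₃ : V) (t : S₀) :
    bV l β₀ (v₁ ⊗ₜ v₂) v₃ t = l v₁ v₃ * β₀ v₂ t := by
  simp [bV]

/-- The form on the values. -/
noncomputable def cF (l : V →ₗ[ℂ] V →ₗ[ℂ] ℂ) (β₀ : V →ₗ[ℂ] S₀ →ₗ[ℂ] ℂ) (e₁ : W →ₗ[ℂ] V ⊗[ℂ] V)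
    (e : S →ₗ[ℂ] S₀) : W ⊗[ℂ] V →ₗ[ℂ] S →ₗ[ℂ] ℂ :=
  TensorProduct.lift (LinearMap.mk₂ ℂ (fun w v₃ => (bV l β₀ (e₁ w) v₃).comp e)
    (fun a b c => by ext; simp)
    (fun a b c => by ext; simp)
    (fun a b c => by ext; simp)
    (fun a b c => by ext; simp))

theorem cF_tmul (l : V →ₗ[ℂ] V →ₗ[ℂ] ℂ) (β₀ : V →ₗ[ℂ] S₀ →ₗ[ℂ] ℂ) (e₁ : W →ₗ[ℂ] V ⊗[ℂ] V)
    (e : S →ₗ[ℂ] S₀) (w : W) (v : V) (s : S) :
    cF l β₀ e₁ e (w ⊗ₜ v) s = bV l β₀ (e₁ w) v (e s) := by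
  simp [cF]

end form

section main

variable {F E : Type} [NontriviallyNormedField F] [IsUltrametricDist F] [ProperSpace F]
  [NontriviallyNormedField E] [NormedAlgebra F E] [IsUltrametricDist E] [ProperSpace E]
  [MeasurableSpace E] [BorelSpace E]
  {σ : E ≃ₐ[F] E} {δ : E} {d : F} {ψ : AddChar F Circle} {μ : Eˣ →* ℂˣ}
  {m N : ℕ} {V W S S₀ : Type}
  [AddCommGroup V] [Module ℂ V] [AddCommGroup W] [Module ℂ W] [AddCommGroup S] [Module ℂ S]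
  [AddCommGroup S₀] [Module ℂ S₀]

theorem ad_pelJ_blk {a b : ℕ} (h : a + b = N) (p : GL (Fin a) E) (q : GL (Fin b) E)
    (y : Matrix (Fin a) (Fin b) E) : ad (pelJ h p q y) = ad p * ad q := by
  unfold ad
  rw [← absE_mul]
  congr 1
  apply Units.ext
  show ((pelJ h p q y : GL (Fin N) E) : Matrix (Fin N) (Fin N) E).det = _
  rw [pelJ_val, bmJ, Matrix.det_reindex_self, Matrix.det_fromBlocks_zero₂₁]
  rfl

variable {H₀ : Matrix (Fin m) (Fin m) E} {ω₀ : unitary σ H₀ →* Module.End ℂ S₀}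
  {π : GL (Fin m) E →* Module.End ℂ V}

theorem bV_equiv (hq : QuadDatum σ δ d) (hH₀ : H₀.det ≠ 0) {l : V →ₗ[ℂ] V →ₗ[ℂ] ℂ}
    (hl : ∀ (a : GL (Fin m) E) v w, l (π a v) (kap σ μ π (trGL (sigGL σ a)⁻¹) w) =
        (((μ (Matrix.GeneralLinearGroup.det a))⁻¹ : ℂˣ) : ℂ) * l v w)
    {β₀ : V →ₗ[ℂ] S₀ →ₗ[ℂ] ℂ} (hβ₀ : InvForm σ H₀ π ω₀ β₀) (s0 : ℝ) (α : GL (Fin m) E)
    (u : unitary σ H₀) (x : V ⊗[ℂ] V) (v : V) (t : S₀) :
    bV l β₀ (rho π s0 (α, (u : GL (Fin m) E)) x) (kap σ μ π (trGL (sigGL σ α)⁻¹) v) (ω₀ u t) =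
      ((ad α ^ s0 : ℝ) : ℂ) * (((μ (Matrix.GeneralLinearGroup.det α))⁻¹ : ℂˣ) : ℂ) *
        bV l β₀ x v t := by
  induction x using TensorProduct.induction_on with
  | zero => simp
  | tmul x y =>
    rw [rho_tmul, map_smul, LinearMap.smul_apply, LinearMap.smul_apply, bV_tmul, bV_tmul, hl,
      hβ₀ u y t, ad_unitary hq hH₀ u.2, Real.one_rpow, mul_one, smul_eq_mul]
    ring
  | add x y hx hy =>
    rw [map_add, map_add, LinearMap.add_apply, LinearMap.add_apply, hx, hy, map_add,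
      LinearMap.add_apply, LinearMap.add_apply]
    ring

theorem isBlk_eps3 {m n k N : ℕ} (h1 : m + n = k) (h2 : k + m = N) :
    IsBlk h1 h2 (eps3 h1 h2) where
  l _ := rfl
  c _ := rfl
  r _ := rfl

theorem ad_dual (hq : QuadDatum σ δ d) (α : GL (Fin m) E) :
    ad (trGL (sigGL σ α)⁻¹) = (ad α)⁻¹ := by
  have h1 : ad (sigGL σ α) = ad α := by
    unfold ad
    rw [show Matrix.GeneralLinearGroup.det (sigGL σ α) =
      sigU σ (Matrix.GeneralLinearGroup.det α) from det_mapσ σ α]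
    exact absE_sig hq _ _ rfl
  have h2 : ad (sigGL σ α)⁻¹ * ad (sigGL σ α) = 1 := by rw [← ad_mul, inv_mul_cancel, ad_one]
  have h3 : ad (trGL (sigGL σ α)⁻¹) = ad (sigGL σ α)⁻¹ := by
    unfold ad
    congr 1
    apply Units.ext
    exact Matrix.det_transpose _
  rw [h3, ← h1]
  exact eq_inv_of_mul_eq_one_left h2

/-- The form on the values transforms by the modulus. -/
theorem isFibre_cF (hq : QuadDatum σ δ d) (hH₀ : H₀.det ≠ 0) {l : V →ₗ[ℂ] V →ₗ[ℂ] ℂ}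
    (hl : ∀ (a : GL (Fin m) E) v w, l (π a v) (kap σ μ π (trGL (sigGL σ a)⁻¹) w) =
        (((μ (Matrix.GeneralLinearGroup.det a))⁻¹ : ℂˣ) : ℂ) * l v w)
    {β₀ : V →ₗ[ℂ] S₀ →ₗ[ℂ] ℂ} (hβ₀ : InvForm σ H₀ π ω₀ β₀)
    {ω : unitary σ (hyp3 (two_mul m).symm (m21 m) H₀) →* Module.End ℂ S} {e : S →ₗ[ℂ] S₀}
    (he : ∀ (g : unitary σ (hyp3 (two_mul m).symm (m21 m) H₀)) (a : GL (Fin m) E)
        (u : unitary σ H₀),
        (∀ r, (umat g).mulVec (iot (eps3 (two_mul m).symm (m21 m)) r 0 0) =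
          iot (eps3 (two_mul m).symm (m21 m)) ((a : Matrix (Fin m) (Fin m) E).mulVec r) 0 0) →
        (∀ v, ∃ r, (umat g).mulVec (iot (eps3 (two_mul m).symm (m21 m)) 0 v 0) =
          iot (eps3 (two_mul m).symm (m21 m)) r ((umat u).mulVec v) 0) →
        ∀ s, e (ω g s) = (((μ (Matrix.GeneralLinearGroup.det a) : ℂˣ) : ℂ) *
          ((ad a ^ (1 / 2 : ℝ) : ℝ) : ℂ)) • ω₀ u (e s))
    {B : GL (Fin (2 * m)) E →* Module.End ℂ W} {e₁ : W →ₗ[ℂ] V ⊗[ℂ] V}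
    (he₁ : ∀ a d y w, e₁ (B (pel a d y) w) = rho π (((m : ℝ) + 1) / 2) (a, d) (e₁ w)) :
    IsFibre (m21 m) (x0 E (eps3 (two_mul m).symm (m21 m))) (2 * m) (rBK B (kap σ μ π)) ω
      (cF l β₀ e₁ e) := by
  intro p α hp
  obtain ⟨u, b, q, y, hpe, hqe, hr, hv⟩ := exists_par hq (isBlk_eps3 _ _)
    (isSplit_hyp3 _ _ hq H₀) p α hp
  have hq' : q = trGL (sigGL σ α)⁻¹ := by
    apply Units.ext
    rw [hqe]
    have h1 : (sigGL σ α)⁻¹ = sigGL σ α⁻¹ := (map_inv (Matrix.GeneralLinearGroup.map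
      (n := Fin m) (σ : E →+* E)) α).symm
    rw [h1]
    rfl
  refine ⟨pelJ (two_mul m).symm α (u : GL (Fin m) E) b, q, y, hpe, fun w s => ?_⟩
  subst hq'
  have hα := ad_pos α
  induction w using TensorProduct.induction_on with
  | zero => simp
  | tmul w v =>
    have hadp : ad (pel α (u : GL (Fin m) E) b) = ad α := by
      have h1 := ad_pelJ_blk (two_mul m).symm α (u : GL (Fin m) E) b
      rwa [ad_unitary hq hH₀ u.2, mul_one] at h1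
    rw [oten_tmul, map_smul, LinearMap.smul_apply, cF_tmul, cF_tmul, he p α u hr hv s, map_smul,
      pelJ_two, he₁, bV_equiv hq hH₀ hl hβ₀, hadp, ad_dual hq, smul_eq_mul, smul_eq_mul]
    have e1 : ((ad α ^ (2 * m) : ℝ) : ℂ) = ((ad α ^ ((m : ℝ) / 2) * (ad α)⁻¹ ^ (-((m : ℝ) - 1)) *
        (ad α ^ (1 / 2 : ℝ) * ad α ^ (((m : ℝ) + 1) / 2)) : ℝ) : ℂ) := by
      congr 1
      rw [Real.inv_rpow hα.le, Real.rpow_neg hα.le, inv_inv, ← Real.rpow_add hα,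
        ← Real.rpow_add hα, ← Real.rpow_add hα, ← Real.rpow_natCast]
      congr 1
      push_cast
      ring
    rw [e1]
    have e2 : ((μ (Matrix.GeneralLinearGroup.det α) : ℂˣ) : ℂ) *
        (((μ (Matrix.GeneralLinearGroup.det α))⁻¹ : ℂˣ) : ℂ) = 1 := by
      rw [← Units.val_mul, mul_inv_cancel, Units.val_one]
    simp only [Complex.ofReal_mul]
    linear_combination (((ad α ^ ((m : ℝ) / 2) : ℝ) : ℂ) *
      (((ad α)⁻¹ ^ (-((m : ℝ) - 1)) : ℝ) : ℂ) * ((ad α ^ (1 / 2 : ℝ) : ℝ) : ℂ) *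
      ((ad α ^ (((m : ℝ) + 1) / 2) : ℝ) : ℂ) * bV l β₀ (e₁ w) v (e s)) * e2
  | add x y hx hy =>
    rw [map_add, map_add, LinearMap.add_apply, hx, hy, map_add, LinearMap.add_apply]
    ring

theorem sk_single {k : ℕ} (H : Matrix (Fin k) (Fin k) E) (x : Matrix (Fin k) (Fin m) E)
    (i j : Fin m) : hf σ H x x i j = sk σ H (x *ᵥ Pi.single i 1) (x *ᵥ Pi.single j 1) := by
  rw [Matrix.mulVec_single_one, Matrix.mulVec_single_one, sk_eq_dot, Matrix.dotProduct_mulVec]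
  rfl

theorem hf_eq_zero {k : ℕ} {H : Matrix (Fin k) (Fin k) E} {x : Matrix (Fin k) (Fin m) E}
    (hx : ∀ v v' : Fin m → E, sk σ H (x *ᵥ v) (x *ᵥ v') = 0) : hf σ H x x = 0 := by
  ext i j
  rw [sk_single, hx]
  rfl

theorem exists_left_inv_x0 {n k : ℕ} (ε : Fin m ⊕ (Fin n ⊕ Fin m) ≃ Fin k) :
    ∃ l : Matrix (Fin m) (Fin k) E, l * x0 E ε = 1 := by
  refine ⟨Matrix.of fun i => Pi.single (ε (Sum.inl i)) 1, ?_⟩
  ext i j
  rw [Matrix.mul_apply]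
  have h1 : ∀ c : Fin k, (Matrix.of fun i => Pi.single (ε (Sum.inl i)) (1 : E)) i c *
      x0 E ε c j = (Pi.single (ε (Sum.inl i)) (1 : E) : Fin k → E) c * x0 E ε c j := fun c => rfl
  simp only [h1]
  have h2 : ∑ c, (Pi.single (ε (Sum.inl i)) (1 : E) : Fin k → E) c * x0 E ε c j =
      x0 E ε (ε (Sum.inl i)) j := by
    rw [Finset.sum_eq_single (ε (Sum.inl i))]
    · rw [Pi.single_eq_same, one_mul]
    · intro b _ hb
      rw [Pi.single_eq_of_ne hb, zero_mul]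
    · intro h
      exact absurd (Finset.mem_univ _) h
  rw [h2, x0, Matrix.of_apply, iot, Equiv.symm_apply_apply, Sum.elim_inl, Matrix.one_apply,
    Pi.single_apply]

/-- CLOSED, from the invariant functional on the functions on `U`. -/
theorem exists_closed_of (hq : QuadDatum σ δ d) (hψ : Continuous ψ) (hψ1 : ψ ≠ 1)
    (hμ : ConjSymplectic F μ)
    {π : GL (Fin m) E →* Module.End ℂ V} (hπ : IsSmoothRep π) (hirr : IsIrrRep π) (hc : IsCusp π)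
    (hu : UnitCentral π)
    {H₀ : Matrix (Fin m) (Fin m) E} (hH₀ : IsSkew σ H₀)
    {ρ₀ : (Fin m → E) → Module.End ℂ S₀} {ω₀ : unitary σ H₀ →* Module.End ℂ S₀}
    (hW₀ : IsWeil σ H₀ ψ μ ρ₀ ω₀) (β₀ : V →ₗ[ℂ] S₀ →ₗ[ℂ] ℂ) (hβ₀ : InvForm σ H₀ π ω₀ β₀)
    (hβ₀0 : β₀ ≠ 0) {ρ : (Fin (3 * m) → E) → Module.End ℂ S}
    {ω : unitary σ (hyp3 (two_mul m).symm (m21 m) H₀) →* Module.End ℂ S}
    (hW : IsWeil σ (hyp3 (two_mul m).symm (m21 m) H₀) ψ μ ρ ω)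
    {B : GL (Fin (2 * m)) E →* Module.End ℂ W} (hB : IsSmoothRep B) (e₁ : W →ₗ[ℂ] V ⊗[ℂ] V)
    (he₁ : ∀ a d y w, e₁ (B (pel a d y) w) = rho π (((m : ℝ) + 1) / 2) (a, d) (e₁ w))
    (Q : Submodule ℂ (unitary σ (hyp3 (two_mul m).symm (m21 m) H₀) → ℂ))
    (hQ : ∀ Φ, Φ ∈ Q ↔ IsQF σ (hyp3 (two_mul m).symm (m21 m) H₀)
      (x0 E (eps3 (two_mul m).symm (m21 m))) (2 * m) Φ)
    (I : Q →ₗ[ℂ] ℂ)
    (hI : ∀ (g : unitary σ (hyp3 (two_mul m).symm (m21 m) H₀)) (Φ Φ' : Q),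
      (∀ u, (Φ' : unitary σ (hyp3 (two_mul m).symm (m21 m) H₀) → ℂ) u =
        (Φ : unitary σ (hyp3 (two_mul m).symm (m21 m) H₀) → ℂ) (u * g)) → I Φ' = I Φ)
    (hpos : ∀ Φ : Q, (∀ u, ∃ r : ℝ, 0 ≤ r ∧
      (Φ : unitary σ (hyp3 (two_mul m).symm (m21 m) H₀) → ℂ) u = (r : ℂ)) → Φ ≠ 0 → I Φ ≠ 0) :
    ∃ βc : IndJ (m21 m) (rBK B (kap σ μ π)) →ₗ[ℂ] S →ₗ[ℂ] ℂ,
      InvForm σ (hyp3 (two_mul m).symm (m21 m) H₀)
        (indActJ (m21 m) (rBK B (kap σ μ π))) ω βc ∧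
      ∀ D : Submodule ℂ W, IsStab B D → (∀ w : V ⊗[ℂ] V, ∃ f ∈ D, e₁ f = w) →
        ∃ (f : IndJ (m21 m) (rBK B (kap σ μ π))) (s : S),
          (∀ g, (f : GL (Fin (3 * m)) E → W ⊗[ℂ] V) g ∈
            LinearMap.range (TensorProduct.map D.subtype (LinearMap.id (M := V) (R := ℂ)))) ∧
          βc f s ≠ 0 := by
  have hS := isSplit_hyp3 (two_mul m).symm (m21 m) hq H₀
  have hH : IsSkew σ (hyp3 (two_mul m).symm (m21 m) H₀) := isSkew_hyp3 _ _ hH₀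
  obtain ⟨e, hesurj, -, -, he, -, -⟩ := ev0_main hq hψ hψ1 hμ hH hS hW hW₀
  obtain ⟨l, hl0, hl'⟩ := kap_pairing hq hμ hπ hirr hc hu
  have hl : ∀ (a : GL (Fin m) E) v w, l (π a v) (kap σ μ π (trGL (sigGL σ a)⁻¹) w) =
      (((μ (Matrix.GeneralLinearGroup.det a))⁻¹ : ℂˣ) : ℂ) * l v w := by
    intro a v w
    refine hl' a _ ?_ v w
    have h1 : (sigGL σ a)⁻¹ = sigGL σ a⁻¹ := (map_inv (Matrix.GeneralLinearGroup.map
      (n := Fin m) (σ : E →+* E)) a).symm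
    rw [h1]
    rfl
  have hfib := isFibre_cF (B := B) (e₁ := e₁) (e := e) (ω := ω) hq hH₀.det_ne hl hβ₀ he he₁
  have hσ : Continuous σ := sig_continuous hq
  have hx := isFrame_x0 hq (isBlk_eps3 (two_mul m).symm (m21 m)) hS hH₀.det_ne
  have hsm : IsSmoothRep (rBK B (kap σ μ π)) := oten_smoothQ hB (kap_smooth hq hμ hπ) _ _
  obtain ⟨β, hβinv, hβI⟩ := exists_form (h := m21 m) hW.om_smooth hfib Q hQ I hI
  refine ⟨β, fun u f s => hβinv u f s, fun D hD hDe => ?_⟩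
  -- a vector and `s` with nonzero value
  obtain ⟨v₁, hv₁⟩ : ∃ v, l v ≠ 0 := by
    by_contra! h
    exact hl0 (LinearMap.ext fun v => h v)
  obtain ⟨v₃, hv₃⟩ : ∃ v, l v₁ v ≠ 0 := by
    by_contra! h
    exact hv₁ (LinearMap.ext fun v => h v)
  obtain ⟨v₂, hv₂⟩ : ∃ v, β₀ v ≠ 0 := by
    by_contra! h
    exact hβ₀0 (LinearMap.ext fun v => h v)
  obtain ⟨t, ht⟩ : ∃ t, β₀ v₂ t ≠ 0 := by
    by_contra! h
    exact hv₂ (LinearMap.ext fun v => h v)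
  obtain ⟨s, hs⟩ := hesurj t
  obtain ⟨f₀, hf₀D, hf₀⟩ := hDe (v₁ ⊗ₜ v₂)
  have hne : cF l β₀ e₁ e (f₀ ⊗ₜ v₃) s ≠ 0 := by
    rw [cF_tmul, hf₀, hs, bV_tmul]
    exact mul_ne_zero hv₃ ht
  have hmem : f₀ ⊗ₜ[ℂ] v₃ ∈
      LinearMap.range (TensorProduct.map D.subtype (LinearMap.id (M := V) (R := ℂ))) :=
    ⟨(⟨f₀, hf₀D⟩ : D) ⊗ₜ v₃, by rw [TensorProduct.map_tmul]; rfl⟩
  have hst : ∀ p q, ∀ w ∈ LinearMap.range
      (TensorProduct.map D.subtype (LinearMap.id (M := V) (R := ℂ))), rBK B (kap σ μ π) (p, q) w ∈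
      LinearMap.range (TensorProduct.map D.subtype (LinearMap.id (M := V) (R := ℂ))) := by
    rintro p q _ ⟨w, rfl⟩
    induction w using TensorProduct.induction_on with
    | zero =>
      rw [map_zero, map_zero]
      exact Submodule.zero_mem _
    | tmul x y =>
      rw [TensorProduct.map_tmul, oten_tmul]
      refine Submodule.smul_mem _ _ ⟨(⟨B p x, hD p x x.2⟩ : D) ⊗ₜ (kap σ μ π q y), ?_⟩
      rw [TensorProduct.map_tmul]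
      rfl
    | add x y hx hy =>
      rw [map_add, map_add]
      exact Submodule.add_mem _ hx hy
  obtain ⟨f, hf, s', hs'⟩ := form_ne hσ hx hH.det_ne hsm hW.om_smooth hfib Q hQ I hpos
    (fun K hK => by
      have h1 := exists_near hq hH (x0 E (eps3 (two_mul m).symm (m21 m)))
        (hf_eq_zero hx.isot) (exists_left_inv_x0 _) K hK
      filter_upwards [h1] with x hx1 hx2
      exact hx1 (hf_eq_zero hx2)) β hβI _ hst hmem hne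
  exact ⟨f, s', hf, hs'⟩

end main

end SpW.Clo
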