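import Pool.Agent.Work.MP_3615d2_al.Unimod

/-!
MP_3615d2_al, the closed functional: a finitely additive function on sets of a space with an action
of a unimodular group `A`, invariant under `A`, takes the same value on all fundamental sets.
-/

open MeasureTheory Measure Filter Topology Matrix
open scoped NNReal ENNReal Pointwise

set_option linter.unusedSectionVars false

namespace SpW

section abs

variable {X A : Type} [Group A] [TopologicalSpace A] [IsTopologicalGroup A] [MeasurableSpace A]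
  [BorelSpace A]

/-- A finitely additive, invariant function on a class `P` of subsets of `X`. -/
structure IsCont (act : X → A → X) (P : Set X → Prop) (c : Set X → ℂ) : Prop where
  one : ∀ x, act x 1 = x
  mul : ∀ x a b, act (act x a) b = act x (a * b)
  empty : c ∅ = 0
  add : ∀ B₁ B₂, P B₁ → P B₂ → Disjoint B₁ B₂ → P (B₁ ∪ B₂) ∧ c (B₁ ∪ B₂) = c B₁ + c B₂
  inter : ∀ B₁ B₂, P B₁ → P B₂ → P (B₁ ∩ B₂)
  pempty : P ∅
  pre : ∀ a B, P B → P {x | act x a ∈ B} ∧ c {x | act x a ∈ B} = c B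

variable {act : X → A → X} {P : Set X → Prop} {c : Set X → ℂ}

theorem IsCont.sum (h : IsCont act P c) {ι : Type} [DecidableEq ι] (B : ι → Set X)
    (R : Finset ι) (hP : ∀ i ∈ R, P (B i)) (hd : ∀ i ∈ R, ∀ j ∈ R, i ≠ j → Disjoint (B i) (B j)) :
    P {x | ∃ i ∈ R, x ∈ B i} ∧ c {x | ∃ i ∈ R, x ∈ B i} = ∑ i ∈ R, c (B i) := by
  induction R using Finset.induction_on with
  | empty =>
    have h1 : {x : X | ∃ i ∈ (∅ : Finset ι), x ∈ B i} = ∅ := by
      ext x
      simp
    rw [h1]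
    exact ⟨h.pempty, by rw [h.empty, Finset.sum_empty]⟩
  | insert i R hi ih =>
    obtain ⟨h2, h3⟩ := ih (fun j hj => hP j (Finset.mem_insert_of_mem hj)) (fun j hj k hk =>
      hd j (Finset.mem_insert_of_mem hj) k (Finset.mem_insert_of_mem hk))
    have h4 : {x | ∃ j ∈ insert i R, x ∈ B j} = B i ∪ {x | ∃ j ∈ R, x ∈ B j} := by
      ext x
      constructor
      · rintro ⟨j, hj, hx⟩
        rcases Finset.mem_insert.1 hj with rfl | hj
        · exact Or.inl hx
        · exact Or.inr ⟨j, hj, hx⟩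
      · rintro (hx | ⟨j, hj, hx⟩)
        · exact ⟨i, Finset.mem_insert_self _ _, hx⟩
        · exact ⟨j, Finset.mem_insert_of_mem hj, hx⟩
    have h5 : Disjoint (B i) {x | ∃ j ∈ R, x ∈ B j} := by
      rw [Set.disjoint_left]
      rintro x hx ⟨j, hj, hx'⟩
      have hij : i ≠ j := by
        rintro rfl
        exact hi hj
      exact Set.disjoint_left.1 (hd i (Finset.mem_insert_self _ _) j
        (Finset.mem_insert_of_mem hj) hij) hx hx'
    obtain ⟨h6, h7⟩ := h.add (B i) _ (hP i (Finset.mem_insert_self _ _)) h2 h5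
    rw [h4, Finset.sum_insert hi, ← h3]
    exact ⟨h6, h7⟩

/-- `D` is a fundamental set modulo `Γ`. -/
structure IsDom (act : X → A → X) (P : Set X → Prop) (Γ : Subgroup A) (D : Set X) : Prop where
  good : P D
  inv : ∀ x ∈ D, ∀ g ∈ Γ, act x g ∈ D
  uniq : ∀ x ∈ D, ∀ a, act x a ∈ D → a ∈ Γ

theorem IsCont.integral (h : IsCont act P c) (μ : Measure A) [μ.IsMulLeftInvariant]
    (Γ : Subgroup A) (hΓ : IsOpen (Γ : Set A)) (hΓf : μ (Γ : Set A) ≠ ∞) {D D' : Set X}
    (hD : IsDom act P Γ D) (hD' : IsDom act P Γ D') (R₀ : Finset A)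
    (hR₀ : ∀ x ∈ D', ∃ a ∈ R₀, act x a ∈ D) :
    ∫ a, c (D' ∩ {x | act x a ∈ D}) ∂μ = (μ.real (Γ : Set A) : ℂ) * c D' := by
  classical
  set ψ : A → ℂ := fun a => c (D' ∩ {x | act x a ∈ D}) with hψ
  have hmemD : ∀ x a g, g ∈ Γ → (act x (a * g) ∈ D ↔ act x a ∈ D) := by
    intro x a g hg
    rw [← h.mul]
    constructor
    · intro h1
      have h2 := hD.inv _ h1 g⁻¹ (Γ.inv_mem hg)
      rwa [h.mul, mul_inv_cancel, h.one] at h2
    · intro h1
      exact hD.inv _ h1 g hg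
  set R : Finset A := R₀.image fun a => Quotient.out (QuotientGroup.mk a : A ⧸ Γ) with hR
  have hout : ∀ a : A, ∃ g ∈ Γ, Quotient.out (QuotientGroup.mk a : A ⧸ Γ) = a * g := by
    intro a
    have h1 : (QuotientGroup.mk (Quotient.out (QuotientGroup.mk a : A ⧸ Γ)) : A ⧸ Γ) =
      QuotientGroup.mk a := QuotientGroup.out_eq' _
    have h2 := QuotientGroup.eq.1 h1.symm
    exact ⟨_, h2, by rw [mul_inv_cancel_left]⟩
  have hRe : ∀ x ∈ D', ∃ a ∈ R, act x a ∈ D := by
    intro x hx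
    obtain ⟨a, ha, h1⟩ := hR₀ x hx
    obtain ⟨g, hg, h2⟩ := hout a
    refine ⟨_, Finset.mem_image_of_mem _ ha, ?_⟩
    rw [h2, hmemD x a g hg]
    exact h1
  have hRu : ∀ a ∈ R, ∀ b ∈ R, a⁻¹ * b ∈ Γ → a = b := by
    intro a ha b hb hab
    obtain ⟨a', -, rfl⟩ := Finset.mem_image.1 ha
    obtain ⟨b', -, rfl⟩ := Finset.mem_image.1 hb
    have h1 := QuotientGroup.eq.2 hab
    have h2 : (QuotientGroup.mk a' : A ⧸ Γ) = QuotientGroup.mk b' := by
      rw [QuotientGroup.out_eq', QuotientGroup.out_eq'] at h1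
      exact h1
    rw [h2]
  have hxu : ∀ x ∈ D', ∀ a b, act x a ∈ D → act x b ∈ D → a⁻¹ * b ∈ Γ := by
    intro x hx a b ha hb
    refine hD.uniq _ ha _ ?_
    rw [h.mul, mul_inv_cancel_left]
    exact hb
  have hgood : ∀ a, P (D' ∩ {x | act x a ∈ D}) := fun a =>
    h.inter _ _ hD'.good (h.pre a D hD.good).1
  -- the decomposition of `D'`
  have h1 : c D' = ∑ a ∈ R, ψ a := by
    have h2 := h.sum (fun a => D' ∩ {x | act x a ∈ D}) R (fun a _ => hgood a)
      (fun a ha b hb hab => by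
        rw [Set.disjoint_left]
        rintro x ⟨hx, hxa⟩ ⟨-, hxb⟩
        exact hab (hRu a ha b hb (hxu x hx a b hxa hxb)))
    rw [← h2.2]
    congr 1
    ext x
    constructor
    · intro hx
      obtain ⟨a, ha, h3⟩ := hRe x hx
      exact ⟨a, ha, hx, h3⟩
    · rintro ⟨a, -, hx, -⟩
      exact hx
  -- the function `ψ`
  have hψe : ∀ a, ψ a = ∑ b ∈ R, (({y | b⁻¹ * y ∈ Γ} : Set A).indicator (fun _ => ψ b)) a := by
    intro a
    have hinv : ∀ b, b⁻¹ * a ∈ Γ → ψ a = ψ b := by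
      intro b hb
      rw [hψ]
      simp only
      congr 2
      ext x
      show act x a ∈ D ↔ act x b ∈ D
      rw [← hmemD x b _ hb, mul_inv_cancel_left]
    by_cases he : ∃ b ∈ R, b⁻¹ * a ∈ Γ
    · obtain ⟨b, hb, hba⟩ := he
      rw [Finset.sum_eq_single b]
      · rw [Set.indicator_of_mem (show a ∈ ({y | b⁻¹ * y ∈ Γ} : Set A) from hba), hinv b hba]
      · intro b' hb' hne
        rw [Set.indicator_of_notMem]
        intro h2
        apply hne
        refine hRu b' hb' b hb ?_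
        have h3 := Γ.mul_mem (show b'⁻¹ * a ∈ Γ from h2) (Γ.inv_mem hba)
        have h4 : b'⁻¹ * a * (b⁻¹ * a)⁻¹ = b'⁻¹ * b := by group
        rwa [h4] at h3
      · intro h2
        exact (h2 hb).elim
    · have h2 : ψ a = 0 := by
        have h3 : D' ∩ {x | act x a ∈ D} = ∅ := by
          refine Set.eq_empty_iff_forall_notMem.2 ?_
          rintro x ⟨hx, hxa⟩
          obtain ⟨b, hb, hxb⟩ := hRe x hx
          exact he ⟨b, hb, hxu x hx b a hxb hxa⟩
        rw [hψ]
        simp only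
        rw [h3, h.empty]
      rw [h2]
      symm
      refine Finset.sum_eq_zero fun b hb => ?_
      rw [Set.indicator_of_notMem]
      intro h3
      exact he ⟨b, hb, h3⟩
  have hset : ∀ b : A, MeasurableSet ({y | b⁻¹ * y ∈ Γ} : Set A) := fun b =>
    (hΓ.preimage (continuous_const.mul continuous_id)).measurableSet
  have hmeas : ∀ b : A, μ ({y | b⁻¹ * y ∈ Γ} : Set A) = μ (Γ : Set A) := fun b =>
    measure_preimage_mul μ b⁻¹ (Γ : Set A)
  have hint : ∫ a, ψ a ∂μ =
      ∫ a, ∑ b ∈ R, (({y | b⁻¹ * y ∈ Γ} : Set A).indicator (fun _ => ψ b)) a ∂μ :=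
    integral_congr_ae (Filter.Eventually.of_forall hψe)
  show ∫ a, ψ a ∂μ = _
  rw [hint, integral_finsetSum]
  · rw [h1, Finset.mul_sum]
    refine Finset.sum_congr rfl fun b _ => ?_
    rw [integral_indicator_const _ (hset b), Measure.real, hmeas]
    simp [Measure.real]
  · intro b _
    refine (integrable_indicator_iff (hset b)).2 (integrableOn_const ?_)
    rw [hmeas]
    exact hΓf

/-- **Independence of the fundamental set.** -/
theorem IsCont.swap (h : IsCont act P c) (μ : Measure A) [μ.IsMulLeftInvariant]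
    [μ.IsInvInvariant] (Γ : Subgroup A) (hΓ : IsOpen (Γ : Set A)) (hΓ0 : μ (Γ : Set A) ≠ 0)
    (hΓf : μ (Γ : Set A) ≠ ∞) {D D' : Set X}
    (hD : IsDom act P Γ D) (hD' : IsDom act P Γ D') (R₀ : Finset A)
    (hR₀ : ∀ x ∈ D', ∃ a ∈ R₀, act x a ∈ D) (R₁ : Finset A)
    (hR₁ : ∀ x ∈ D, ∃ a ∈ R₁, act x a ∈ D') : c D = c D' := by
  have h1 := h.integral μ Γ hΓ hΓf hD hD' R₀ hR₀
  have h2 := h.integral μ Γ hΓ hΓf hD' hD R₁ hR₁
  have h3 : ∫ a, c (D ∩ {x | act x a ∈ D'}) ∂μ = ∫ a, c (D' ∩ {x | act x a ∈ D}) ∂μ := by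
    rw [← integral_inv_eq_self (fun a => c (D' ∩ {x | act x a ∈ D})) μ]
    refine integral_congr_ae (Filter.Eventually.of_forall fun a => ?_)
    show c (D ∩ {x | act x a ∈ D'}) = c (D' ∩ {x | act x a⁻¹ ∈ D})
    rw [← (h.pre a (D' ∩ {x | act x a⁻¹ ∈ D}) (h.inter _ _ hD'.good
      (h.pre a⁻¹ D hD.good).1)).2]
    congr 1
    ext x
    show (x ∈ D ∧ act x a ∈ D') ↔ (act x a ∈ D' ∧ act (act x a) a⁻¹ ∈ D)
    rw [h.mul, mul_inv_cancel, h.one]
    exact and_comm
  rw [h3, h1] at h2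
  have h4 : (μ.real (Γ : Set A) : ℂ) ≠ 0 := by
    exact_mod_cast (ENNReal.toReal_pos hΓ0 hΓf).ne'
  exact (mul_left_cancel₀ h4 h2).symm

end abs

section gl

variable {K : Type} [NontriviallyNormedField K] [IsUltrametricDist K] [ProperSpace K]
  {n : Type} [Fintype n] [DecidableEq n]

/-- Haar measure of `GL_n(K)` is invariant under inversion. -/
theorem gl_haar_inv [MeasurableSpace (GL n K)] [BorelSpace (GL n K)] (μ : Measure (GL n K))
    [μ.IsHaarMeasure] [μ.Regular] : μ.IsInvInvariant := by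
  have hr := Hk.haar_right μ
  set K₀ : Set (GL n K) := (intGL K n : Set (GL n K)) with hK₀
  have hKo : IsOpen K₀ := intGL_isOpen
  have hKc : IsCompact K₀ := intGL_isCompact
  have hpos : μ K₀ ≠ 0 := (hKo.measure_pos μ ⟨1, one_mem (intGL K n)⟩).ne'
  have hfin : μ K₀ ≠ ⊤ := hKc.measure_lt_top.ne
  have hreg : (μ.inv).Regular := Regular.map (Homeomorph.inv (GL n K))
  have h1 := isMulLeftInvariant_eq_smul_of_regular μ.inv μ
  have h2 : μ.inv K₀ = μ K₀ := by
    rw [Measure.inv_apply]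
    congr 1
    ext x
    rw [Set.mem_inv, hK₀]
    exact (intGL K n).inv_mem_iff
  have h3 : haarScalarFactor μ.inv μ = 1 := by
    rw [h1, Measure.smul_apply, ENNReal.smul_def, smul_eq_mul] at h2
    have h4 : ((haarScalarFactor μ.inv μ : ℝ≥0) : ENNReal) * μ K₀ = 1 * μ K₀ := by
      rw [one_mul]
      exact h2
    have h5 := (ENNReal.mul_left_inj hpos hfin).1 h4
    exact_mod_cast h5
  rw [h3, one_smul] at h1
  exact ⟨h1⟩

end gl

end SpW
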