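import Pool.Agent.Work.MP_3615d2_al.Clo.FibX
import Pool.Agent.Work.MP_3615d2_al.Clo.Dom

/-!
MP_3615d2_al, the closed functional: the invariant integral on the functions on `U(X)` which are
left equivariant under the stabilizer of an isotropic space, without an Iwasawa decomposition.
-/

open MeasureTheory Measure Filter Topology Matrix
open scoped NNReal ENNReal Pointwise

set_option linter.unusedSectionVars false

namespace SpW

section

variable {F E : Type} [NontriviallyNormedField F] [IsUltrametricDist F] [ProperSpace F]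
  [NontriviallyNormedField E] [NormedAlgebra F E] [IsUltrametricDist E] [ProperSpace E]
  [MeasurableSpace E] [BorelSpace E]
  {σ : E ≃ₐ[F] E} {δ : E} {d : F} {N m : ℕ} {H : Matrix (Fin N) (Fin N) E}

/-- The functions on `U(X)` with `Φ (p u) = |det a|^(N - m) Φ(u)` for `p` in the stabilizer of the
space of the frame `x₀`, `p x₀ = x₀ a`, which are right invariant under an open subgroup. -/
def QF (σ : E ≃ₐ[F] E) (H : Matrix (Fin N) (Fin N) E) (x₀ : Matrix (Fin N) (Fin m) E) :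
    Submodule ℂ (unitary σ H → ℂ) where
  carrier := {Φ | (∀ (p u : unitary σ H) (a : GL (Fin m) E),
    umat p * x₀ = x₀ * (a : Matrix (Fin m) (Fin m) E) →
      Φ (p * u) = ((ad a ^ (N - m) : ℝ) : ℂ) * Φ u) ∧
    ∀ᶠ k in 𝓝 (1 : unitary σ H), ∀ u, Φ (u * k) = Φ u}
  add_mem' := by
    rintro Φ Ψ ⟨h1, h2⟩ ⟨h3, h4⟩
    refine ⟨fun p u a hp => ?_, ?_⟩
    · rw [Pi.add_apply, Pi.add_apply, h1 p u a hp, h3 p u a hp, mul_add]
    · filter_upwards [h2, h4] with k h5 h6 u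
      rw [Pi.add_apply, Pi.add_apply, h5, h6]
  zero_mem' := ⟨fun p u a _ => by simp, Filter.Eventually.of_forall fun k u => rfl⟩
  smul_mem' := by
    rintro c Φ ⟨h1, h2⟩
    refine ⟨fun p u a hp => ?_, ?_⟩
    · rw [Pi.smul_apply, Pi.smul_apply, h1 p u a hp, smul_eq_mul, smul_eq_mul, mul_left_comm]
    · filter_upwards [h2] with k h5 u
      rw [Pi.smul_apply, Pi.smul_apply, h5]

theorem mem_QF {x₀ : Matrix (Fin N) (Fin m) E} {Φ : unitary σ H → ℂ} : Φ ∈ QF σ H x₀ ↔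
    (∀ (p u : unitary σ H) (a : GL (Fin m) E),
      umat p * x₀ = x₀ * (a : Matrix (Fin m) (Fin m) E) →
        Φ (p * u) = ((ad a ^ (N - m) : ℝ) : ℂ) * Φ u) ∧
      ∀ᶠ k in 𝓝 (1 : unitary σ H), ∀ u, Φ (u * k) = Φ u := Iff.rfl

open Classical in
/-- The function on the frames attached to `Φ`. -/
noncomputable def tld (x₀ : Matrix (Fin N) (Fin m) E) (Φ : unitary σ H → ℂ)
    (x : Fin N → Fin m → E) : ℂ :=
  if h : Orb σ H x₀ (Matrix.of x) then Φ (h.choose)⁻¹ else 0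

private theorem um_mul (u v : unitary σ H) : umat (u * v) = umat u * umat v := rfl

private theorem um_inv (u : unitary σ H) : umat u⁻¹ * umat u = 1 := by
  rw [← um_mul, inv_mul_cancel]
  rfl

private theorem um_inv' (u : unitary σ H) : umat u * umat u⁻¹ = 1 := by
  rw [← um_mul, mul_inv_cancel]
  rfl

theorem tld_eq {x₀ : Matrix (Fin N) (Fin m) E} {Φ : unitary σ H → ℂ} (hΦ : Φ ∈ QF σ H x₀)
    {x : Fin N → Fin m → E} (u : unitary σ H) (hu : umat u * x₀ = Matrix.of x) :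
    tld x₀ Φ x = Φ u⁻¹ := by
  have h : Orb σ H x₀ (Matrix.of x) := ⟨u, hu⟩
  rw [tld, dif_pos h]
  have h1 := h.choose_spec
  set v := h.choose with hv
  have h2 : umat (v⁻¹ * u) * x₀ = x₀ * ((1 : GL (Fin m) E) : Matrix (Fin m) (Fin m) E) := by
    rw [um_mul, Matrix.mul_assoc, hu, ← h1, ← Matrix.mul_assoc, um_inv, Matrix.one_mul,
      Units.val_one, Matrix.mul_one]
  have h3 := hΦ.1 (v⁻¹ * u) u⁻¹ 1 h2
  rw [mul_inv_cancel_right, ad_one, one_pow] at h3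
  rw [h3]
  simp

theorem tld_not {x₀ : Matrix (Fin N) (Fin m) E} {Φ : unitary σ H → ℂ}
    {x : Fin N → Fin m → E} (h : ¬ Orb σ H x₀ (Matrix.of x)) : tld x₀ Φ x = 0 := by
  rw [tld, dif_neg h]

theorem tld_add {x₀ : Matrix (Fin N) (Fin m) E} (Φ Ψ : unitary σ H → ℂ)
    (x : Fin N → Fin m → E) : tld x₀ (Φ + Ψ) x = tld x₀ Φ x + tld x₀ Ψ x := by
  by_cases h : Orb σ H x₀ (Matrix.of x)
  · rw [tld, tld, tld, dif_pos h, dif_pos h, dif_pos h, Pi.add_apply]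
  · rw [tld_not h, tld_not h, tld_not h, add_zero]

theorem tld_smul {x₀ : Matrix (Fin N) (Fin m) E} (c : ℂ) (Φ : unitary σ H → ℂ)
    (x : Fin N → Fin m → E) : tld x₀ (c • Φ) x = c * tld x₀ Φ x := by
  by_cases h : Orb σ H x₀ (Matrix.of x)
  · rw [tld, tld, dif_pos h, dif_pos h, Pi.smul_apply, smul_eq_mul]
  · rw [tld_not h, tld_not h, mul_zero]

theorem orb_rmul_iff (hq : QuadDatum σ δ d) (hH : IsSkew σ H) {x₀ : Matrix (Fin N) (Fin m) E}
    (h00 : hf σ H x₀ x₀ = 0) (hl : ∃ l : Matrix (Fin m) (Fin N) E, l * x₀ = 1)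
    (a : GL (Fin m) E) (x : Fin N → Fin m → E) :
    Orb σ H x₀ (Matrix.of (rmulE N a x)) ↔ Orb σ H x₀ (Matrix.of x) := by
  have h1 : ∀ (b : GL (Fin m) E) (y : Fin N → Fin m → E), Orb σ H x₀ (Matrix.of y) →
      Orb σ H x₀ (Matrix.of (rmulE N b y)) := by
    rintro b y ⟨u, hu⟩
    obtain ⟨p, hp⟩ := orb_mul hq hH x₀ h00 hl b
    refine ⟨u * p, ?_⟩
    rw [um_mul, Matrix.mul_assoc, hp, ← Matrix.mul_assoc, hu]
    rfl
  refine ⟨fun h => ?_, h1 a x⟩
  have h2 := h1 a⁻¹ _ h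
  rwa [rmulE_mul, mul_inv_cancel, rmulE_one] at h2

theorem tld_rmul (hq : QuadDatum σ δ d) (hH : IsSkew σ H) {x₀ : Matrix (Fin N) (Fin m) E}
    (h00 : hf σ H x₀ x₀ = 0) (hl : ∃ l : Matrix (Fin m) (Fin N) E, l * x₀ = 1)
    {Φ : unitary σ H → ℂ} (hΦ : Φ ∈ QF σ H x₀) (a : GL (Fin m) E) (x : Fin N → Fin m → E) :
    ((ad a ^ (N - m) : ℝ) : ℂ) * tld x₀ Φ (rmulE N a x) = tld x₀ Φ x := by
  by_cases h : Orb σ H x₀ (Matrix.of x)
  · obtain ⟨u, hu⟩ := h
    obtain ⟨p, hp⟩ := orb_mul hq hH x₀ h00 hl a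
    have h1 : umat (u * p) * x₀ = Matrix.of (rmulE N a x) := by
      rw [um_mul, Matrix.mul_assoc, hp, ← Matrix.mul_assoc, hu]
      rfl
    rw [tld_eq hΦ u hu, tld_eq hΦ _ h1, _root_.mul_inv_rev]
    have h2 := hΦ.1 p (p⁻¹ * u⁻¹) a hp
    rw [mul_inv_cancel_left] at h2
    exact h2.symm
  · rw [tld_not h, tld_not (mt (orb_rmul_iff hq hH h00 hl a x).1 h), mul_zero]

theorem tld_translate {x₀ : Matrix (Fin N) (Fin m) E}
    {Φ Φ' : unitary σ H → ℂ} (hΦ : Φ ∈ QF σ H x₀) (hΦ' : Φ' ∈ QF σ H x₀) (g : unitary σ H)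
    (h : ∀ u, Φ' u = Φ (u * g)) (x : Fin N → Fin m → E) :
    tld x₀ Φ' x = tld x₀ Φ (lmulE ((g⁻¹ : unitary σ H) : GL (Fin N) E) m x) := by
  by_cases hx : Orb σ H x₀ (Matrix.of x)
  · obtain ⟨u, hu⟩ := hx
    have h1 : umat (g⁻¹ * u) * x₀ =
        Matrix.of (lmulE ((g⁻¹ : unitary σ H) : GL (Fin N) E) m x) := by
      rw [um_mul, Matrix.mul_assoc, hu]
      rfl
    rw [tld_eq hΦ' u hu, tld_eq hΦ _ h1, h, _root_.mul_inv_rev, inv_inv]
  · rw [tld_not hx, tld_not]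
    rintro ⟨u, hu⟩
    refine hx ⟨g * u, ?_⟩
    rw [um_mul, Matrix.mul_assoc, hu]
    show umat g * (umat g⁻¹ * Matrix.of x) = Matrix.of x
    rw [← Matrix.mul_assoc, um_inv', Matrix.one_mul]

theorem tld_loc (hq : QuadDatum σ δ d) (hH : IsSkew σ H) {x₀ : Matrix (Fin N) (Fin m) E}
    {Φ : unitary σ H → ℂ} (hΦ : Φ ∈ QF σ H x₀) {x : Fin N → Fin m → E}
    (hx : x ∈ frames N m E) (hx0 : qf σ H x = 0) :
    ∀ᶠ x' in 𝓝 x, qf σ H x' = 0 → tld x₀ Φ x' = tld x₀ Φ x := by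
  have hx0' : hf σ H (Matrix.of x) (Matrix.of x) = 0 := hx0
  have h1 : {k : unitary σ H | ∀ u, Φ (u * k⁻¹) = Φ u} ∈ 𝓝 (1 : unitary σ H) := by
    have h2 : Tendsto (fun k : unitary σ H => k⁻¹) (𝓝 1) (𝓝 1) := by
      have h3 := (continuous_inv (G := unitary σ H)).tendsto 1
      rwa [inv_one] at h3
    exact h2.eventually hΦ.2
  have h4 := exists_near hq hH (Matrix.of x) hx0' hx _ h1
  have h5 : ∀ᶠ x' in 𝓝 x, hf σ H (Matrix.of x') (Matrix.of x') = 0 →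
      ∃ k ∈ {k : unitary σ H | ∀ u, Φ (u * k⁻¹) = Φ u}, umat k * Matrix.of x = Matrix.of x' := h4
  filter_upwards [h5] with x' h6 hx'
  obtain ⟨k, hk, hkx⟩ := h6 hx'
  by_cases h : Orb σ H x₀ (Matrix.of x)
  · obtain ⟨u, hu⟩ := h
    have h7 : umat (k * u) * x₀ = Matrix.of x' := by
      rw [um_mul, Matrix.mul_assoc, hu, hkx]
    rw [tld_eq hΦ u hu, tld_eq hΦ _ h7, _root_.mul_inv_rev]
    exact hk _
  · rw [tld_not h, tld_not]
    rintro ⟨u, hu⟩
    refine h ⟨k⁻¹ * u, ?_⟩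
    rw [um_mul, Matrix.mul_assoc, hu, ← hkx, ← Matrix.mul_assoc, um_inv, Matrix.one_mul]

/-- The compact open sets of frames. -/
def IsCO (B : Set (Fin N → Fin m → E)) : Prop := IsOpen B ∧ IsCompact B ∧ B ⊆ frames N m E

theorem isClosed_qf (hq : QuadDatum σ δ d) : IsClosed {x : Fin N → Fin m → E | qf σ H x = 0} :=
  isClosed_eq (continuous_qf hq) continuous_const

theorem exists_fibX (hq : QuadDatum σ δ d) (hH : IsSkew σ H) (ν : Measure (Sk σ m))
    [ν.IsAddHaarMeasure] {x₀ : Matrix (Fin N) (Fin m) E}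
    {Φ : unitary σ H → ℂ} (hΦ : Φ ∈ QF σ H x₀) {B : Set (Fin N → Fin m → E)} (hB : IsCO B) :
    ∃ f v, IsTest f ∧ (∀ x, qf σ H x = 0 → f x = B.indicator (tld x₀ Φ) x) ∧
      (∀ x, f x = 0 ∨ ∃ z, f x = B.indicator (tld x₀ Φ) z) ∧ IsFib σ H ν f v := by
  obtain ⟨f, hf, hfg, hfv⟩ := exists_test (Z := {x : Fin N → Fin m → E | qf σ H x = 0})
    (B.indicator (tld x₀ Φ)) hB.2.1 (isClosed_qf hq) hB.2.2
    (fun x _ hxB => Set.indicator_of_notMem hxB _) (fun x hx hxB => by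
      filter_upwards [hB.1.mem_nhds hxB, tld_loc hq hH hΦ (hB.2.2 hxB) hx] with x' h1 h2 h3
      rw [Set.indicator_of_mem h1, Set.indicator_of_mem hxB, h2 h3])
  obtain ⟨v, hv⟩ := exists_fibV hq hH ν hf
  refine ⟨f, v, hf, hfg, fun x => ?_, hv⟩
  rcases hfv x with h | ⟨z, -, h⟩
  · exact Or.inl h
  · exact Or.inr ⟨z, h⟩

open Classical in
/-- The integral of `Φ` over the isotropic frames in `B`. -/
noncomputable def cB (σ : E ≃ₐ[F] E) (H : Matrix (Fin N) (Fin N) E) (ν : Measure (Sk σ m))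
    (g : (Fin N → Fin m → E) → ℂ) (B : Set (Fin N → Fin m → E)) : ℂ :=
  if h : ∃ v, IsFibX σ H ν (B.indicator g) v then h.choose else 0

theorem cB_spec (hq : QuadDatum σ δ d) (hH : IsSkew σ H) (ν : Measure (Sk σ m))
    [ν.IsAddHaarMeasure] {x₀ : Matrix (Fin N) (Fin m) E}
    {Φ : unitary σ H → ℂ} (hΦ : Φ ∈ QF σ H x₀) {B : Set (Fin N → Fin m → E)} (hB : IsCO B) :
    IsFibX σ H ν (B.indicator (tld x₀ Φ)) (cB σ H ν (tld x₀ Φ) B) := by
  obtain ⟨f, v, hf, hfg, -, hv⟩ := exists_fibX hq hH ν hΦ hB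
  have h : ∃ v, IsFibX σ H ν (B.indicator (tld x₀ Φ)) v := ⟨v, f, hf, hfg, hv⟩
  rw [cB, dif_pos h]
  exact h.choose_spec

theorem isCO_empty : IsCO (∅ : Set (Fin N → Fin m → E)) :=
  ⟨isOpen_empty, isCompact_empty, Set.empty_subset _⟩

theorem isCO_pre (a : GL (Fin m) E) {B : Set (Fin N → Fin m → E)} (hB : IsCO B) :
    IsCO {x | rmulE N a x ∈ B} := by
  refine ⟨hB.1.preimage (continuous_rmulE a), ?_, fun x hx => ?_⟩
  · have h1 : {x | rmulE N a x ∈ B} = rmulE N a⁻¹ '' B := by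
      ext x
      constructor
      · intro hx
        exact ⟨_, hx, by rw [rmulE_mul, mul_inv_cancel, rmulE_one]⟩
      · rintro ⟨y, hy, rfl⟩
        show rmulE N a (rmulE N a⁻¹ y) ∈ B
        rwa [rmulE_mul, inv_mul_cancel, rmulE_one]
    rw [h1]
    exact hB.2.1.image (continuous_rmulE a⁻¹)
  · have h2 := rmulE_mem_frames (hB.2.2 hx) a⁻¹
    rwa [rmulE_mul, mul_inv_cancel, rmulE_one] at h2

theorem isCO_preL (a : GL (Fin N) E) {B : Set (Fin N → Fin m → E)} (hB : IsCO B) :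
    IsCO {x | lmulE a m x ∈ B} := by
  refine ⟨hB.1.preimage (continuous_lmulE a), ?_, fun x hx => ?_⟩
  · have h1 : {x | lmulE a m x ∈ B} = lmulE a⁻¹ m '' B := by
      ext x
      constructor
      · intro hx
        exact ⟨_, hx, by rw [lmulE_mul, inv_mul_cancel, lmulE_one]⟩
      · rintro ⟨y, hy, rfl⟩
        show lmulE a m (lmulE a⁻¹ m y) ∈ B
        rwa [lmulE_mul, mul_inv_cancel, lmulE_one]
    rw [h1]
    exact hB.2.1.image (continuous_lmulE a⁻¹)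
  · have h2 := lmulE_mem_frames (hB.2.2 hx) a⁻¹
    rwa [lmulE_mul, inv_mul_cancel, lmulE_one] at h2

theorem cB_empty (hq : QuadDatum σ δ d) (hH : IsSkew σ H) (ν : Measure (Sk σ m))
    [ν.IsAddHaarMeasure] {x₀ : Matrix (Fin N) (Fin m) E}
    {Φ : unitary σ H → ℂ} (hΦ : Φ ∈ QF σ H x₀) : cB σ H ν (tld x₀ Φ) ∅ = 0 := by
  have h1 := cB_spec hq hH ν hΦ isCO_empty
  have h2 := h1.unique hq (h1.smul 0) fun x _ => by
    rw [Set.indicator_empty]
    simp
  rw [h2, zero_mul]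

theorem cB_cont (hq : QuadDatum σ δ d) (hH : IsSkew σ H) (ν : Measure (Sk σ m))
    [ν.IsAddHaarMeasure] {x₀ : Matrix (Fin N) (Fin m) E} (h00 : hf σ H x₀ x₀ = 0)
    (hl : ∃ l : Matrix (Fin m) (Fin N) E, l * x₀ = 1)
    {Φ : unitary σ H → ℂ} (hΦ : Φ ∈ QF σ H x₀) :
    IsCont (fun (x : Fin N → Fin m → E) (a : GL (Fin m) E) => rmulE N a x) IsCO
      (cB σ H ν (tld x₀ Φ)) where
  one := rmulE_one
  mul x a b := rmulE_mul a b x
  empty := cB_empty hq hH ν hΦ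
  add B₁ B₂ h1 h2 hd := by
    have h3 : IsCO (B₁ ∪ B₂) := ⟨h1.1.union h2.1, h1.2.1.union h2.2.1,
      Set.union_subset h1.2.2 h2.2.2⟩
    refine ⟨h3, (cB_spec hq hH ν hΦ h3).unique hq
      ((cB_spec hq hH ν hΦ h1).add hq (cB_spec hq hH ν hΦ h2)) fun x _ => ?_⟩
    rw [Set.indicator_union_of_disjoint hd]
  inter B₁ B₂ h1 h2 := ⟨h1.1.inter h2.1, h1.2.1.inter h2.2.1, fun x hx => h1.2.2 hx.1⟩
  pempty := isCO_empty
  pre a B hB := by
    refine ⟨isCO_pre a hB, ?_⟩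
    rcases B.eq_empty_or_nonempty with rfl | ⟨x, hx⟩
    · rfl
    have hmN : m ≤ N := le_of_frame (hB.2.2 hx)
    have h1 := ((cB_spec hq hH ν hΦ hB).rmul hq a).smul ((ad a ^ (N - m) : ℝ) : ℂ)
    have h2 := (cB_spec hq hH ν hΦ (isCO_pre a hB)).unique hq h1 fun x _ => by
      by_cases hx : rmulE N a x ∈ B
      · rw [Set.indicator_of_mem (show x ∈ {x | rmulE N a x ∈ B} from hx),
          Set.indicator_of_mem hx, tld_rmul hq hH h00 hl hΦ]
      · rw [Set.indicator_of_notMem (show x ∉ {x | rmulE N a x ∈ B} from hx),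
          Set.indicator_of_notMem hx, mul_zero]
    have h3 : ad a ^ (N - m) * ((ad a ^ N)⁻¹ * ad a ^ m) = 1 := by
      have h4 : ad a ^ N ≠ 0 := (pow_pos (ad_pos a) N).ne'
      have h5 : ad a ^ (N - m) * ad a ^ m = ad a ^ N := by
        rw [← pow_add, Nat.sub_add_cancel hmN]
      calc ad a ^ (N - m) * ((ad a ^ N)⁻¹ * ad a ^ m)
          = (ad a ^ (N - m) * ad a ^ m) * (ad a ^ N)⁻¹ := by ring
        _ = 1 := by rw [h5, mul_inv_cancel₀ h4]
    show cB σ H ν (tld x₀ Φ) {x | rmulE N a x ∈ B} = cB σ H ν (tld x₀ Φ) B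
    rw [h2, ← mul_assoc, ← Complex.ofReal_mul, h3, Complex.ofReal_one, one_mul]

theorem isCO_prim : IsCO (prim N m E) := ⟨prim_isOpen, prim_isCompact, prim_frames⟩

theorem isDom_prim (g : GL (Fin N) E) :
    IsDom (fun (x : Fin N → Fin m → E) (a : GL (Fin m) E) => rmulE N a x) IsCO
      (glK (Fin m) E 1 zero_le_one le_rfl) {x | lmulE g m x ∈ prim N m E} where
  good := isCO_preL g isCO_prim
  inv x hx a ha := by
    show lmulE g m (rmulE N a x) ∈ prim N m E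
    rw [lmulE_rmulE]
    exact prim_inv hx ha
  uniq x hx a hxa := by
    have h1 : lmulE g m (rmulE N a x) ∈ prim N m E := hxa
    rw [lmulE_rmulE] at h1
    exact prim_uniq hx h1

theorem exists_cover (g : GL (Fin N) E) {B : Set (Fin N → Fin m → E)} (hB : IsCO B) :
    ∃ R : Finset (GL (Fin m) E), ∀ x ∈ B, ∃ a ∈ R,
      rmulE N a x ∈ {x | lmulE g m x ∈ prim N m E} := by
  classical
  obtain ⟨R, hR⟩ := hB.2.1.elim_finite_subcover
    (fun a : GL (Fin m) E => {x | rmulE N a x ∈ {x | lmulE g m x ∈ prim N m E}})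
    (fun a => (isCO_pre a (isCO_preL g isCO_prim)).1) (fun x hx => by
      obtain ⟨a, ha⟩ := prim_exists (lmulE_mem_frames (hB.2.2 hx) g)
      refine Set.mem_iUnion.2 ⟨a, ?_⟩
      show lmulE g m (rmulE N a x) ∈ prim N m E
      rwa [lmulE_rmulE])
  refine ⟨R, fun x hx => ?_⟩
  obtain ⟨a, ha⟩ := Set.mem_iUnion.1 (hR hx)
  obtain ⟨ha1, ha2⟩ := Set.mem_iUnion.1 ha
  exact ⟨a, ha1, ha2⟩

theorem cB_swap (hq : QuadDatum σ δ d) (hH : IsSkew σ H) (ν : Measure (Sk σ m))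
    [ν.IsAddHaarMeasure] {x₀ : Matrix (Fin N) (Fin m) E} (h00 : hf σ H x₀ x₀ = 0)
    (hl : ∃ l : Matrix (Fin m) (Fin N) E, l * x₀ = 1)
    {Φ : unitary σ H → ℂ} (hΦ : Φ ∈ QF σ H x₀) (g : GL (Fin N) E) :
    cB σ H ν (tld x₀ Φ) {x | lmulE g m x ∈ prim N m E} = cB σ H ν (tld x₀ Φ) (prim N m E) := by
  let _ : MeasurableSpace (GL (Fin m) E) := borel _
  have : BorelSpace (GL (Fin m) E) := ⟨rfl⟩
  have hinv := gl_haar_inv (K := E) (n := Fin m) haar
  have hD := isDom_prim (m := m) g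
  have hD1 := isDom_prim (N := N) (m := m) (1 : GL (Fin N) E)
  have h1 : {x | lmulE (1 : GL (Fin N) E) m x ∈ prim N m E} = prim N m E := by
    ext x
    show lmulE (1 : GL (Fin N) E) m x ∈ prim N m E ↔ x ∈ prim N m E
    rw [lmulE_one]
  have hopen : IsOpen ((glK (Fin m) E 1 zero_le_one le_rfl : Subgroup (GL (Fin m) E)) :
      Set (GL (Fin m) E)) := glK_isOpen zero_lt_one le_rfl
  have hcomp : IsCompact ((glK (Fin m) E 1 zero_le_one le_rfl : Subgroup (GL (Fin m) E)) :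
      Set (GL (Fin m) E)) := glK_isCompact zero_lt_one le_rfl
  obtain ⟨R₀, hR₀⟩ := exists_cover (N := N) (m := m) g (isCO_preL (1 : GL (Fin N) E) isCO_prim)
  obtain ⟨R₁, hR₁⟩ := exists_cover (N := N) (m := m) (1 : GL (Fin N) E)
    (isCO_preL (m := m) g isCO_prim)
  have h2 := (cB_cont hq hH ν h00 hl hΦ).swap haar _ hopen
    (hopen.measure_pos haar ⟨1, Subgroup.one_mem _⟩).ne' hcomp.measure_lt_top.ne hD hD1 R₀ hR₀
    R₁ hR₁
  rw [h2, h1]

/-- **The invariant integral on `QF`.** -/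
theorem exists_qint (hq : QuadDatum σ δ d) (hH : IsSkew σ H) (x₀ : Matrix (Fin N) (Fin m) E)
    (h00 : hf σ H x₀ x₀ = 0) (hl : ∃ l : Matrix (Fin m) (Fin N) E, l * x₀ = 1) :
    ∃ I : QF σ H x₀ →ₗ[ℂ] ℂ,
      (∀ (g : unitary σ H) (Φ Φ' : QF σ H x₀),
        (∀ u, (Φ' : unitary σ H → ℂ) u = (Φ : unitary σ H → ℂ) (u * g)) → I Φ' = I Φ) ∧
      (∀ Φ : QF σ H x₀, (∀ u, ∃ r : ℝ, 0 ≤ r ∧ (Φ : unitary σ H → ℂ) u = r) → Φ ≠ 0 →
        I Φ ≠ 0) := by
  have hlc := locallyCompact_Sk (m := m) hq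
  set ν : Measure (Sk σ m) := addHaar with hν
  refine ⟨{ toFun := fun Φ => cB σ H ν (tld x₀ (Φ : unitary σ H → ℂ)) (prim N m E)
            map_add' := fun Φ Ψ => ?_
            map_smul' := fun c Φ => ?_ }, ?_, ?_⟩
  · refine (cB_spec hq hH ν (Φ + Ψ).2 isCO_prim).unique hq
      ((cB_spec hq hH ν Φ.2 isCO_prim).add hq (cB_spec hq hH ν Ψ.2 isCO_prim)) fun x _ => ?_
    by_cases hx : x ∈ prim N m E
    · rw [Set.indicator_of_mem hx, Set.indicator_of_mem hx, Set.indicator_of_mem hx]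
      exact tld_add _ _ _
    · rw [Set.indicator_of_notMem hx, Set.indicator_of_notMem hx, Set.indicator_of_notMem hx,
        add_zero]
  · refine (cB_spec hq hH ν (c • Φ).2 isCO_prim).unique hq
      ((cB_spec hq hH ν Φ.2 isCO_prim).smul c) fun x _ => ?_
    by_cases hx : x ∈ prim N m E
    · rw [Set.indicator_of_mem hx, Set.indicator_of_mem hx]
      exact tld_smul _ _ _
    · rw [Set.indicator_of_notMem hx, Set.indicator_of_notMem hx, mul_zero]
  · intro g Φ Φ' h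
    show cB σ H ν (tld x₀ (Φ' : unitary σ H → ℂ)) (prim N m E) =
      cB σ H ν (tld x₀ (Φ : unitary σ H → ℂ)) (prim N m E)
    rw [← cB_swap hq hH ν h00 hl Φ.2 (g : GL (Fin N) E)]
    refine (cB_spec hq hH ν Φ'.2 isCO_prim).unique hq ((cB_spec hq hH ν Φ.2
      (isCO_preL (g : GL (Fin N) E) isCO_prim)).unitary hq hH g⁻¹) fun x _ => ?_
    have h1 : lmulE (g : GL (Fin N) E) m (lmulE ((g⁻¹ : unitary σ H) : GL (Fin N) E) m x) = x := by
      rw [lmulE_mul]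
      have h2 : (g : GL (Fin N) E) * ((g⁻¹ : unitary σ H) : GL (Fin N) E) = 1 :=
        mul_inv_cancel (g : GL (Fin N) E)
      rw [h2, lmulE_one]
    by_cases hx : x ∈ prim N m E
    · rw [Set.indicator_of_mem hx, Set.indicator_of_mem (by
        show lmulE (g : GL (Fin N) E) m _ ∈ prim N m E
        rwa [h1])]
      exact tld_translate Φ.2 Φ'.2 g h x
    · rw [Set.indicator_of_notMem hx, Set.indicator_of_notMem (by
        show ¬ lmulE (g : GL (Fin N) E) m _ ∈ prim N m E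
        rwa [h1])]
  · intro Φ hp hne
    show cB σ H ν (tld x₀ (Φ : unitary σ H → ℂ)) (prim N m E) ≠ 0
    obtain ⟨f, v, hft, hfg, hfv, hv⟩ := exists_fibX hq hH ν Φ.2 (isCO_prim (N := N) (m := m))
    have h1 : IsFibX σ H ν ((prim N m E).indicator (tld x₀ (Φ : unitary σ H → ℂ))) v :=
      ⟨f, hft, hfg, hv⟩
    have h2 := (cB_spec hq hH ν Φ.2 isCO_prim).unique hq h1 fun x _ => rfl
    rw [h2]
    obtain ⟨u, hu⟩ : ∃ u, (Φ : unitary σ H → ℂ) u ≠ 0 := by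
      by_contra hcon
      push Not at hcon
      exact hne (Subtype.ext (funext hcon))
    set x : Fin N → Fin m → E := Matrix.of.symm (umat u⁻¹ * x₀) with hx
    have hxo : umat u⁻¹ * x₀ = Matrix.of x := rfl
    have hxf : x ∈ frames N m E := Orb.left_inv σ H (x₀ := x₀) ⟨u⁻¹, hxo⟩ hl
    obtain ⟨a, ha⟩ := prim_exists hxf
    have h3 := tld_rmul hq hH h00 hl Φ.2 a x
    rw [tld_eq Φ.2 u⁻¹ hxo, inv_inv] at h3
    have h4 : tld x₀ (Φ : unitary σ H → ℂ) (rmulE N a x) ≠ 0 := by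
      intro h5
      rw [h5, mul_zero] at h3
      exact hu h3.symm
    have h5 : qf σ H (rmulE N a x) = 0 := by
      have h6 : hf σ H (umat u⁻¹ * x₀) (umat u⁻¹ * x₀) = 0 := by
        rw [hf_unitary, h00]
      have h7 : qf σ H x = 0 := h6
      rw [qf_rmul, h7]
      show (a : Matrix (Fin m) (Fin m) E).transpose * (0 : Matrix (Fin m) (Fin m) E) *
        (a : Matrix (Fin m) (Fin m) E).map σ = 0
      rw [Matrix.mul_zero, Matrix.zero_mul]
    refine IsFib.ne_zero hq hH hft (fun y => ?_) h5 ?_ hv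
    · rcases hfv y with h6 | ⟨z, h6⟩
      · exact ⟨0, le_rfl, by rw [h6]; simp⟩
      · rw [h6]
        by_cases hz : z ∈ prim N m E
        · rw [Set.indicator_of_mem hz]
          by_cases hzo : Orb σ H x₀ (Matrix.of z)
          · obtain ⟨w, hw⟩ := hzo
            rw [tld_eq Φ.2 w hw]
            exact hp _
          · rw [tld_not hzo]
            exact ⟨0, le_rfl, by simp⟩
        · rw [Set.indicator_of_notMem hz]
          exact ⟨0, le_rfl, by simp⟩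
    · rw [hfg _ h5, Set.indicator_of_mem ha]
      exact h4

end

end SpW
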