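import Pool.Agent.Work.MP_3615d2_al.Clo.Closed
import Pool.Agent.Work.MP_3615d2_al.Clo.QInt

/-!
MP_3615d2_al, Part 1, module CLOSED: the closed functional in dimension `3m`.
-/

open MeasureTheory Filter Topology Matrix
open scoped TensorProduct

set_option linter.unusedSectionVars false
set_option linter.unusedVariables false

namespace SpW

open SpW.P1 SpW.Clo

variable {F E : Type} [NontriviallyNormedField F] [IsUltrametricDist F] [ProperSpace F]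
  [NontriviallyNormedField E] [NormedAlgebra F E] [IsUltrametricDist E] [ProperSpace E]
  [MeasurableSpace E] [BorelSpace E]
  {σ : E ≃ₐ[F] E} {δ : E} {d : F} {ψ : AddChar F Circle} {μ : Eˣ →* ℂˣ}
  {m : ℕ} {V W S S₀ : Type}
  [AddCommGroup V] [Module ℂ V] [AddCommGroup W] [Module ℂ W] [AddCommGroup S] [Module ℂ S]
  [AddCommGroup S₀] [Module ℂ S₀]

/-- **CLOSED.** `B` is any smooth representation of `GL_{2m}(E)` with a `P`-equivariant map `e₁` to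
`|det a|^{(m+1)/2} |det d|^{-(m+1)/2} π(a) ⊗ π(d)`. -/
theorem exists_closed (hq : QuadDatum σ δ d) (hm : 0 < m) (hψ : Continuous ψ) (hψ1 : ψ ≠ 1)
    (hμ : ConjSymplectic F μ)
    {π : GL (Fin m) E →* Module.End ℂ V} (hπ : IsSmoothRep π) (hirr : IsIrrRep π) (hc : IsCusp π)
    (hu : UnitCentral π)
    {H₀ : Matrix (Fin m) (Fin m) E} (hH₀ : IsSkew σ H₀)
    {ρ₀ : (Fin m → E) → Module.End ℂ S₀} {ω₀ : unitary σ H₀ →* Module.End ℂ S₀}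
    (hW₀ : IsWeil σ H₀ ψ μ ρ₀ ω₀) (β₀ : V →ₗ[ℂ] S₀ →ₗ[ℂ] ℂ) (hβ₀ : InvForm σ H₀ π ω₀ β₀)
    (hβ₀0 : β₀ ≠ 0) {ρ : (Fin (3 * m) → E) → Module.End ℂ S}
    {ω : unitary σ (hyp3 (two_mul m).symm (m21 m) H₀) →* Module.End ℂ S}
    (hW : IsWeil σ (hyp3 (two_mul m).symm (m21 m) H₀) ψ μ ρ ω)
    {B : GL (Fin (2 * m)) E →* Module.End ℂ W} (hB : IsSmoothRep B) (e₁ : W →ₗ[ℂ] V ⊗[ℂ] V)
    (he₁ : ∀ a d y w, e₁ (B (pel a d y) w) = rho π (((m : ℝ) + 1) / 2) (a, d) (e₁ w)) :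
    ∃ βc : IndJ (m21 m) (rBK B (kap σ μ π)) →ₗ[ℂ] S →ₗ[ℂ] ℂ,
      InvForm σ (hyp3 (two_mul m).symm (m21 m) H₀)
        (indActJ (m21 m) (rBK B (kap σ μ π))) ω βc ∧
      ∀ D : Submodule ℂ W, IsStab B D → (∀ w : V ⊗[ℂ] V, ∃ f ∈ D, e₁ f = w) →
        ∃ (f : IndJ (m21 m) (rBK B (kap σ μ π))) (s : S),
          (∀ g, (f : GL (Fin (3 * m)) E → W ⊗[ℂ] V) g ∈
            LinearMap.range (TensorProduct.map D.subtype (LinearMap.id (M := V) (R := ℂ)))) ∧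
          βc f s ≠ 0 := by
  have hx := isFrame_x0 hq (isBlk_eps3 (two_mul m).symm (m21 m))
    (isSplit_hyp3 (two_mul m).symm (m21 m) hq H₀) hH₀.det_ne
  obtain ⟨I, hI, hpos⟩ := exists_qint hq (isSkew_hyp3 (two_mul m).symm (m21 m) hH₀)
    (x0 E (eps3 (two_mul m).symm (m21 m))) (hf_eq_zero hx.isot) (exists_left_inv_x0 _)
  refine exists_closed_of hq hψ hψ1 hμ hπ hirr hc hu hH₀ hW₀ β₀ hβ₀ hβ₀0 hW hB e₁ he₁
    (QF σ (hyp3 (two_mul m).symm (m21 m) H₀) (x0 E (eps3 (two_mul m).symm (m21 m))))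
    (fun Φ => ?_) I hI hpos
  rw [mem_QF, show 3 * m - m = 2 * m by omega]
  exact Iff.rfl

end SpW
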