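import Pool.Agent.Work.MP_3615d2_al.Co.IndAB

/-!
MP_3615d2_al, closed functional: the abstract part.  A form on the values which transforms under the
stabiliser of an isotropic subspace by the modulus gives an invariant form on the induced
representation, and it is nonzero on every stable part on which the form on the values is nonzero.
-/

open Matrix Filter Topology

set_option linter.unusedSectionVars false

namespace SpW.Clo

section adj

variable {F E : Type} [Field F] [Field E] [Algebra F E] {σ : E ≃ₐ[F] E} {N a b m : ℕ}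
  {H : Matrix (Fin N) (Fin N) E}

theorem sk_eq_dot (H : Matrix (Fin N) (Fin N) E) (x y : Fin N → E) :
    sk σ H x y = x ⬝ᵥ H *ᵥ (fun j => σ (y j)) := by
  unfold sk
  simp only [dotProduct, Matrix.mulVec, Finset.mul_sum, mul_assoc]

/-- The adjoint of `k` for the form. -/
noncomputable def kadj (σ : E ≃ₐ[F] E) (H k : Matrix (Fin N) (Fin N) E) :
    Matrix (Fin N) (Fin N) E :=
  H⁻¹.transpose * (k.map σ).transpose * H.transpose

theorem sig_mulVec (k : Matrix (Fin N) (Fin N) E) (y : Fin N → E) :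
    (fun j => σ ((k *ᵥ y) j)) = (k.map σ) *ᵥ (fun j => σ (y j)) := by
  funext j
  simp only [Matrix.mulVec, dotProduct, map_sum, map_mul, Matrix.map_apply]

theorem sk_kadj (hH : H.det ≠ 0) (k : Matrix (Fin N) (Fin N) E) (x y : Fin N → E) :
    sk σ H (kadj σ H k *ᵥ x) y = sk σ H x (k *ᵥ y) := by
  have hu : IsUnit H.det := isUnit_iff_ne_zero.2 hH
  rw [sk_eq_dot, sk_eq_dot, sig_mulVec, kadj, Matrix.dotProduct_mulVec, Matrix.dotProduct_mulVec,
    ← Matrix.vecMul_transpose, Matrix.vecMul_vecMul, Matrix.transpose_mul, Matrix.transpose_mul,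
    Matrix.transpose_transpose, Matrix.transpose_transpose, Matrix.transpose_transpose,
    Matrix.dotProduct_mulVec, Matrix.vecMul_vecMul, Matrix.mul_assoc, Matrix.mul_assoc,
    Matrix.nonsing_inv_mul _ hu, Matrix.mul_one]

theorem kadj_one (hH : H.det ≠ 0) : kadj σ H 1 = 1 := by
  have hu : IsUnit H.det := isUnit_iff_ne_zero.2 hH
  have h1 : (1 : Matrix (Fin N) (Fin N) E).map σ = 1 :=
    Matrix.map_one _ (map_zero σ) (map_one σ)
  rw [kadj, h1, Matrix.transpose_one, Matrix.mul_one, ← Matrix.transpose_mul,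
    Matrix.mul_nonsing_inv _ hu, Matrix.transpose_one]

/-- The geometric hypotheses on the isotropic frame `x0`: its columns are orthogonal to the span
`Y` of the first `a` basis vectors, every vector orthogonal to `Y` is a combination of its columns,
and the columns are independent. -/
structure IsFrame (σ : E ≃ₐ[F] E) (H : Matrix (Fin N) (Fin N) E) (h : a + b = N)
    (x0 : Matrix (Fin N) (Fin m) E) : Prop where
  perp : ∀ (v : Fin m → E) (y : Fin N → E), (∀ i, y (sJ h (Sum.inr i)) = 0) →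
    sk σ H (x0 *ᵥ v) y = 0
  span : ∀ z : Fin N → E, (∀ y : Fin N → E, (∀ i, y (sJ h (Sum.inr i)) = 0) → sk σ H z y = 0) →
    ∃ v : Fin m → E, z = x0 *ᵥ v
  inj : ∀ v : Fin m → E, x0 *ᵥ v = 0 → v = 0
  isot : ∀ v v' : Fin m → E, sk σ H (x0 *ᵥ v) (x0 *ᵥ v') = 0

end adj

section core

variable {F E : Type} [NontriviallyNormedField F] [NontriviallyNormedField E] [NormedAlgebra F E]
  [IsUltrametricDist E] [ProperSpace E] [MeasurableSpace E] [BorelSpace E]
  {σ : E ≃ₐ[F] E} {N a b m : ℕ} {H : Matrix (Fin N) (Fin N) E}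
  {x0 : Matrix (Fin N) (Fin m) E} {W S : Type} [AddCommGroup W] [Module ℂ W] [AddCommGroup S]
  [Module ℂ S]

/-- The functions on `U` on which the invariant functional is defined. -/
def IsQF (σ : E ≃ₐ[F] E) (H : Matrix (Fin N) (Fin N) E) (x0 : Matrix (Fin N) (Fin m) E) (n : ℕ)
    (Φ : unitary σ H → ℂ) : Prop :=
  (∀ (p u : unitary σ H) (α : GL (Fin m) E), umat p * x0 = x0 * (α : Matrix (Fin m) (Fin m) E) →
    Φ (p * u) = ((ad α ^ n : ℝ) : ℂ) * Φ u) ∧
  ∀ᶠ k in 𝓝 (1 : unitary σ H), ∀ u, Φ (u * k) = Φ u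

/-- The condition on a form `c` on the values. -/
def IsFibre (h : a + b = N) (x0 : Matrix (Fin N) (Fin m) E) (n : ℕ)
    (ρ : (GL (Fin a) E × GL (Fin b) E) →* Module.End ℂ W)
    (ω : unitary σ H →* Module.End ℂ S) (c : W →ₗ[ℂ] S →ₗ[ℂ] ℂ) : Prop :=
  ∀ (p : unitary σ H) (α : GL (Fin m) E), umat p * x0 = x0 * (α : Matrix (Fin m) (Fin m) E) →
    ∃ p' q' y, (p : GL (Fin N) E) = pelJ h p' q' y ∧
      ∀ w s, c (ρ (p', q') w) (ω p s) = ((ad α ^ n : ℝ) : ℂ) * c w s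

theorem isQF_of_fibre {h : a + b = N} {n : ℕ}
    {ρ : (GL (Fin a) E × GL (Fin b) E) →* Module.End ℂ W}
    {ω : unitary σ H →* Module.End ℂ S} {c : W →ₗ[ℂ] S →ₗ[ℂ] ℂ}
    (hω : ∀ s, ∀ᶠ g in 𝓝 (1 : unitary σ H), ω g s = s)
    (hc : IsFibre h x0 n ρ ω c) (f : IndJ h ρ) (s : S) :
    IsQF σ H x0 n (fun u => c ((f : GL (Fin N) E → W) (u : GL (Fin N) E)) (ω u s)) := by
  refine ⟨fun p u α hp => ?_, ?_⟩
  · obtain ⟨p', q', y, e, h1⟩ := hc p α hp
    show c ((f : GL (Fin N) E → W) ((p * u : unitary σ H) : GL (Fin N) E)) (ω (p * u) s) = _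
    rw [Subgroup.coe_mul, e, f.2.1, map_mul, Module.End.mul_apply, h1]
  · have h1 : Tendsto (fun k : unitary σ H => (k : GL (Fin N) E)) (𝓝 1) (𝓝 1) := by
      have := (continuous_subtype_val (p := fun x => x ∈ unitary σ H)).tendsto 1
      exact this
    filter_upwards [h1.eventually f.2.2, hω s] with k hk hk' u
    show c ((f : GL (Fin N) E → W) ((u * k : unitary σ H) : GL (Fin N) E)) (ω (u * k) s) = _
    rw [Subgroup.coe_mul, hk, map_mul, Module.End.mul_apply, hk']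

/-- The invariant form attached to a form on the values. -/
theorem exists_form {h : a + b = N} {n : ℕ}
    {ρ : (GL (Fin a) E × GL (Fin b) E) →* Module.End ℂ W}
    {ω : unitary σ H →* Module.End ℂ S} {c : W →ₗ[ℂ] S →ₗ[ℂ] ℂ}
    (hω : ∀ s, ∀ᶠ g in 𝓝 (1 : unitary σ H), ω g s = s)
    (hc : IsFibre h x0 n ρ ω c)
    (Q : Submodule ℂ (unitary σ H → ℂ)) (hQ : ∀ Φ, Φ ∈ Q ↔ IsQF σ H x0 n Φ) (I : Q →ₗ[ℂ] ℂ)
    (hI : ∀ (g : unitary σ H) (Φ Φ' : Q), (∀ u, (Φ' : unitary σ H → ℂ) u =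
      (Φ : unitary σ H → ℂ) (u * g)) → I Φ' = I Φ) :
    ∃ β : IndJ h ρ →ₗ[ℂ] S →ₗ[ℂ] ℂ,
      (∀ (g : unitary σ H) (f : IndJ h ρ) s,
        β (indActJ h ρ (g : GL (Fin N) E) f) (ω g s) = β f s) ∧
      ∀ (f : IndJ h ρ) s, ∃ Φ : Q, (∀ u : unitary σ H, (Φ : unitary σ H → ℂ) u =
        c ((f : GL (Fin N) E → W) (u : GL (Fin N) E)) (ω u s)) ∧ β f s = I Φ := by
  let φ : IndJ h ρ → S → Q := fun f s =>
    ⟨fun u => c ((f : GL (Fin N) E → W) (u : GL (Fin N) E)) (ω u s),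
      (hQ _).2 (isQF_of_fibre hω hc f s)⟩
  have hφ : ∀ f s (u : unitary σ H), ((φ f s : Q) : unitary σ H → ℂ) u =
      c ((f : GL (Fin N) E → W) (u : GL (Fin N) E)) (ω u s) := fun _ _ _ => rfl
  refine ⟨LinearMap.mk₂ ℂ (fun f s => I (φ f s)) ?_ ?_ ?_ ?_, ?_, ?_⟩
  · intro f f' s
    rw [← map_add]
    refine congrArg I (Subtype.ext (funext fun u => ?_))
    show c ((f : GL (Fin N) E → W) u + (f' : GL (Fin N) E → W) u) (ω u s) = _
    rw [map_add]
    rfl
  · intro z f s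
    rw [← map_smul]
    refine congrArg I (Subtype.ext (funext fun u => ?_))
    show c (z • (f : GL (Fin N) E → W) u) (ω u s) = _
    rw [map_smul]
    rfl
  · intro f s s'
    rw [← map_add]
    refine congrArg I (Subtype.ext (funext fun u => ?_))
    show c ((f : GL (Fin N) E → W) u) (ω u (s + s')) = _
    rw [map_add, map_add]
    rfl
  · intro z f s
    rw [← map_smul]
    refine congrArg I (Subtype.ext (funext fun u => ?_))
    show c ((f : GL (Fin N) E → W) u) (ω u (z • s)) = _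
    rw [map_smul, map_smul]
    rfl
  · intro g f s
    refine hI g _ _ fun u => ?_
    show c ((f : GL (Fin N) E → W) ((u : GL (Fin N) E) * g)) (ω u (ω g s)) =
      c ((f : GL (Fin N) E → W) ((u * g : unitary σ H) : GL (Fin N) E)) (ω (u * g) s)
    rw [Subgroup.coe_mul, map_mul, Module.End.mul_apply]
  · intro f s
    exact ⟨φ f s, hφ f s, rfl⟩

/-- The moved frame. -/
noncomputable def mvf (σ : E ≃ₐ[F] E) (H : Matrix (Fin N) (Fin N) E)
    (x0 : Matrix (Fin N) (Fin m) E) (k : GL (Fin N) E) : Matrix (Fin N) (Fin m) E :=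
  kadj σ H (k : Matrix (Fin N) (Fin N) E) * x0

theorem pelJ_preserves {h : a + b = N} {p : GL (Fin N) E} (hp : p ∈ PSJ h E) {y : Fin N → E}
    (hy : ∀ i, y (sJ h (Sum.inr i)) = 0) (i : Fin b) :
    ((p : Matrix (Fin N) (Fin N) E) *ᵥ y) (sJ h (Sum.inr i)) = 0 := by
  obtain ⟨p', q', y', rfl⟩ := hp
  rw [pelJ_val]
  show ∑ j, bmJ h _ _ _ _ (sJ h (Sum.inr i)) j * y j = 0
  rw [← (sJ h).sum_comp, Fintype.sum_sum_type]
  simp only [bmJ_apply, Matrix.fromBlocks_apply₂₁, Matrix.fromBlocks_apply₂₂, hy,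
    Matrix.zero_apply, zero_mul, mul_zero, Finset.sum_const_zero, add_zero]

/-- The main geometric fact: if `u = p k` with `p` in `P` then `u` maps the moved frame of `k` to
the span of `x0`. -/
theorem mvf_frame {h : a + b = N} (hx : IsFrame σ H h x0) (hH : H.det ≠ 0)
    (u : unitary σ H) (p k : GL (Fin N) E) (hp : p ∈ PSJ h E) (e : (u : GL (Fin N) E) = p * k)
    (v : Fin m → E) : ∃ v', umat u *ᵥ (mvf σ H x0 k *ᵥ v) = x0 *ᵥ v' := by
  refine hx.span _ fun y hy => ?_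
  have h1 : sk σ H (umat u *ᵥ (mvf σ H x0 k *ᵥ v)) y =
      sk σ H (mvf σ H x0 k *ᵥ v) (umat u⁻¹ *ᵥ y) := by
    have := (u⁻¹ : unitary σ H).2 (umat u *ᵥ (mvf σ H x0 k *ᵥ v)) y
    have e1 : (((u⁻¹ : unitary σ H) : GL (Fin N) E) : Matrix (Fin N) (Fin N) E) *
        ((u : GL (Fin N) E) : Matrix (Fin N) (Fin N) E) = 1 := by
      rw [← Units.val_mul, ← Subgroup.coe_mul, inv_mul_cancel, Subgroup.coe_one, Units.val_one]
    rw [← this, Matrix.mulVec_mulVec, e1, Matrix.one_mulVec]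
  rw [h1, mvf, ← Matrix.mulVec_mulVec, sk_kadj hH, Matrix.mulVec_mulVec]
  have h2 : (k : Matrix (Fin N) (Fin N) E) * umat u⁻¹ =
      ((p⁻¹ : GL (Fin N) E) : Matrix (Fin N) (Fin N) E) := by
    show (k : Matrix (Fin N) (Fin N) E) *
      (((u⁻¹ : unitary σ H) : GL (Fin N) E) : Matrix (Fin N) (Fin N) E) = _
    rw [Subgroup.coe_inv, e, ← Units.val_mul, _root_.mul_inv_rev, mul_inv_cancel_left]
  rw [h2]
  exact hx.perp v _ (pelJ_preserves ((PSJ h E).inv_mem hp) hy)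

theorem continuous_mvf (hσ : Continuous σ) :
    Continuous fun k : GL (Fin N) E => mvf σ H x0 k := by
  unfold mvf kadj
  have h1 : Continuous fun k : GL (Fin N) E => ((k : Matrix (Fin N) (Fin N) E).map σ) :=
    (Units.continuous_val).matrix_map hσ
  exact ((continuous_const.matrix_mul h1.matrix_transpose).matrix_mul
    continuous_const).matrix_mul continuous_const

theorem mvf_one (hH : H.det ≠ 0) : mvf σ H x0 1 = x0 := by
  rw [mvf, Units.val_one, kadj_one hH, Matrix.one_mul]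

theorem sk_umat (u : unitary σ H) (x y : Fin N → E) :
    sk σ H (umat u *ᵥ x) (umat u *ᵥ y) = sk σ H x y := u.2 x y

/-- Elements of `U` near `P` are near the stabiliser of `x0`. -/
theorem exists_move {h : a + b = N} (hσ : Continuous σ) (hx : IsFrame σ H h x0) (hH : H.det ≠ 0)
    (hnear : ∀ K ∈ 𝓝 (1 : unitary σ H), ∀ᶠ x in 𝓝 x0,
      (∀ v v' : Fin m → E, sk σ H (x *ᵥ v) (x *ᵥ v') = 0) → ∃ k ∈ K, umat k * x0 = x)
    (K : Set (unitary σ H)) (hK : K ∈ 𝓝 (1 : unitary σ H)) :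
    ∀ᶠ k in 𝓝 (1 : GL (Fin N) E), ∀ (u : unitary σ H) (p : GL (Fin N) E), p ∈ PSJ h E →
      (u : GL (Fin N) E) = p * k → ∃ k₁ ∈ K, ∃ α : GL (Fin m) E,
        umat (u * k₁) * x0 = x0 * (α : Matrix (Fin m) (Fin m) E) := by
  have h1 : Tendsto (fun k : GL (Fin N) E => mvf σ H x0 k) (𝓝 1) (𝓝 x0) := by
    have := (continuous_mvf (H := H) (x0 := x0) hσ).tendsto 1
    rwa [mvf_one hH] at this
  filter_upwards [h1.eventually (hnear K hK)] with k hk u p hp e
  have h2 : ∀ v v' : Fin m → E, sk σ H (mvf σ H x0 k *ᵥ v) (mvf σ H x0 k *ᵥ v') = 0 := by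
    intro v v'
    obtain ⟨w, hw⟩ := mvf_frame hx hH u p k hp e v
    obtain ⟨w', hw'⟩ := mvf_frame hx hH u p k hp e v'
    rw [← sk_umat u, hw, hw']
    exact hx.isot w w'
  obtain ⟨k₁, hk₁, e1⟩ := hk h2
  refine ⟨k₁, hk₁, ?_⟩
  have h3 : ∀ v : Fin m → E, ∃ v', umat (u * k₁) *ᵥ (x0 *ᵥ v) = x0 *ᵥ v' := by
    intro v
    obtain ⟨w, hw⟩ := mvf_frame hx hH u p k hp e v
    refine ⟨w, ?_⟩
    have e5 : umat (u * k₁) = umat u * umat k₁ := rfl
    rw [← hw, ← e1, e5, ← Matrix.mulVec_mulVec, Matrix.mulVec_mulVec v (umat k₁) x0]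
  choose f hf using h3
  let A : Matrix (Fin m) (Fin m) E := Matrix.of fun i j => f (Pi.single j 1) i
  have hA : umat (u * k₁) * x0 = x0 * A := by
    refine Matrix.ext_col fun j => ?_
    have e2 := hf (Pi.single j 1)
    rw [Matrix.mulVec_mulVec, Matrix.mulVec_single_one] at e2
    rw [e2]
    funext i
    simp only [Matrix.col_apply, Matrix.mul_apply, Matrix.mulVec, dotProduct, A, Matrix.of_apply]
  have hdet : A.det ≠ 0 := by
    intro h0
    obtain ⟨v, hv, hv'⟩ := Matrix.exists_mulVec_eq_zero_iff.2 h0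
    refine hv (hx.inj v ?_)
    have e3 : umat (u * k₁) *ᵥ (x0 *ᵥ v) = 0 := by
      rw [Matrix.mulVec_mulVec, hA, ← Matrix.mulVec_mulVec, hv', Matrix.mulVec_zero]
    have e4 : (((u * k₁ : unitary σ H)⁻¹ : GL (Fin N) E) : Matrix (Fin N) (Fin N) E) *ᵥ
        (umat (u * k₁) *ᵥ (x0 *ᵥ v)) = x0 *ᵥ v := by
      rw [Matrix.mulVec_mulVec, ← Units.val_mul, inv_mul_cancel, Units.val_one, Matrix.one_mulVec]
    rw [← e4, e3, Matrix.mulVec_zero]
  exact ⟨Matrix.GeneralLinearGroup.mkOfDetNeZero A hdet, hA⟩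

/-- The invariant form is nonzero on the functions with values in a stable subspace on which the
form on the values is nonzero. -/
theorem form_ne {h : a + b = N} {n : ℕ} (hσ : Continuous σ) (hx : IsFrame σ H h x0)
    (hH : H.det ≠ 0)
    {ρ : (GL (Fin a) E × GL (Fin b) E) →* Module.End ℂ W} (hρ : IsSmoothRep ρ)
    {ω : unitary σ H →* Module.End ℂ S} {c : W →ₗ[ℂ] S →ₗ[ℂ] ℂ}
    (hω : ∀ s, ∀ᶠ g in 𝓝 (1 : unitary σ H), ω g s = s)
    (hc : IsFibre h x0 n ρ ω c)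
    (Q : Submodule ℂ (unitary σ H → ℂ)) (hQ : ∀ Φ, Φ ∈ Q ↔ IsQF σ H x0 n Φ) (I : Q →ₗ[ℂ] ℂ)
    (hpos : ∀ Φ : Q, (∀ u, ∃ r : ℝ, 0 ≤ r ∧ (Φ : unitary σ H → ℂ) u = (r : ℂ)) → Φ ≠ 0 →
      I Φ ≠ 0)
    (hnear : ∀ K ∈ 𝓝 (1 : unitary σ H), ∀ᶠ x in 𝓝 x0,
      (∀ v v' : Fin m → E, sk σ H (x *ᵥ v) (x *ᵥ v') = 0) → ∃ k ∈ K, umat k * x0 = x)
    (β : IndJ h ρ →ₗ[ℂ] S →ₗ[ℂ] ℂ)
    (hβ : ∀ (f : IndJ h ρ) s, ∃ Φ : Q, (∀ u : unitary σ H, (Φ : unitary σ H → ℂ) u =
        c ((f : GL (Fin N) E → W) (u : GL (Fin N) E)) (ω u s)) ∧ β f s = I Φ)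
    (D : Submodule ℂ W) (hD : ∀ p q, ∀ w ∈ D, ρ (p, q) w ∈ D) {w : W} (hw : w ∈ D) {s : S}
    (hws : c w s ≠ 0) :
    ∃ f : IndJ h ρ, (∀ g, (f : GL (Fin N) E → W) g ∈ D) ∧ ∃ s, β f s ≠ 0 := by
  -- normalisation
  obtain ⟨s, hs⟩ : ∃ s, c w s = 1 := ⟨(c w s)⁻¹ • s, by
    rw [map_smul, smul_eq_mul, inv_mul_cancel₀ hws]⟩
  -- the group `K₀` fixing `w`
  have h1 := tauJ_smooth (h := h) hρ w
  rw [nhds_subtype_eq_comap, Filter.eventually_comap] at h1
  obtain ⟨K₀, hK₀o, -, hK₀⟩ := gl_basis _ h1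
  have hw₀ : ∀ (p : PSJ h E), (p : GL (Fin N) E) ∈ K₀ → tauJ h ρ p w = w := fun p hp =>
    hK₀ hp p rfl
  -- the neighbourhood `K₁`
  have hcoe : Tendsto (fun k : unitary σ H => ((k⁻¹ : unitary σ H) : GL (Fin N) E)) (𝓝 1)
      (𝓝 1) := by
    have h2 : Continuous fun k : unitary σ H => ((k⁻¹ : unitary σ H) : GL (Fin N) E) :=
      continuous_subtype_val.comp continuous_inv
    have h3 := h2.tendsto 1
    rwa [inv_one, Subgroup.coe_one] at h3
  have hinv : Tendsto (fun k : unitary σ H => k⁻¹) (𝓝 1) (𝓝 1) := by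
    have h3 := (continuous_inv (G := unitary σ H)).tendsto 1
    rwa [inv_one] at h3
  have hK₁ : ∀ᶠ k in 𝓝 (1 : unitary σ H), ((k⁻¹ : unitary σ H) : GL (Fin N) E) ∈ K₀ ∧
      ω k⁻¹ s = s :=
    (hcoe.eventually (hK₀o.mem_nhds K₀.one_mem)).and (hinv.eventually (hω s))
  have h4 := exists_move (h := h) hσ hx hH hnear _ hK₁
  obtain ⟨K, hKo, -, hK⟩ := gl_basis _ (h4.and (hK₀o.mem_nhds K₀.one_mem))
  have hwf : w ∈ wfix (tauJ h ρ) K 1 := by
    intro p k hk e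
    rw [one_mul, inv_one, mul_one] at e
    refine hw₀ p ?_
    rw [e]
    exact (hK hk).2
  have hmem : bump (tauJ h ρ) K 1 w ∈ IndJ h ρ := by
    rw [← indS_eq_IndJ]
    exact bump_mem_indS hKo hwf
  have hval : ∀ (p : PSJ h E) (k : GL (Fin N) E), k ∈ K →
      bump (tauJ h ρ) K 1 w ((p : GL (Fin N) E) * k) = tauJ h ρ p w := by
    intro p k hk
    have := bump_apply hwf p hk
    rwa [mul_one] at this
  refine ⟨⟨_, hmem⟩, ?_, s, ?_⟩
  · intro g
    show bump (tauJ h ρ) K 1 w g ∈ D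
    by_cases hg : ∃ p : PSJ h E, ∃ k : GL (Fin N) E, k ∈ K ∧ g = p * 1 * k
    · obtain ⟨p, k, hk, rfl⟩ := hg
      rw [mul_one, hval p k hk]
      exact hD _ _ w hw
    · rw [bump_of_notMem hg]
      exact D.zero_mem
  · obtain ⟨Φ, hΦ, hβΦ⟩ := hβ ⟨_, hmem⟩ s
    rw [hβΦ]
    refine hpos Φ ?_ ?_
    · intro u
      by_cases hg : ∃ p : PSJ h E, ∃ k : GL (Fin N) E, k ∈ K ∧ (u : GL (Fin N) E) = p * 1 * k
      · obtain ⟨p, k, hk, e⟩ := hg
        rw [mul_one] at e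
        obtain ⟨k₁, ⟨hk₁, hk₁s⟩, α, hα⟩ := (hK hk).1 u p p.2 e
        refine ⟨ad α ^ n, pow_nonneg (ad_pos α).le n, ?_⟩
        have e1 : u = (u * k₁) * k₁⁻¹ := by group
        have h5 := ((hQ _).1 Φ.2).1 (u * k₁) k₁⁻¹ α hα
        rw [← e1] at h5
        rw [h5]
        suffices h6 : (Φ : unitary σ H → ℂ) k₁⁻¹ = 1 by rw [h6, mul_one]
        rw [hΦ, hk₁s]
        have h7 : bump (tauJ h ρ) K 1 w ((k₁⁻¹ : unitary σ H) : GL (Fin N) E) = w := by
          obtain ⟨p', q', y', e2, -⟩ := hc (u * k₁) α hα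
          have hp2 : (((u * k₁ : unitary σ H) : GL (Fin N) E))⁻¹ * p ∈ PSJ h E :=
            (PSJ h E).mul_mem ((PSJ h E).inv_mem ⟨p', q', y', e2⟩) p.2
          have e3 : ((k₁⁻¹ : unitary σ H) : GL (Fin N) E) =
              (((u * k₁ : unitary σ H) : GL (Fin N) E))⁻¹ * p * k := by
            rw [mul_assoc, ← e, Subgroup.coe_mul, Subgroup.coe_inv]
            group
          have e4 := hval ⟨_, hp2⟩ k hk
          have e5 : bump (tauJ h ρ) K 1 w ((k₁⁻¹ : unitary σ H) : GL (Fin N) E) =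
              tauJ h ρ ⟨_, hp2⟩ w := by
            rw [e3]
            exact e4
          rw [e5]
          refine hw₀ _ ?_
          show (((u * k₁ : unitary σ H) : GL (Fin N) E))⁻¹ * p ∈ K₀
          have e6 : (((u * k₁ : unitary σ H) : GL (Fin N) E))⁻¹ * p =
              ((k₁⁻¹ : unitary σ H) : GL (Fin N) E) * k⁻¹ := by
            rw [e3]
            group
          rw [e6]
          exact K₀.mul_mem hk₁ (K₀.inv_mem (hK hk).2)
        show c (bump (tauJ h ρ) K 1 w ((k₁⁻¹ : unitary σ H) : GL (Fin N) E)) s = 1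
        rw [h7, hs]
      · refine ⟨0, le_rfl, ?_⟩
        rw [hΦ]
        show c (bump (tauJ h ρ) K 1 w (u : GL (Fin N) E)) _ = _
        rw [bump_of_notMem hg, map_zero, LinearMap.zero_apply, Complex.ofReal_zero]
    · intro h0
      have h8 := hΦ 1
      rw [h0] at h8
      have h9 : bump (tauJ h ρ) K 1 w ((1 : unitary σ H) : GL (Fin N) E) = w := by
        have := hval 1 1 K.one_mem
        rw [map_one, Module.End.one_apply, Subgroup.coe_one, one_mul] at this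
        exact this
      have h10 : (0 : ℂ) = c (bump (tauJ h ρ) K 1 w ((1 : unitary σ H) : GL (Fin N) E))
        (ω 1 s) := h8
      rw [h9, map_one, Module.End.one_apply, hs] at h10
      exact zero_ne_one h10

end core

end SpW.Clo
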