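import Pool.Agent.Work.MP_3615d2_al.Clo.Lin
import Pool.Agent.Work.MP_3615d2_al.Mo.CartVol

/-!
MP_3615d2_al, the closed functional: the image of Haar measure under `q(x) = x^t H σ(x)`, near a
compact set of frames, is invariant under small translations.
-/

open MeasureTheory Measure Filter Topology Matrix
open scoped NNReal ENNReal Pointwise

set_option linter.unusedSectionVars false

namespace SpW

section alg

variable {F E : Type} [Field F] [Field E] [Algebra F E] {σ : E ≃ₐ[F] E} {N m : ℕ}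
  {H : Matrix (Fin N) (Fin N) E}

/-- `x^t H σ(x)`, for `x` in the space `E^{N m}`. -/
def qf (σ : E ≃ₐ[F] E) (H : Matrix (Fin N) (Fin N) E) (x : Fin N → Fin m → E) :
    Fin m → Fin m → E :=
  hf σ H (Matrix.of x) (Matrix.of x)

/-- The skew-Hermitian matrices. -/
def Sk (σ : E ≃ₐ[F] E) (m : ℕ) : AddSubgroup (Fin m → Fin m → E) where
  carrier := {s | ∀ i j, σ (s j i) = -s i j}
  add_mem' := by
    intro a b ha hb i j
    rw [Pi.add_apply, Pi.add_apply, Pi.add_apply, Pi.add_apply, map_add, ha i j, hb i j, neg_add]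
  zero_mem' := by
    intro i j
    simp
  neg_mem' := by
    intro a ha i j
    rw [Pi.neg_apply, Pi.neg_apply, Pi.neg_apply, Pi.neg_apply, map_neg, ha i j]

theorem mem_Sk {s : Fin m → Fin m → E} : s ∈ Sk σ m ↔ ∀ i j, σ (s j i) = -s i j := Iff.rfl

theorem mem_Sk_iff {s : Matrix (Fin m) (Fin m) E} :
    (s : Fin m → Fin m → E) ∈ Sk σ m ↔ (s.map σ).transpose = -s := by
  constructor
  · intro h
    ext i j
    exact h i j
  · intro h i j
    exact congrFun (congrFun h i) j

theorem qf_mem (hσ : ∀ x, σ (σ x) = x) (hH : IsSkew σ H) (x : Fin N → Fin m → E) :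
    qf σ H x ∈ Sk σ m := by
  have h1 := hf_skew σ H hσ hH (Matrix.of x) (Matrix.of x)
  refine mem_Sk_iff.2 ?_
  show ((hf σ H (Matrix.of x) (Matrix.of x)).map σ).transpose = -hf σ H (Matrix.of x) (Matrix.of x)
  nth_rewrite 2 [h1]
  rw [neg_neg]

theorem qf_add (z : Matrix (Fin N) (Fin N) E) (x : Fin N → Fin m → E) :
    qf σ (H + z) x = qf σ H x + qf σ z x := by
  show (Matrix.of x).transpose * (H + z) * (Matrix.of x).map σ =
    (Matrix.of x).transpose * H * (Matrix.of x).map σ +
      (Matrix.of x).transpose * z * (Matrix.of x).map σ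
  rw [Matrix.mul_add, Matrix.add_mul]

/-- A solution of `x^t (C - C^*) σ(x) = t`. -/
theorem exists_sol (hσ : ∀ x, σ (σ x) = x) (h2 : (2 : E) ≠ 0) (x : Matrix (Fin N) (Fin m) E)
    (l : Matrix (Fin m) (Fin N) E) (hl : l * x = 1) (t : Matrix (Fin m) (Fin m) E)
    (ht : (t.map σ).transpose = -t) (C : Matrix (Fin N) (Fin N) E)
    (hC : C = l.transpose * ((2 : E)⁻¹ • t) * l.map σ) : hf σ (C - cst σ C) x x = t := by
  have h1 : cst σ C = -C := by
    have h3 : cst σ C = (C.map σ).transpose := rfl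
    have h4 : (l.map σ).map σ = l := by
      ext i j
      exact hσ _
    have h5 : (((2 : E)⁻¹ • t).map σ).transpose = -((2 : E)⁻¹ • t) := by
      have h6 : (((2 : E)⁻¹ • t).map σ) = (2 : E)⁻¹ • t.map σ := by
        ext i j
        rw [Matrix.map_apply, Matrix.smul_apply, smul_eq_mul, map_mul, map_inv₀, map_ofNat,
          Matrix.smul_apply, Matrix.map_apply, smul_eq_mul]
      rw [h6, Matrix.transpose_smul, ht, smul_neg]
    rw [h3, hC, mapσ_mul, mapσ_mul, h4, Matrix.transpose_mul, Matrix.transpose_mul, h5,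
      Matrix.transpose_map, Matrix.transpose_transpose, Matrix.neg_mul, Matrix.mul_neg,
      ← Matrix.mul_assoc]
  have h2' : hf σ C x x = (2 : E)⁻¹ • t := by
    have h3 : x.transpose * l.transpose = 1 := by
      rw [← Matrix.transpose_mul, hl, Matrix.transpose_one]
    have h4 : l.map σ * x.map σ = 1 := by
      rw [← mapσ_mul, hl, mapσ_one]
    have h5 : hf σ C x x = (x.transpose * l.transpose) * ((2 : E)⁻¹ • t) * (l.map σ * x.map σ) := by
      rw [hf, hC]
      simp only [Matrix.mul_assoc]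
    rw [h5, h3, h4, Matrix.one_mul, Matrix.mul_one]
  rw [h1, sub_neg_eq_add]
  have h6 : hf σ (C + C) x x = hf σ C x x + hf σ C x x := by
    rw [hf, hf, Matrix.mul_add, Matrix.add_mul]
  rw [h6, h2', ← add_smul]
  have h7 : (2 : E)⁻¹ + (2 : E)⁻¹ = 1 := by
    field_simp
    norm_num
  rw [h7, one_smul]

end alg

section fib

variable {F E : Type} [NontriviallyNormedField F] [IsUltrametricDist F] [ProperSpace F]
  [NontriviallyNormedField E] [NormedAlgebra F E] [IsUltrametricDist E] [ProperSpace E]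
  [MeasurableSpace E] [BorelSpace E]
  {σ : E ≃ₐ[F] E} {δ : E} {d : F} {N m : ℕ} {H : Matrix (Fin N) (Fin N) E}

theorem qf_gram (k : GL (Fin N) E) (x : Fin N → Fin m → E) :
    qf σ (gram σ H (k : Matrix (Fin N) (Fin N) E)) x = qf σ H (lmulE k m x) := by
  show (Matrix.of x).transpose * ((k : Matrix (Fin N) (Fin N) E).transpose * H *
      (k : Matrix (Fin N) (Fin N) E).map σ) * (Matrix.of x).map σ =
    hf σ H ((k : Matrix (Fin N) (Fin N) E) * Matrix.of x) ((k : Matrix (Fin N) (Fin N) E) *
      Matrix.of x)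
  rw [hf, mapσ_mul, Matrix.transpose_mul]
  simp only [Matrix.mul_assoc]

/-- The product `A x`. -/
def lm (A : Matrix (Fin N) (Fin N) E) (x : Fin N → Fin m → E) : Fin N → Fin m → E :=
  A * Matrix.of x

theorem continuous_qf (hq : QuadDatum σ δ d) :
    Continuous (qf σ H : (Fin N → Fin m → E) → Fin m → Fin m → E) :=
  continuous_hf hq

/-- `x ↦ k x` preserves Haar measure for `k` in `GL_N(O)`. -/
theorem integral_lmul {ρ : ℝ} {h0 : 0 ≤ ρ} {h1 : ρ ≤ 1} {k : GL (Fin N) E}
    (hk : k ∈ glK (Fin N) E ρ h0 h1) (g : (Fin N → Fin m → E) → ℂ) :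
    ∫ x, g (lmulE k m x) ∂(addHaar : Measure (Fin N → Fin m → E)) =
      ∫ x, g x ∂(addHaar : Measure (Fin N → Fin m → E)) := by
  have h2 := integral_linearEquiv (addHaar : Measure (Fin N → Fin m → E)) (lmulE k m) g
  rw [h2, det_lmulE, md_pow]
  have h3 : md (k : Matrix (Fin N) (Fin N) E).det = 1 := by
    rw [← md_one (F := E)]
    refine md_eq_of_norm_eq ?_
    rw [Mo.norm_det_of_glK hk, norm_one]
  rw [h3, one_pow]
  simp

attribute [local instance] Matrix.normedAddCommGroup in
/-- The forms near `H` give the same integrals. -/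
theorem exists_form_inv (hq : QuadDatum σ δ d) (hH : IsSkew σ H)
    (f : (Fin N → Fin m → E) → ℂ) (hf' : IsLocallyConstant f) {K : Set (Fin N → Fin m → E)}
    (hK : IsCompact K) (h0 : ∀ x, x ∉ K → f x = 0) :
    ∃ η > 0, ∀ z : Matrix (Fin N) (Fin N) E, cst σ z = -z → (∀ i j, ‖z i j‖ ≤ η) →
      ∀ Φ : (Fin m → Fin m → E) → ℂ,
        ∫ x, Φ (qf σ (H + z) x) * f x ∂(addHaar : Measure (Fin N → Fin m → E)) =
          ∫ x, Φ (qf σ H x) * f x ∂(addHaar : Measure (Fin N → Fin m → E)) := by
  obtain ⟨ε, hε, hu⟩ := unif_locConst hf' hK h0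
  obtain ⟨R, hR, hKR⟩ : ∃ R > 0, ∀ x ∈ K, ‖x‖ ≤ R := by
    obtain ⟨R, hR⟩ := hK.isBounded.exists_norm_le
    exact ⟨max R 1, by positivity, fun x hx => (hR x hx).trans (le_max_left _ _)⟩
  have h2 : 0 < ‖(2 : E)‖ := norm_pos_iff.2 hq.two_E
  set ρ : ℝ := min (1 / 2) (min (‖(2 : E)‖ / 2) (ε / (2 * R))) with hρ
  have hρ0 : 0 < ρ := by
    rw [hρ]
    positivity
  have hρ1 : ρ ≤ 1 / 2 := min_le_left _ _
  have hρ2 : ρ ≤ ‖(2 : E)‖ / 2 := (min_le_right _ _).trans (min_le_left _ _)
  have hρ3 : ρ * R < ε := by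
    have h3 : ρ ≤ ε / (2 * R) := (min_le_right _ _).trans (min_le_right _ _)
    calc ρ * R ≤ ε / (2 * R) * R := mul_le_mul_of_nonneg_right h3 hR.le
      _ = ε / 2 := by field_simp
      _ < ε := by linarith
  -- entries
  have hent : ∀ (A : Matrix (Fin N) (Fin N) E) (c : ℝ), 0 ≤ c → (∀ i j, ‖A i j‖ ≤ c) →
      ∀ x : Fin N → Fin m → E, ‖lm A x‖ ≤ c * ‖x‖ := by
    intro A c hc hA x
    rw [pi_norm_le_iff_of_nonneg (mul_nonneg hc (norm_nonneg _))]
    intro i
    rw [pi_norm_le_iff_of_nonneg (mul_nonneg hc (norm_nonneg _))]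
    intro j
    exact mul_entry_le A (Matrix.of x) hc (norm_nonneg _) hA
      (fun i j => (norm_le_pi_norm (x i) j).trans (norm_le_pi_norm x i)) i j
  have hfk : ∀ k ∈ glK (Fin N) E ρ hρ0.le (hρ1.trans (by norm_num)), ∀ x : Fin N → Fin m → E,
      f (lmulE k m x) = f x := by
    intro k hk x
    by_cases hx : ‖x‖ ≤ R
    · refine hu _ _ ?_
      rw [dist_eq_norm]
      have h3 : lmulE k m x - x = lm ((k : Matrix (Fin N) (Fin N) E) - 1) x := by
        rw [lm, Matrix.sub_mul, Matrix.one_mul]
        rfl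
      rw [h3]
      refine (hent _ ρ hρ0.le hk.1 x).trans_lt ?_
      exact (mul_le_mul_of_nonneg_left hx hρ0.le).trans_lt hρ3
    · have h3 : x ∉ K := fun h => hx (hKR x h)
      have h4 : lmulE k m x ∉ K := by
        intro h
        apply hx
        have h5 : x = lm ((k⁻¹ : GL (Fin N) E) : Matrix (Fin N) (Fin N) E) (lmulE k m x) :=
          ((lmulE k m).symm_apply_apply x).symm
        rw [h5]
        refine (hent _ 1 zero_le_one (fun i j => glK_entry_inv hk i j) _).trans ?_
        rw [one_mul]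
        exact hKR _ h
      rw [h0 _ h3, h0 _ h4]
  set M : ℝ := ‖H⁻¹‖ + 1 with hM
  have hM0 : 0 < M := by positivity
  refine ⟨‖(2 : E)‖ / M * ρ, by positivity, fun z hz hzn Φ => ?_⟩
  have hu' : IsUnit H.det := isUnit_iff_ne_zero.2 hH.det_ne
  have hHs : cst σ H = -H := by
    ext i j
    show σ (H j i) = -H i j
    rw [hH.skew i j, map_neg, sig_sig hq]
  obtain ⟨k, hk, hkz⟩ := hensel hq hM0 hρ0.le (hρ1.trans (by norm_num)) hρ1 hρ2 H H⁻¹ z hHs
    (Matrix.mul_nonsing_inv H hu') (fun i j => by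
      refine (Matrix.norm_entry_le_entrywise_sup_norm H⁻¹).trans ?_
      rw [hM]
      linarith) hz hzn
  rw [← hkz, ← integral_lmul hk (fun x => Φ (qf σ H x) * f x)]
  refine integral_congr_ae (Filter.Eventually.of_forall fun x => ?_)
  show Φ (qf σ (gram σ H (k : Matrix (Fin N) (Fin N) E)) x) * f x =
    Φ (qf σ H (lmulE k m x)) * f (lmulE k m x)
  rw [hfk k hk x, qf_gram]

theorem cst_skew (hq : QuadDatum σ δ d) (C : Matrix (Fin N) (Fin N) E) :
    cst σ (C - cst σ C) = -(C - cst σ C) := by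
  rw [cst_sub, cst_cst hq, neg_sub]

attribute [local instance] Matrix.normedAddCommGroup in
/-- **Translation invariance.** -/
theorem fib_translate (hq : QuadDatum σ δ d) (hH : IsSkew σ H)
    (f : (Fin N → Fin m → E) → ℂ) (hf' : IsLocallyConstant f) {K : Set (Fin N → Fin m → E)}
    (hK : IsCompact K) (h0 : ∀ x, x ∉ K → f x = 0)
    (hl : ∀ x ∈ K, ∃ l : Matrix (Fin m) (Fin N) E, l * Matrix.of x = 1) :
    ∃ r > 0, ∀ t ∈ Sk σ m, (∀ i j, ‖t i j‖ ≤ r) → ∀ A : Set (Fin m → Fin m → E),
      MeasurableSet A →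
        ∫ x, A.indicator (fun _ => (1 : ℂ)) (qf σ H x - t) * f x
            ∂(addHaar : Measure (Fin N → Fin m → E)) =
          ∫ x, A.indicator (fun _ => (1 : ℂ)) (qf σ H x) * f x
            ∂(addHaar : Measure (Fin N → Fin m → E)) := by
  have hσ := sig_sig hq
  obtain ⟨η, hη, hinv⟩ := exists_form_inv (m := m) hq hH f hf' hK h0
  obtain ⟨B, hB, hleft⟩ := exists_bdd_left_inv K hK hl
  have h2 : 0 < ‖(2 : E)‖ := norm_pos_iff.2 hq.two_E
  set μ : Measure (Fin N → Fin m → E) := addHaar with hμ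
  set lam : Measure (Fin N → Fin N → E) := addHaar with hlam
  set CC : Set (Fin N → Fin N → E) := Metric.closedBall 0 η with hCC
  have hCCc : IsCompact CC := isCompact_closedBall _ _
  have hmem : ∀ C : Fin N → Fin N → E, C ∈ CC ↔ ∀ i j, ‖C i j‖ ≤ η := by
    intro C
    rw [hCC, mem_closedBall_zero_iff, pi_norm_le_iff_of_nonneg hη.le]
    exact forall_congr' fun i => pi_norm_le_iff_of_nonneg hη.le
  have hcpos : lam.real CC ≠ 0 :=
    (ENNReal.toReal_pos (Metric.measure_closedBall_pos _ _ hη).ne' hCCc.measure_lt_top.ne).ne'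
  -- the averaged kernel
  set G : (Fin N → Fin N → E) → (Fin N → Fin m → E) → (Fin m → Fin m → E) :=
    fun C x => qf σ H x + qf σ (Matrix.of C - cst σ (Matrix.of C)) x with hG
  have hσc := continuous_σ hq
  have hcst : Continuous fun C : Matrix (Fin N) (Fin N) E => cst σ C :=
    continuous_matrix fun i j => hσc.comp (continuous_id.matrix_elem j i)
  have hGc : Continuous fun p : (Fin N → Fin N → E) × (Fin N → Fin m → E) => G p.1 p.2 := by
    have h3 : Continuous fun p : (Matrix (Fin N) (Fin N) E) × (Matrix (Fin N) (Fin m) E) =>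
        p.2.transpose * (p.1 - cst σ p.1) * p.2.map σ :=
      (continuous_snd.matrix_transpose.matrix_mul
        (continuous_fst.sub (hcst.comp continuous_fst))).matrix_mul
          ((continuous_mapσ hq).comp continuous_snd)
    exact ((continuous_qf hq).comp continuous_snd).add h3
  have hJ : ∀ C ∈ CC, ∀ Φ : (Fin m → Fin m → E) → ℂ,
      ∫ x, Φ (G C x) * f x ∂μ = ∫ x, Φ (qf σ H x) * f x ∂μ := by
    intro C hC Φ
    rw [hmem] at hC
    have h3 := hinv (Matrix.of C - cst σ (Matrix.of C)) (cst_skew hq _) (fun i j => by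
      rw [Matrix.sub_apply, sub_eq_add_neg]
      refine (IsUltrametricDist.norm_add_le_max _ _).trans (max_le (hC i j) ?_)
      rw [norm_neg]
      show ‖σ (C j i)‖ ≤ η
      rw [sg_norm hq]
      exact hC j i) Φ
    rw [← h3]
    refine integral_congr_ae (Filter.Eventually.of_forall fun x => ?_)
    show Φ (G C x) * f x = Φ (qf σ (H + (Matrix.of C - cst σ (Matrix.of C))) x) * f x
    rw [qf_add]
  have hfm : Measurable f := hf'.continuous.measurable
  have hfi : Integrable f μ := by
    refine (Continuous.integrable_of_hasCompactSupport hf'.continuous ?_)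
    exact HasCompactSupport.intro hK h0
  set F : Set (Fin m → Fin m → E) → (Fin m → Fin m → E) → (Fin N → Fin N → E) →
      (Fin N → Fin m → E) → ℂ := fun A t C x =>
    CC.indicator (fun _ => (1 : ℂ)) C * (A.indicator (fun _ => (1 : ℂ)) (G C x - t) * f x) with hF
  have key : ∀ A : Set (Fin m → Fin m → E), MeasurableSet A → ∀ t : Fin m → Fin m → E,
      (lam.real CC : ℂ) * ∫ x, A.indicator (fun _ => (1 : ℂ)) (qf σ H x - t) * f x ∂μ =
        ∫ x, ∫ C, F A t C x ∂lam ∂μ := by
    intro A hA t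
    have hint : Integrable (Function.uncurry (F A t)) (lam.prod μ) := by
      have h3 : Integrable (fun p : (Fin N → Fin N → E) × (Fin N → Fin m → E) =>
          CC.indicator (fun _ => (1 : ℂ)) p.1 * f p.2) (lam.prod μ) := by
        refine Integrable.mul_prod ?_ hfi
        exact (integrable_indicator_iff hCCc.measurableSet).2
          (integrableOn_const hCCc.measure_lt_top.ne)
      refine h3.mono ?_ (Filter.Eventually.of_forall fun p => ?_)
      · have h4 : Measurable fun p : (Fin N → Fin N → E) × (Fin N → Fin m → E) =>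
            A.indicator (fun _ => (1 : ℂ)) (G p.1 p.2 - t) :=
          (measurable_const.indicator hA).comp (hGc.sub continuous_const).measurable
        have h5 : Measurable (Function.uncurry (F A t)) :=
          ((measurable_const.indicator hCCc.measurableSet).comp measurable_fst).mul
            (h4.mul (hfm.comp measurable_snd))
        exact h5.aestronglyMeasurable
      · show ‖CC.indicator (fun _ => (1 : ℂ)) p.1 * (A.indicator (fun _ => (1 : ℂ))
          (G p.1 p.2 - t) * f p.2)‖ ≤ ‖CC.indicator (fun _ => (1 : ℂ)) p.1 * f p.2‖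
        rw [norm_mul, norm_mul, norm_mul]
        refine mul_le_mul_of_nonneg_left ?_ (norm_nonneg _)
        refine mul_le_of_le_one_left (norm_nonneg _) ?_
        by_cases hp : G p.1 p.2 - t ∈ A
        · rw [Set.indicator_of_mem hp, norm_one]
        · rw [Set.indicator_of_notMem hp, norm_zero]
          exact zero_le_one
    rw [← integral_integral_swap hint]
    have h6 : ∀ C, ∫ x, F A t C x ∂μ = CC.indicator (fun _ => ∫ x, A.indicator (fun _ => (1 : ℂ))
        (qf σ H x - t) * f x ∂μ) C := by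
      intro C
      rw [hF]
      simp only
      rw [integral_const_mul]
      by_cases hC : C ∈ CC
      · rw [Set.indicator_of_mem hC, Set.indicator_of_mem hC, one_mul]
        exact hJ C hC (fun y => A.indicator (fun _ => (1 : ℂ)) (y - t))
      · rw [Set.indicator_of_notMem hC, Set.indicator_of_notMem hC, zero_mul]
    simp_rw [h6]
    rw [integral_indicator hCCc.measurableSet, setIntegral_const, Complex.real_smul]
  -- solutions
  refine ⟨η * ‖(2 : E)‖ / (B * B), by positivity, fun t ht htn A hA => ?_⟩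
  have h3 : (lam.real CC : ℂ) ≠ 0 := by exact_mod_cast hcpos
  apply mul_left_cancel₀ h3
  have h4 := key A hA 0
  simp only [sub_zero] at h4
  rw [key A hA t, h4]
  refine integral_congr_ae (Filter.Eventually.of_forall fun x => ?_)
  show ∫ C, F A t C x ∂lam = ∫ C, F A 0 C x ∂lam
  by_cases hx : f x = 0
  · rw [hF]
    simp only [hx, mul_zero]
  have hxK : x ∈ K := by
    by_contra h
    exact hx (h0 x h)
  obtain ⟨l, hlx, hlB⟩ := hleft x hxK
  set C₀ : Matrix (Fin N) (Fin N) E :=
    l.transpose * ((2 : E)⁻¹ • Matrix.of t) * l.map σ with hC₀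
  have hsol := exists_sol hσ hq.two_E (Matrix.of x) l hlx (Matrix.of t) (mem_Sk_iff.1 ht) C₀ hC₀
  have hC₀n : ∀ i j, ‖C₀ i j‖ ≤ η := by
    intro i j
    have h5 : ∀ i j, ‖((2 : E)⁻¹ • Matrix.of t) i j‖ ≤ η / (B * B) := by
      intro i j
      rw [Matrix.smul_apply, smul_eq_mul, norm_mul, norm_inv]
      rw [inv_mul_le_iff₀ h2]
      refine (htn i j).trans (le_of_eq ?_)
      ring
    have h6 := mul_entry_le (l.transpose) ((2 : E)⁻¹ • Matrix.of t) hB.le (by positivity)
      (fun i j => hlB j i) h5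
    have h7 := mul_entry_le (l.transpose * ((2 : E)⁻¹ • Matrix.of t)) (l.map σ) (by positivity) hB.le
      h6 (fun i j => by
        rw [Matrix.map_apply, sg_norm hq]
        exact hlB i j) i j
    refine h7.trans (le_of_eq ?_)
    field_simp
  set C₁ : Fin N → Fin N → E := C₀ with hC₁
  have hC₀m : C₁ ∈ CC := (hmem _).2 hC₀n
  rw [← integral_add_right_eq_self (fun C => F A t C x) C₁]
  refine integral_congr_ae (Filter.Eventually.of_forall fun C => ?_)
  show F A t (C + C₁) x = F A 0 C x
  have h8 : G (C + C₁) x = G C x + t := by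
    rw [hG]
    simp only
    have h9 : Matrix.of (C + C₁) - cst σ (Matrix.of (C + C₁)) =
        (Matrix.of C - cst σ (Matrix.of C)) + (C₀ - cst σ C₀) := by
      have h10 : Matrix.of (C + C₁) = Matrix.of C + C₀ := rfl
      rw [h10, cst_add]
      abel
    have h11 : qf σ (C₀ - cst σ C₀) x = t := hsol
    rw [h9, qf_add, h11, add_assoc]
  have h9 : CC.indicator (fun _ => (1 : ℂ)) (C + C₁) = CC.indicator (fun _ => (1 : ℂ)) C := by
    have h10 : (C + C₁ : Fin N → Fin N → E) ∈ CC ↔ C ∈ CC := by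
      have h11 : ∀ a b : Fin N → Fin N → E, a ∈ CC → b ∈ CC → a + b ∈ CC := by
        intro a b ha hb
        rw [hmem] at ha hb ⊢
        intro i j
        exact (IsUltrametricDist.norm_add_le_max _ _).trans (max_le (ha i j) (hb i j))
      constructor
      · intro h
        have h12 : -C₁ ∈ CC := by
          rw [hmem]
          intro i j
          rw [Pi.neg_apply, Pi.neg_apply, norm_neg]
          exact hC₀n i j
        have h13 := h11 _ _ h h12
        rwa [add_neg_cancel_right] at h13
      · intro h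
        exact h11 _ _ h hC₀m
    by_cases h : C ∈ CC
    · rw [Set.indicator_of_mem h, Set.indicator_of_mem (h10.2 h)]
    · rw [Set.indicator_of_notMem h, Set.indicator_of_notMem (fun h' => h (h10.1 h'))]
  rw [hF]
  simp only
  rw [h8, h9, add_sub_cancel_right, sub_zero]

end fib

end SpW
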