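import Pool.Agent.Work.MP_3615d2_al.Clo.SkVol

/-!
MP_3615d2_al, the closed functional: properties of the fibre integral: linearity, invariance under
`U(X)`, behaviour under `GL_m(E)`, support on the isotropic frames, positivity.
-/

open MeasureTheory Measure Filter Topology Matrix
open scoped NNReal ENNReal Pointwise

set_option linter.unusedSectionVars false

namespace SpW

section

variable {F E : Type} [NontriviallyNormedField F] [IsUltrametricDist F] [ProperSpace F]
  [NontriviallyNormedField E] [NormedAlgebra F E] [IsUltrametricDist E] [ProperSpace E]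
  [MeasurableSpace E] [BorelSpace E]
  {σ : E ≃ₐ[F] E} {δ : E} {d : F} {N m : ℕ} {H : Matrix (Fin N) (Fin N) E}

theorem IsFib.add (hq : QuadDatum σ δ d) {ν : Measure (Sk σ m)} {f g : (Fin N → Fin m → E) → ℂ}
    {v w : ℂ} (hf : IsTest f) (hg : IsTest g) (h : IsFib σ H ν f v) (h' : IsFib σ H ν g w) :
    IsFib σ H ν (fun x => f x + g x) (v + w) := by
  obtain ⟨r, hr, h⟩ := h
  obtain ⟨r', hr', h'⟩ := h'
  refine ⟨min r r', lt_min hr hr', fun L hL hLr => ?_⟩
  have h1 := h L hL fun s hs i j => (hLr s hs i j).trans (min_le_left _ _)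
  have h2 := h' L hL fun s hs i j => (hLr s hs i j).trans (min_le_right _ _)
  simp_rw [mul_add]
  rw [integral_add (integrable_chiS hq hf L hL) (integrable_chiS hq hg L hL), h1, h2, add_mul]

theorem IsFib.smul {ν : Measure (Sk σ m)} {f : (Fin N → Fin m → E) → ℂ}
    {v : ℂ} (c : ℂ) (h : IsFib σ H ν f v) : IsFib σ H ν (fun x => c * f x) (c * v) := by
  obtain ⟨r, hr, h⟩ := h
  refine ⟨r, hr, fun L hL hLr => ?_⟩
  simp_rw [mul_left_comm]
  rw [integral_const_mul, h L hL hLr, mul_assoc]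

theorem norm_det_unitary (hq : QuadDatum σ δ d) (hH : IsSkew σ H) (u : unitary σ H) :
    ‖(umat u).det‖ = 1 := by
  have h1 := (mem_unitary_iff σ H u.1).1 u.2
  have h2 := congrArg Matrix.det h1
  have h3 : ((umat u).map σ).det = σ (umat u).det :=
    (RingHom.map_det (σ : E →+* E) (umat u)).symm
  rw [hf, Matrix.det_mul, Matrix.det_mul, Matrix.det_transpose, h3] at h2
  have h4 : (umat u).det * σ (umat u).det = 1 := by
    have h5 : H.det * ((umat u).det * σ (umat u).det) = H.det * 1 := by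
      rw [mul_one, mul_left_comm, ← mul_assoc]
      exact h2
    exact mul_left_cancel₀ hH.det_ne h5
  have h6 := congrArg norm h4
  rw [norm_mul, sg_norm hq, norm_one] at h6
  nlinarith [norm_nonneg (umat u).det]

theorem qf_unitary (u : unitary σ H) (x : Fin N → Fin m → E) :
    qf σ H (lmulE (u : GL (Fin N) E) m x) = qf σ H x :=
  hf_unitary σ H u (Matrix.of x) (Matrix.of x)

/-- Invariance under `U(X)`. -/
theorem IsFib.unitary (hq : QuadDatum σ δ d) (hH : IsSkew σ H) {ν : Measure (Sk σ m)}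
    {f : (Fin N → Fin m → E) → ℂ} {v : ℂ} (u : unitary σ H) (h : IsFib σ H ν f v) :
    IsFib σ H ν (fun x => f (lmulE (u : GL (Fin N) E) m x)) v := by
  obtain ⟨r, hr, h⟩ := h
  refine ⟨r, hr, fun L hL hLr => ?_⟩
  rw [← h L hL hLr]
  have h2 := integral_linearEquiv (addHaar : Measure (Fin N → Fin m → E))
    (lmulE (u : GL (Fin N) E) m) (fun x => chiS (L : Set (Sk σ m)) (qf σ H x) * f x)
  have h3 : md (umat u).det = 1 := by
    rw [← md_one (F := E)]
    refine md_eq_of_norm_eq ?_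
    rw [norm_det_unitary hq hH, norm_one]
  rw [det_lmulE, md_pow, h3, one_pow] at h2
  simp only [NNReal.coe_one, Complex.ofReal_one, inv_one, one_mul] at h2
  rw [← h2]
  refine integral_congr_ae (Filter.Eventually.of_forall fun x => ?_)
  show chiS (L : Set (Sk σ m)) (qf σ H x) * f (lmulE (u : GL (Fin N) E) m x) =
    chiS (L : Set (Sk σ m)) (qf σ H (lmulE (u : GL (Fin N) E) m x)) *
      f (lmulE (u : GL (Fin N) E) m x)
  rw [qf_unitary]

/-- Behaviour under `GL_m(E)`. -/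
theorem IsFib.rmul (hq : QuadDatum σ δ d) {ν : Measure (Sk σ m)} [ν.IsAddHaarMeasure]
    {f : (Fin N → Fin m → E) → ℂ} {v : ℂ} (a : GL (Fin m) E) (h : IsFib σ H ν f v) :
    IsFib σ H ν (fun x => f (rmulE N a x)) (((ad a ^ N)⁻¹ * ad a ^ m : ℝ) * v) := by
  obtain ⟨r, hr, h⟩ := h
  -- a bound for the entries of `a`
  obtain ⟨A, hA, hAa⟩ : ∃ A : ℝ, 0 < A ∧ ∀ i j, ‖(a : Matrix (Fin m) (Fin m) E) i j‖ ≤ A := by
    refine ⟨1 + ∑ i, ∑ j, ‖(a : Matrix (Fin m) (Fin m) E) i j‖, by positivity, fun i j => ?_⟩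
    have h1 : ‖(a : Matrix (Fin m) (Fin m) E) i j‖ ≤
        ∑ j, ‖(a : Matrix (Fin m) (Fin m) E) i j‖ :=
      Finset.single_le_sum (f := fun j => ‖(a : Matrix (Fin m) (Fin m) E) i j‖)
        (fun _ _ => norm_nonneg _) (Finset.mem_univ j)
    have h2 : ∑ j, ‖(a : Matrix (Fin m) (Fin m) E) i j‖ ≤
        ∑ i, ∑ j, ‖(a : Matrix (Fin m) (Fin m) E) i j‖ :=
      Finset.single_le_sum (f := fun i => ∑ j, ‖(a : Matrix (Fin m) (Fin m) E) i j‖)
        (fun _ _ => Finset.sum_nonneg fun _ _ => norm_nonneg _) (Finset.mem_univ i)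
    linarith
  refine ⟨r / (A * A), by positivity, fun L hL hLr => ?_⟩
  set L' : AddSubgroup (Sk σ m) := L.map (skT (sig_sig hq) a).toAddMonoidHom with hL'
  have hL'c : (L' : Set (Sk σ m)) = skT (sig_sig hq) a '' (L : Set (Sk σ m)) := rfl
  have hσc := continuous_σ hq
  have hcont : ∀ b : GL (Fin m) E, Continuous fun s : Sk σ m => skT (sig_sig hq) b s := by
    intro b
    refine Continuous.subtype_mk ?_ _
    exact ((continuous_const.matrix_mul (continuous_subtype_val (p := fun s => s ∈ Sk σ m))).matrix_mul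
      continuous_const)
  have hL'o : IsOpen (L' : Set (Sk σ m)) := by
    have h1 : (L' : Set (Sk σ m)) = (fun s => skT (sig_sig hq) a⁻¹ s) ⁻¹' (L : Set (Sk σ m)) := by
      rw [hL'c]
      ext s
      constructor
      · rintro ⟨t, ht, rfl⟩
        have h2 : skT (sig_sig hq) a⁻¹ (skT (sig_sig hq) a t) = t :=
          (skT (sig_sig hq) a).symm_apply_apply t
        show skT (sig_sig hq) a⁻¹ (skT (sig_sig hq) a t) ∈ (L : Set (Sk σ m))
        rw [h2]
        exact ht
      · intro hs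
        exact ⟨_, hs, (skT (sig_sig hq) a).apply_symm_apply s⟩
    rw [h1]
    exact hL.preimage (hcont _)
  have hL'r : ∀ s ∈ L', ∀ i j, ‖(s : Fin m → Fin m → E) i j‖ ≤ r := by
    rintro _ ⟨t, ht, rfl⟩ i j
    have h1 := mul_entry_le ((a : Matrix (Fin m) (Fin m) E).transpose)
      (Matrix.of (t : Fin m → Fin m → E)) hA.le (by positivity) (fun i j => hAa j i) (hLr t ht)
    have h2 := mul_entry_le ((a : Matrix (Fin m) (Fin m) E).transpose *
      Matrix.of (t : Fin m → Fin m → E)) ((a : Matrix (Fin m) (Fin m) E).map σ) (by positivity) hA.le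
      h1 (fun i j => by
        rw [Matrix.map_apply, sg_norm hq]
        exact hAa i j) i j
    refine h2.trans (le_of_eq ?_)
    field_simp
  have h1 := h L' hL'o hL'r
  have h2 := integral_linearEquiv (addHaar : Measure (Fin N → Fin m → E)) (rmulE N a)
    (fun x => chiS (L' : Set (Sk σ m)) (qf σ H x) * f x)
  have h2' : ν.real (L' : Set (Sk σ m)) = ad a ^ m * ν.real (L : Set (Sk σ m)) := by
    rw [hL'c, real_skT hq]
  rw [h1, det_rmulE, md_pow, NNReal.coe_pow, md_det_eq, h2'] at h2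
  have h3 : ∀ x : Fin N → Fin m → E, chiS (L' : Set (Sk σ m)) (qf σ H (rmulE N a x)) =
      chiS (L : Set (Sk σ m)) (qf σ H x) := by
    intro x
    have h4 : qf σ H (rmulE N a x) ∈
        (Subtype.val : Sk σ m → Fin m → Fin m → E) '' (L' : Set (Sk σ m)) ↔
        qf σ H x ∈ (Subtype.val : Sk σ m → Fin m → Fin m → E) '' (L : Set (Sk σ m)) := by
      rw [qf_rmul]
      constructor
      · rintro ⟨_, ⟨t, ht, rfl⟩, h5⟩
        refine ⟨t, ht, ?_⟩
        have h6 : tr2 σ (a : Matrix (Fin m) (Fin m) E) (t : Fin m → Fin m → E) =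
            tr2 σ (a : Matrix (Fin m) (Fin m) E) (qf σ H x) := h5
        have h7 := congrArg (tr2 σ ((a⁻¹ : GL (Fin m) E) : Matrix (Fin m) (Fin m) E)) h6
        rwa [tr2_mul, tr2_mul, ← Units.val_mul, mul_inv_cancel, Units.val_one, tr2_one,
          tr2_one] at h7
      · rintro ⟨t, ht, h5⟩
        refine ⟨skT (sig_sig hq) a t, ⟨t, ht, rfl⟩, ?_⟩
        rw [← h5]
        rfl
    by_cases h5 : qf σ H x ∈ (Subtype.val : Sk σ m → Fin m → Fin m → E) '' (L : Set (Sk σ m))
    · rw [chiS, chiS, Set.indicator_of_mem (h4.2 h5), Set.indicator_of_mem h5]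
    · rw [chiS, chiS, Set.indicator_of_notMem (fun h6 => h5 (h4.1 h6)), Set.indicator_of_notMem h5]
  have h4 : ∫ x, chiS (L : Set (Sk σ m)) (qf σ H x) * f (rmulE N a x)
      ∂(addHaar : Measure (Fin N → Fin m → E)) =
      ∫ x, chiS (L' : Set (Sk σ m)) (qf σ H (rmulE N a x)) * f (rmulE N a x)
      ∂(addHaar : Measure (Fin N → Fin m → E)) :=
    integral_congr_ae (Filter.Eventually.of_forall fun x => by
      show chiS (L : Set (Sk σ m)) (qf σ H x) * f (rmulE N a x) =
        chiS (L' : Set (Sk σ m)) (qf σ H (rmulE N a x)) * f (rmulE N a x)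
      rw [h3])
  rw [h4, h2]
  push_cast
  ring

/-- The fibre integral is supported on the isotropic frames. -/
theorem IsFib.of_zero (hq : QuadDatum σ δ d) {ν : Measure (Sk σ m)}
    {f : (Fin N → Fin m → E) → ℂ} (hf : IsTest f) (h : ∀ x, qf σ H x = 0 → f x = 0) :
    IsFib σ H ν f 0 := by
  obtain ⟨K, hK, h0, -⟩ := hf.compact
  have hS : IsCompact {x | f x ≠ 0} := by
    refine hK.of_isClosed_subset ?_ ?_
    · exact (hf.locConst.isOpen_fiber 0).isClosed_compl
    · intro x hx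
      by_contra h1
      exact hx (h0 x h1)
  obtain ⟨r, hr, hrS⟩ : ∃ r > 0, ∀ x, f x ≠ 0 → r < ‖qf σ H x‖ := by
    by_cases hne : {x | f x ≠ 0}.Nonempty
    · obtain ⟨x₀, hx₀, hmin⟩ := hS.exists_isMinOn hne ((continuous_qf hq).norm.continuousOn
        (s := {x | f x ≠ 0}))
      have h1 : 0 < ‖qf σ H x₀‖ := norm_pos_iff.2 fun h2 => hx₀ (h x₀ h2)
      refine ⟨‖qf σ H x₀‖ / 2, by positivity, fun x hx => ?_⟩
      have h2 : ‖qf σ H x₀‖ ≤ ‖qf σ H x‖ := hmin hx
      linarith
    · refine ⟨1, one_pos, fun x hx => (hne ⟨x, hx⟩).elim⟩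
  refine ⟨r, hr, fun L hL hLr => ?_⟩
  rw [zero_mul]
  refine integral_eq_zero_of_ae (Filter.Eventually.of_forall fun x => ?_)
  show chiS (L : Set (Sk σ m)) (qf σ H x) * f x = 0
  by_cases hx : f x = 0
  · rw [hx, mul_zero]
  · rw [chiS, Set.indicator_of_notMem, zero_mul]
    rintro ⟨s, hs, h1⟩
    have h2 : ‖(s : Fin m → Fin m → E)‖ ≤ r :=
      (pi_norm_le_iff_of_nonneg hr.le).2 fun i => (pi_norm_le_iff_of_nonneg hr.le).2 fun j =>
        hLr s hs i j
    have h3 := hrS x hx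
    rw [← h1] at h3
    linarith

/-- Positivity. -/
theorem IsFib.ne_zero (hq : QuadDatum σ δ d) (hH : IsSkew σ H) {ν : Measure (Sk σ m)}
    {f : (Fin N → Fin m → E) → ℂ} {v : ℂ} (hf : IsTest f) (hp : ∀ x, ∃ c : ℝ, 0 ≤ c ∧ f x = c)
    {x₀ : Fin N → Fin m → E} (hx₀ : qf σ H x₀ = 0) (hfx : f x₀ ≠ 0) (h : IsFib σ H ν f v) :
    v ≠ 0 := by
  obtain ⟨r, hr, h⟩ := h
  have h1 := h (SkB σ m r hr.le) (isOpen_SkB hr) fun s hs => hs
  intro hv
  rw [hv, zero_mul] at h1
  choose c hc hfc using hp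
  have h2 : ∀ x, chiS (SkB σ m r hr.le : Set (Sk σ m)) (qf σ H x) * f x =
      (((if ‖qf σ H x‖ ≤ r then c x else 0 : ℝ)) : ℂ) := by
    intro x
    have h3 : qf σ H x ∈ (Subtype.val : Sk σ m → Fin m → Fin m → E) ''
        (SkB σ m r hr.le : Set (Sk σ m)) ↔ ‖qf σ H x‖ ≤ r := by
      rw [pi_norm_le_iff_of_nonneg hr.le]
      constructor
      · rintro ⟨s, hs, h4⟩ i
        rw [← h4]
        exact (pi_norm_le_iff_of_nonneg hr.le).2 fun j => hs i j
      · intro h4
        exact ⟨⟨qf σ H x, qf_mem (sig_sig hq) hH x⟩,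
          fun i j => (norm_le_pi_norm _ j).trans (h4 i), rfl⟩
    by_cases h4 : ‖qf σ H x‖ ≤ r
    · rw [chiS, Set.indicator_of_mem (h3.2 h4), one_mul, if_pos h4, hfc]
    · rw [chiS, Set.indicator_of_notMem (fun h5 => h4 (h3.1 h5)), zero_mul, if_neg h4]
      simp
  simp_rw [h2] at h1
  rw [integral_complex_ofReal, Complex.ofReal_eq_zero] at h1
  have hint : Integrable (fun x => (if ‖qf σ H x‖ ≤ r then c x else 0 : ℝ))
      (addHaar : Measure (Fin N → Fin m → E)) := by
    have h3 := (integrable_chiS (H := H) hq hf (SkB σ m r hr.le) (isOpen_SkB hr)).re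
    refine h3.congr (Filter.Eventually.of_forall fun x => ?_)
    show RCLike.re (chiS (SkB σ m r hr.le : Set (Sk σ m)) (qf σ H x) * f x) = _
    rw [h2]
    simp
  have h4 := (integral_eq_zero_iff_of_nonneg (fun x => by
    show (0 : ℝ) ≤ if ‖qf σ H x‖ ≤ r then c x else 0
    split_ifs
    · exact hc x
    · exact le_rfl) hint).1 h1
  -- an open set where the function is not zero
  set O : Set (Fin N → Fin m → E) := {x | f x = f x₀} ∩ {x | ‖qf σ H x‖ < r} with hO
  have hOo : IsOpen O := (hf.locConst.isOpen_fiber _).inter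
    (isOpen_lt (continuous_qf hq).norm continuous_const)
  have hOn : O.Nonempty := ⟨x₀, rfl, by
    show ‖qf σ H x₀‖ < r
    rw [hx₀, norm_zero]
    exact hr⟩
  have h5 : (addHaar : Measure (Fin N → Fin m → E)) O ≠ 0 := (hOo.measure_pos _ hOn).ne'
  apply h5
  refine measure_mono_null ?_ h4
  intro x hx h6
  have h7 : (if ‖qf σ H x‖ ≤ r then c x else 0 : ℝ) = 0 := h6
  rw [if_pos hx.2.le] at h7
  apply hfx
  have h8 : f x = f x₀ := hx.1
  rw [← h8, hfc, h7]
  simp

end

end SpW
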