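import Pool.Agent.Work.MP_3615d2_al.Clo.Fib

/-!
MP_3615d2_al, the closed functional: the fibre integral over the isotropic frames.

`IsFib σ H ν f v`: for every small open subgroup `L` of the skew-Hermitian matrices the integral of
`f` over `x^t H σ(x) ∈ L` is `v ν(L)`.
-/

open MeasureTheory Measure Filter Topology Matrix
open scoped NNReal ENNReal Pointwise

set_option linter.unusedSectionVars false

namespace SpW

section reps

variable {A : Type} [AddCommGroup A] [TopologicalSpace A] [IsTopologicalAddGroup A]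

/-- A compact subgroup is a finite union of cosets of an open subgroup. -/
theorem exists_coset_reps (L L₁ : AddSubgroup A) (hL : IsOpen (L : Set A))
    (hL₁ : IsCompact (L₁ : Set A)) (hle : L ≤ L₁) :
    ∃ R : Finset A, (∀ t ∈ R, t ∈ L₁) ∧ ∀ s : A,
      (L₁ : Set A).indicator (fun _ => (1 : ℂ)) s =
        ∑ t ∈ R, (L : Set A).indicator (fun _ => (1 : ℂ)) (s - t) := by
  classical
  have hd : DiscreteTopology (A ⧸ L) := QuotientAddGroup.discreteTopology hL
  have hfin : ((QuotientAddGroup.mk : A → A ⧸ L) '' (L₁ : Set A)).Finite :=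
    (hL₁.image continuous_quotient_mk').finite_of_discrete
  have hout : ∀ q : A ⧸ L, (QuotientAddGroup.mk (Quotient.out q) : A ⧸ L) = q :=
    fun q => QuotientAddGroup.out_eq' q
  refine ⟨hfin.toFinset.image Quotient.out, ?_, ?_⟩
  · intro t ht
    obtain ⟨q, hq, rfl⟩ := Finset.mem_image.1 ht
    obtain ⟨s, hs, rfl⟩ := hfin.mem_toFinset.1 hq
    have h1 := hout (QuotientAddGroup.mk s)
    rw [QuotientAddGroup.eq] at h1
    have h2 := L₁.sub_mem hs (hle h1)
    rwa [← sub_eq_neg_add, sub_sub_cancel] at h2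
  · intro s
    rw [Finset.sum_image (fun a _ b _ h => by rw [← hout a, ← hout b, h])]
    have h1 : ∀ q : A ⧸ L, (L : Set A).indicator (fun _ => (1 : ℂ)) (s - Quotient.out q) =
        if QuotientAddGroup.mk s = q then 1 else 0 := by
      intro q
      have h2 : s - Quotient.out q ∈ (L : Set A) ↔ (QuotientAddGroup.mk s : A ⧸ L) = q := by
        rw [← hout q, eq_comm, QuotientAddGroup.eq, hout q, sub_eq_neg_add]
        rfl
      by_cases h : (QuotientAddGroup.mk s : A ⧸ L) = q
      · rw [Set.indicator_of_mem (h2.2 h), if_pos h]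
      · rw [Set.indicator_of_notMem (fun h' => h (h2.1 h')), if_neg h]
    have h3 : ∑ q ∈ hfin.toFinset, (L : Set A).indicator (fun _ => (1 : ℂ))
        (s - Quotient.out q) = ∑ q ∈ hfin.toFinset,
          if (QuotientAddGroup.mk s : A ⧸ L) = q then (1 : ℂ) else 0 :=
      Finset.sum_congr rfl fun q _ => h1 q
    refine Eq.trans ?_ h3.symm
    rw [Finset.sum_ite_eq]
    by_cases hs : s ∈ (L₁ : Set A)
    · rw [Set.indicator_of_mem hs, if_pos (hfin.mem_toFinset.2 ⟨s, hs, rfl⟩)]
    · rw [Set.indicator_of_notMem hs, if_neg]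
      intro h
      obtain ⟨s', hs', h2⟩ := hfin.mem_toFinset.1 h
      rw [QuotientAddGroup.eq] at h2
      apply hs
      have h3 := L₁.add_mem hs' (hle h2)
      rwa [add_neg_cancel_left] at h3

end reps

section fibv

variable {F E : Type} [NontriviallyNormedField F] [IsUltrametricDist F] [ProperSpace F]
  [NontriviallyNormedField E] [NormedAlgebra F E] [IsUltrametricDist E] [ProperSpace E]
  [MeasurableSpace E] [BorelSpace E]
  {σ : E ≃ₐ[F] E} {δ : E} {d : F} {N m : ℕ} {H : Matrix (Fin N) (Fin N) E}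

theorem isClosed_Sk (hq : QuadDatum σ δ d) : IsClosed (Sk σ m : Set (Fin m → Fin m → E)) := by
  have h1 : (Sk σ m : Set (Fin m → Fin m → E)) =
      ⋂ i, ⋂ j, {s : Fin m → Fin m → E | σ (s j i) = -s i j} := by
    ext s
    simp only [Set.mem_iInter]
    rfl
  rw [h1]
  exact isClosed_iInter fun i => isClosed_iInter fun j =>
    isClosed_eq ((continuous_σ hq).comp (continuous_apply_apply j i))
      (continuous_apply_apply i j).neg

theorem locallyCompact_Sk (hq : QuadDatum σ δ d) : LocallyCompactSpace (Sk σ m) :=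
  (isClosed_Sk hq).isClosedEmbedding_subtypeVal.locallyCompactSpace

/-- The skew-Hermitian matrices with entries bounded by `r`. -/
def SkB (σ : E ≃ₐ[F] E) (m : ℕ) (r : ℝ) (hr : 0 ≤ r) : AddSubgroup (Sk σ m) where
  carrier := {s | ∀ i j, ‖(s : Fin m → Fin m → E) i j‖ ≤ r}
  add_mem' := by
    intro a b ha hb i j
    exact (IsUltrametricDist.norm_add_le_max _ _).trans (max_le (ha i j) (hb i j))
  zero_mem' := by
    intro i j
    simpa using hr
  neg_mem' := by
    intro a ha i j
    show ‖-(a : Fin m → Fin m → E) i j‖ ≤ r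
    rw [norm_neg]
    exact ha i j

theorem isOpen_SkB {r : ℝ} (hr : 0 < r) : IsOpen (SkB σ m r hr.le : Set (Sk σ m)) := by
  refine AddSubgroup.isOpen_of_mem_nhds _ (g := 0) ?_
  have h1 : (Subtype.val : Sk σ m → Fin m → Fin m → E) ⁻¹' Metric.ball 0 r ∈ 𝓝 (0 : Sk σ m) :=
    continuous_subtype_val.continuousAt (Metric.ball_mem_nhds _ hr)
  refine Filter.mem_of_superset h1 fun s hs i j => ?_
  have h2 : ‖(s : Fin m → Fin m → E)‖ < r := by simpa using hs
  exact ((norm_le_pi_norm _ j).trans (norm_le_pi_norm _ i)).trans h2.le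

theorem isCompact_SkB (hq : QuadDatum σ δ d) {r : ℝ} (hr : 0 ≤ r) :
    IsCompact (SkB σ m r hr : Set (Sk σ m)) := by
  have h1 : IsClosedEmbedding (Subtype.val : Sk σ m → Fin m → Fin m → E) :=
    (isClosed_Sk hq).isClosedEmbedding_subtypeVal
  have h2 := h1.isCompact_preimage (isCompact_closedBall (0 : Fin m → Fin m → E) r)
  refine h2.of_isClosed_subset ?_ fun s hs => ?_
  · have h3 : (SkB σ m r hr : Set (Sk σ m)) =
        ⋂ i, ⋂ j, {s : Sk σ m | ‖(s : Fin m → Fin m → E) i j‖ ≤ r} := by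
      ext s
      simp only [Set.mem_iInter]
      rfl
    rw [h3]
    refine isClosed_iInter fun i => isClosed_iInter fun j => isClosed_le ?_ continuous_const
    exact ((continuous_apply_apply i j).comp continuous_subtype_val).norm
  · show (s : Fin m → Fin m → E) ∈ Metric.closedBall 0 r
    rw [mem_closedBall_zero_iff, pi_norm_le_iff_of_nonneg hr]
    exact fun i => (pi_norm_le_iff_of_nonneg hr).2 fun j => hs i j

/-- The indicator function of a subset of `Sk`, on all matrices. -/
noncomputable def chiS (L : Set (Sk σ m)) : (Fin m → Fin m → E) → ℂ :=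
  ((Subtype.val : Sk σ m → Fin m → Fin m → E) '' L).indicator fun _ => (1 : ℂ)

theorem chiS_coe (L : Set (Sk σ m)) (s : Sk σ m) :
    chiS L (s : Fin m → Fin m → E) = L.indicator (fun _ => (1 : ℂ)) s := by
  by_cases h : s ∈ L
  · rw [chiS, Set.indicator_of_mem (Set.mem_image_of_mem _ h), Set.indicator_of_mem h]
  · rw [chiS, Set.indicator_of_notMem, Set.indicator_of_notMem h]
    rintro ⟨s', hs', h2⟩
    exact h (Subtype.ext h2 ▸ hs')

/-- The fibre integral of `f` is `v`. -/
def IsFib (σ : E ≃ₐ[F] E) (H : Matrix (Fin N) (Fin N) E) (ν : Measure (Sk σ m))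
    (f : (Fin N → Fin m → E) → ℂ) (v : ℂ) : Prop :=
  ∃ r > 0, ∀ L : AddSubgroup (Sk σ m), IsOpen (L : Set (Sk σ m)) →
    (∀ s ∈ L, ∀ i j, ‖(s : Fin m → Fin m → E) i j‖ ≤ r) →
      ∫ x, chiS (L : Set (Sk σ m)) (qf σ H x) * f x ∂(addHaar : Measure (Fin N → Fin m → E)) =
        v * (ν.real (L : Set (Sk σ m)) : ℂ)

theorem measurableSet_image (hq : QuadDatum σ δ d) (L : AddSubgroup (Sk σ m))
    (hL : IsOpen (L : Set (Sk σ m))) :
    MeasurableSet ((Subtype.val : Sk σ m → Fin m → Fin m → E) '' (L : Set (Sk σ m))) := by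
  have h1 : IsClosedEmbedding (Subtype.val : Sk σ m → Fin m → Fin m → E) :=
    (isClosed_Sk hq).isClosedEmbedding_subtypeVal
  exact (h1.isClosedMap _ (AddSubgroup.isClosed_of_isOpen L hL)).measurableSet

theorem real_SkB_ne (hq : QuadDatum σ δ d) (ν : Measure (Sk σ m)) [ν.IsAddHaarMeasure]
    (L : AddSubgroup (Sk σ m)) (hL : IsOpen (L : Set (Sk σ m))) {r : ℝ} (hr : 0 < r)
    (hLr : L ≤ SkB σ m r hr.le) : ν.real (L : Set (Sk σ m)) ≠ 0 := by
  have h1 : ν (L : Set (Sk σ m)) ≠ 0 := (hL.measure_pos ν ⟨0, L.zero_mem⟩).ne'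
  have h2 : ν (L : Set (Sk σ m)) ≠ ∞ :=
    ((measure_mono hLr).trans_lt (isCompact_SkB hq hr.le).measure_lt_top).ne
  exact (ENNReal.toReal_pos h1 h2).ne'

theorem IsFib.unique (hq : QuadDatum σ δ d) (ν : Measure (Sk σ m)) [ν.IsAddHaarMeasure]
    {f : (Fin N → Fin m → E) → ℂ} {v v' : ℂ} (h : IsFib σ H ν f v) (h' : IsFib σ H ν f v') :
    v = v' := by
  obtain ⟨r, hr, h⟩ := h
  obtain ⟨r', hr', h'⟩ := h'
  have hr0 : 0 < min r r' := lt_min hr hr'
  have h1 := h (SkB σ m (min r r') hr0.le) (isOpen_SkB hr0) fun s hs i j =>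
    (hs i j).trans (min_le_left _ _)
  have h2 := h' (SkB σ m (min r r') hr0.le) (isOpen_SkB hr0) fun s hs i j =>
    (hs i j).trans (min_le_right _ _)
  rw [h1] at h2
  have h3 := real_SkB_ne hq ν (SkB σ m (min r r') hr0.le) (isOpen_SkB hr0) hr0 le_rfl
  exact mul_right_cancel₀ (by exact_mod_cast h3) h2

/-- Test functions supported on frames. -/
structure IsTest (f : (Fin N → Fin m → E) → ℂ) : Prop where
  locConst : IsLocallyConstant f
  compact : ∃ K : Set (Fin N → Fin m → E), IsCompact K ∧ (∀ x, x ∉ K → f x = 0) ∧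
    ∀ x ∈ K, ∃ l : Matrix (Fin m) (Fin N) E, l * Matrix.of x = 1

theorem IsTest.integrable {f : (Fin N → Fin m → E) → ℂ} (hf : IsTest f) :
    Integrable f (addHaar : Measure (Fin N → Fin m → E)) := by
  obtain ⟨K, hK, h0, -⟩ := hf.compact
  exact Continuous.integrable_of_hasCompactSupport hf.locConst.continuous
    (HasCompactSupport.intro hK h0)

theorem integrable_chi (hq : QuadDatum σ δ d) {f : (Fin N → Fin m → E) → ℂ} (hf : IsTest f)
    (A : Set (Fin m → Fin m → E)) (hA : MeasurableSet A) (t : Fin m → Fin m → E) :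
    Integrable (fun x => A.indicator (fun _ => (1 : ℂ)) (qf σ H x - t) * f x)
      (addHaar : Measure (Fin N → Fin m → E)) := by
  refine hf.integrable.mono ?_ (Filter.Eventually.of_forall fun x => ?_)
  · have h4 : Measurable fun x : Fin N → Fin m → E =>
        A.indicator (fun _ => (1 : ℂ)) (qf σ H x - t) :=
      (measurable_const.indicator hA).comp ((continuous_qf hq).sub continuous_const).measurable
    exact (h4.mul hf.locConst.continuous.measurable).aestronglyMeasurable
  · rw [norm_mul]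
    refine mul_le_of_le_one_left (norm_nonneg _) ?_
    by_cases hp : qf σ H x - t ∈ A
    · rw [Set.indicator_of_mem hp, norm_one]
    · rw [Set.indicator_of_notMem hp, norm_zero]
      exact zero_le_one

theorem integrable_chiS (hq : QuadDatum σ δ d) {f : (Fin N → Fin m → E) → ℂ} (hf : IsTest f)
    (L : AddSubgroup (Sk σ m)) (hL : IsOpen (L : Set (Sk σ m))) :
    Integrable (fun x => chiS (L : Set (Sk σ m)) (qf σ H x) * f x)
      (addHaar : Measure (Fin N → Fin m → E)) := by
  refine (integrable_chi (H := H) hq hf _ (measurableSet_image hq L hL) 0).congr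
    (Filter.Eventually.of_forall fun x => ?_)
  simp only [sub_zero]
  rfl

/-- **Existence of the fibre integral.** -/
theorem exists_fibV (hq : QuadDatum σ δ d) (hH : IsSkew σ H) (ν : Measure (Sk σ m))
    [ν.IsAddHaarMeasure] {f : (Fin N → Fin m → E) → ℂ} (hf : IsTest f) :
    ∃ v, IsFib σ H ν f v := by
  have hlc := locallyCompact_Sk (m := m) hq
  obtain ⟨K, hK, h0, hl⟩ := hf.compact
  obtain ⟨r, hr, htr⟩ := fib_translate hq hH f hf.locConst hK h0 hl
  set L₁ : AddSubgroup (Sk σ m) := SkB σ m r hr.le with hL₁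
  set κ : AddSubgroup (Sk σ m) → ℂ := fun L =>
    ∫ x, chiS (L : Set (Sk σ m)) (qf σ H x) * f x ∂(addHaar : Measure (Fin N → Fin m → E)) with hκ
  have hν1 := real_SkB_ne hq ν L₁ (isOpen_SkB hr) hr le_rfl
  refine ⟨κ L₁ / (ν.real (L₁ : Set (Sk σ m)) : ℂ), r, hr, fun L hL hLr => ?_⟩
  have hle : L ≤ L₁ := fun s hs => hLr s hs
  obtain ⟨R, hR, hRs⟩ := exists_coset_reps L L₁ hL (isCompact_SkB hq hr.le) hle
  -- first side
  have h1 : κ L₁ = R.card * κ L := by
    have h2 : ∀ x : Fin N → Fin m → E, chiS (L₁ : Set (Sk σ m)) (qf σ H x) * f x =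
        ∑ t ∈ R, ((Subtype.val : Sk σ m → Fin m → Fin m → E) '' (L : Set (Sk σ m))).indicator
          (fun _ => (1 : ℂ)) (qf σ H x - (t : Fin m → Fin m → E)) * f x := by
      intro x
      rw [← Finset.sum_mul]
      congr 1
      have h3 : qf σ H x = ((⟨qf σ H x, qf_mem (sig_sig hq) hH x⟩ : Sk σ m) :
        Fin m → Fin m → E) := rfl
      rw [h3, chiS_coe, hRs]
      refine Finset.sum_congr rfl fun t _ => ?_
      rw [← chiS_coe]
      rfl
    have h5 : ∀ t ∈ R, ∫ x, ((Subtype.val : Sk σ m → Fin m → Fin m → E) ''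
        (L : Set (Sk σ m))).indicator (fun _ => (1 : ℂ)) (qf σ H x - (t : Fin m → Fin m → E)) * f x
          ∂(addHaar : Measure (Fin N → Fin m → E)) = κ L := fun t ht =>
      htr (t : Fin m → Fin m → E) t.2 (fun i j => hR t ht i j) _ (measurableSet_image hq L hL)
    show ∫ x, chiS (L₁ : Set (Sk σ m)) (qf σ H x) * f x
      ∂(addHaar : Measure (Fin N → Fin m → E)) = R.card * κ L
    simp_rw [h2]
    rw [integral_finsetSum _ fun t _ => integrable_chi hq hf _ (measurableSet_image hq L hL) _,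
      Finset.sum_congr rfl h5, Finset.sum_const, nsmul_eq_mul]
  have h2 : (ν.real (L₁ : Set (Sk σ m)) : ℂ) = R.card * (ν.real (L : Set (Sk σ m)) : ℂ) := by
    have hLm : MeasurableSet (L : Set (Sk σ m)) := hL.measurableSet
    have hL₁m : MeasurableSet (L₁ : Set (Sk σ m)) := (isOpen_SkB hr).measurableSet
    have hfinL : ν (L : Set (Sk σ m)) ≠ ∞ :=
      ((measure_mono hle).trans_lt (isCompact_SkB hq hr.le).measure_lt_top).ne
    have e : ∀ A : Set (Sk σ m), MeasurableSet A →
        ∫ s, A.indicator (fun _ => (1 : ℂ)) s ∂ν = (ν.real A : ℂ) := by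
      intro A hA
      rw [integral_indicator hA, setIntegral_const]
      simp
    rw [← e _ hL₁m, ← e _ hLm]
    simp_rw [hRs]
    rw [integral_finsetSum]
    · rw [Finset.sum_congr rfl fun t _ => integral_sub_right_eq_self
        (fun s => (L : Set (Sk σ m)).indicator (fun _ => (1 : ℂ)) s) t, Finset.sum_const,
        nsmul_eq_mul]
    · intro t _
      refine Integrable.comp_sub_right (f := fun s => (L : Set (Sk σ m)).indicator
        (fun _ => (1 : ℂ)) s) ?_ t
      exact (integrable_indicator_iff hLm).2 (integrableOn_const hfinL)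
  have h3 : (R.card : ℂ) ≠ 0 := by
    intro h
    rw [h, zero_mul] at h2
    exact hν1 (by exact_mod_cast h2)
  have h4 : (ν.real (L₁ : Set (Sk σ m)) : ℂ) ≠ 0 := by exact_mod_cast hν1
  show κ L = κ L₁ / (ν.real (L₁ : Set (Sk σ m)) : ℂ) * (ν.real (L : Set (Sk σ m)) : ℂ)
  rw [div_mul_eq_mul_div, eq_div_iff h4, h1, h2]
  ring

end fibv

end SpW
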