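import Pool.Agent.Work.MP_3615d2_al.Clo.Lin

/-!
MP_3615d2_al, the closed functional: primitive frames.  `prim` is the set of the integral `x` with an
integral left inverse; it is compact and open, and every frame is `x a` with `x` primitive and `a`
unique modulo `GL_m(O)`.
-/

open MeasureTheory Measure Filter Topology Matrix
open scoped NNReal ENNReal Pointwise

set_option linter.unusedSectionVars false

namespace SpW

section alg

variable {E : Type} [Field E] {N m : ℕ}

/-- The frames: the `x` with a left inverse. -/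
def frames (N m : ℕ) (E : Type) [Field E] : Set (Fin N → Fin m → E) :=
  {x | ∃ l : Matrix (Fin m) (Fin N) E, l * Matrix.of x = 1}

/-- The rows `S` of `x`. -/
def rowsM (x : Fin N → Fin m → E) (S : Fin m → Fin N) : Matrix (Fin m) (Fin m) E :=
  Matrix.of fun i j => x (S i) j

theorem exists_minor_ne {x : Fin N → Fin m → E} (hx : x ∈ frames N m E) :
    ∃ S : Fin m → Fin N, (rowsM x S).det ≠ 0 := by
  obtain ⟨l, hl⟩ := hx
  by_contra hcon
  push Not at hcon
  have h1 : (l * Matrix.of x).det = ∑ S : Fin m → Fin N, (∏ i, l i (S i)) * (rowsM x S).det := by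
    have h2 : l * Matrix.of x = fun i => ∑ k, l i k • x k := by
      funext i j
      rw [Matrix.mul_apply, Finset.sum_apply]
      rfl
    rw [h2]
    have h3 := (Matrix.detRowAlternating (n := Fin m) (R := E)).toMultilinearMap.map_sum
      (fun (i : Fin m) (k : Fin N) => l i k • x k)
    refine h3.trans (Finset.sum_congr rfl fun S _ => ?_)
    have h4 := (Matrix.detRowAlternating (n := Fin m) (R := E)).toMultilinearMap.map_smul_univ
      (fun i => l i (S i)) (fun i => x (S i))
    exact h4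
  rw [hl, Matrix.det_one] at h1
  rw [Finset.sum_eq_zero fun S _ => by rw [hcon S, mul_zero]] at h1
  exact one_ne_zero h1

theorem det_one_updateRow (j : Fin m) (r : Fin m → E) :
    ((1 : Matrix (Fin m) (Fin m) E).updateRow j r).det = r j := by
  have h1 := Matrix.cramer_transpose_apply (1 : Matrix (Fin m) (Fin m) E) r j
  rw [Matrix.transpose_one, Matrix.cramer_one] at h1
  exact h1.symm

theorem rowsM_mul (x : Fin N → Fin m → E) (a : GL (Fin m) E) (S : Fin m → Fin N) :
    rowsM (rmulE N a x) S = rowsM x S * (a : Matrix (Fin m) (Fin m) E) := by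
  ext i j
  rw [Matrix.mul_apply]
  show (Matrix.of x * (a : Matrix (Fin m) (Fin m) E)) (S i) j = _
  rw [Matrix.mul_apply]
  rfl

theorem rmulE_mul (a b : GL (Fin m) E) (x : Fin N → Fin m → E) :
    rmulE N b (rmulE N a x) = rmulE N (a * b) x := by
  show Matrix.of x * (a : Matrix (Fin m) (Fin m) E) * (b : Matrix (Fin m) (Fin m) E) =
    Matrix.of x * ((a * b : GL (Fin m) E) : Matrix (Fin m) (Fin m) E)
  rw [Units.val_mul, Matrix.mul_assoc]

theorem rmulE_one (x : Fin N → Fin m → E) : rmulE N (1 : GL (Fin m) E) x = x := by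
  show Matrix.of x * ((1 : GL (Fin m) E) : Matrix (Fin m) (Fin m) E) = Matrix.of x
  rw [Units.val_one, Matrix.mul_one]

theorem lmulE_mul (a b : GL (Fin N) E) (x : Fin N → Fin m → E) :
    lmulE a m (lmulE b m x) = lmulE (a * b) m x := by
  show (a : Matrix (Fin N) (Fin N) E) * ((b : Matrix (Fin N) (Fin N) E) * Matrix.of x) =
    ((a * b : GL (Fin N) E) : Matrix (Fin N) (Fin N) E) * Matrix.of x
  rw [Units.val_mul, Matrix.mul_assoc]

theorem lmulE_one (x : Fin N → Fin m → E) : lmulE (1 : GL (Fin N) E) m x = x := by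
  show ((1 : GL (Fin N) E) : Matrix (Fin N) (Fin N) E) * Matrix.of x = Matrix.of x
  rw [Units.val_one, Matrix.one_mul]

theorem lmulE_rmulE (a : GL (Fin N) E) (b : GL (Fin m) E) (x : Fin N → Fin m → E) :
    lmulE a m (rmulE N b x) = rmulE N b (lmulE a m x) := by
  show (a : Matrix (Fin N) (Fin N) E) * (Matrix.of x * (b : Matrix (Fin m) (Fin m) E)) =
    (a : Matrix (Fin N) (Fin N) E) * Matrix.of x * (b : Matrix (Fin m) (Fin m) E)
  rw [Matrix.mul_assoc]

theorem rmulE_mem_frames {x : Fin N → Fin m → E} (hx : x ∈ frames N m E) (a : GL (Fin m) E) :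
    rmulE N a x ∈ frames N m E := by
  obtain ⟨l, hl⟩ := hx
  refine ⟨((a⁻¹ : GL (Fin m) E) : Matrix (Fin m) (Fin m) E) * l, ?_⟩
  show ((a⁻¹ : GL (Fin m) E) : Matrix (Fin m) (Fin m) E) * l *
    (Matrix.of x * (a : Matrix (Fin m) (Fin m) E)) = 1
  rw [Matrix.mul_assoc, ← Matrix.mul_assoc l, hl, Matrix.one_mul, ← Units.val_mul, inv_mul_cancel,
    Units.val_one]

theorem lmulE_mem_frames {x : Fin N → Fin m → E} (hx : x ∈ frames N m E) (a : GL (Fin N) E) :
    lmulE a m x ∈ frames N m E := by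
  obtain ⟨l, hl⟩ := hx
  refine ⟨l * ((a⁻¹ : GL (Fin N) E) : Matrix (Fin N) (Fin N) E), ?_⟩
  show l * ((a⁻¹ : GL (Fin N) E) : Matrix (Fin N) (Fin N) E) *
    ((a : Matrix (Fin N) (Fin N) E) * Matrix.of x) = 1
  rw [Matrix.mul_assoc, ← Matrix.mul_assoc _ (a : Matrix (Fin N) (Fin N) E), ← Units.val_mul,
    inv_mul_cancel, Units.val_one, Matrix.one_mul, hl]

end alg

section prim

variable {E : Type} [NontriviallyNormedField E] [IsUltrametricDist E] [ProperSpace E] {N m : ℕ}

/-- The primitive frames. -/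
def prim (N m : ℕ) (E : Type) [NontriviallyNormedField E] : Set (Fin N → Fin m → E) :=
  {x | (∀ i j, ‖x i j‖ ≤ 1) ∧ ∃ l : Matrix (Fin m) (Fin N) E, (∀ i j, ‖l i j‖ ≤ 1) ∧
    l * Matrix.of x = 1}

theorem prim_frames : prim N m E ⊆ frames N m E := fun _ hx => ⟨hx.2.choose, hx.2.choose_spec.2⟩

theorem prim_inv {x : Fin N → Fin m → E} (hx : x ∈ prim N m E) {a : GL (Fin m) E}
    (ha : a ∈ glK (Fin m) E 1 zero_le_one le_rfl) : rmulE N a x ∈ prim N m E := by
  obtain ⟨h1, l, h2, h3⟩ := hx
  refine ⟨fun i j => ?_, ((a⁻¹ : GL (Fin m) E) : Matrix (Fin m) (Fin m) E) * l, fun i j => ?_, ?_⟩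
  · have h4 := mul_entry_le (Matrix.of x) (a : Matrix (Fin m) (Fin m) E) zero_le_one zero_le_one h1
      (fun i j => glK_entry ha i j) i j
    rwa [one_mul] at h4
  · have h4 := mul_entry_le ((a⁻¹ : GL (Fin m) E) : Matrix (Fin m) (Fin m) E) l zero_le_one
      zero_le_one (fun i j => glK_entry_inv ha i j) h2 i j
    rwa [one_mul] at h4
  · show ((a⁻¹ : GL (Fin m) E) : Matrix (Fin m) (Fin m) E) * l *
      (Matrix.of x * (a : Matrix (Fin m) (Fin m) E)) = 1
    rw [Matrix.mul_assoc, ← Matrix.mul_assoc l, h3, Matrix.one_mul, ← Units.val_mul,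
      inv_mul_cancel, Units.val_one]

theorem prim_uniq {x : Fin N → Fin m → E} (hx : x ∈ prim N m E) {a : GL (Fin m) E}
    (hxa : rmulE N a x ∈ prim N m E) : a ∈ glK (Fin m) E 1 zero_le_one le_rfl := by
  obtain ⟨h1, l, h2, h3⟩ := hx
  obtain ⟨h4, l', h5, h6⟩ := hxa
  have h7 : (a : Matrix (Fin m) (Fin m) E) = l * Matrix.of (rmulE N a x) := by
    show (a : Matrix (Fin m) (Fin m) E) = l * (Matrix.of x * (a : Matrix (Fin m) (Fin m) E))
    rw [← Matrix.mul_assoc, h3, Matrix.one_mul]
  have h8 : ((a⁻¹ : GL (Fin m) E) : Matrix (Fin m) (Fin m) E) = l' * Matrix.of x := by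
    have h9 : l' * Matrix.of x * (a : Matrix (Fin m) (Fin m) E) = 1 := by
      rw [Matrix.mul_assoc]
      exact h6
    have h10 : l' * Matrix.of x * (a : Matrix (Fin m) (Fin m) E) *
        ((a⁻¹ : GL (Fin m) E) : Matrix (Fin m) (Fin m) E) =
          1 * ((a⁻¹ : GL (Fin m) E) : Matrix (Fin m) (Fin m) E) := by rw [h9]
    rw [Matrix.mul_assoc, ← Units.val_mul, mul_inv_cancel, Units.val_one, Matrix.mul_one,
      Matrix.one_mul] at h10
    exact h10.symm
  refine mem_glK_one (fun i j => ?_) (fun i j => ?_)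
  · rw [h7]
    have h9 := mul_entry_le l (Matrix.of (rmulE N a x)) zero_le_one zero_le_one h2 h4 i j
    rwa [one_mul] at h9
  · rw [h8]
    have h9 := mul_entry_le l' (Matrix.of x) zero_le_one zero_le_one h5 h1 i j
    rwa [one_mul] at h9

/-- Every frame is a primitive frame times an element of `GL_m(E)`. -/
theorem prim_exists {x : Fin N → Fin m → E} (hx : x ∈ frames N m E) :
    ∃ a : GL (Fin m) E, rmulE N a x ∈ prim N m E := by
  classical
  obtain ⟨S₁, hS₁⟩ := exists_minor_ne hx
  obtain ⟨S, -, hmax⟩ := Finset.exists_max_image (Finset.univ : Finset (Fin m → Fin N))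
    (fun S => ‖(rowsM x S).det‖) ⟨S₁, Finset.mem_univ _⟩
  have hS0 : (rowsM x S).det ≠ 0 := by
    intro h
    have h1 := hmax S₁ (Finset.mem_univ _)
    rw [h, norm_zero] at h1
    exact hS₁ (norm_le_zero_iff.1 h1)
  set b : GL (Fin m) E := Matrix.GeneralLinearGroup.mkOfDetNeZero (rowsM x S) hS0 with hb
  have hbv : (b : Matrix (Fin m) (Fin m) E) = rowsM x S := rfl
  refine ⟨b⁻¹, ?_, Matrix.of fun j i => if i = S j then 1 else 0, ?_, ?_⟩
  · intro i j
    have h1 : rowsM (rmulE N b⁻¹ x) (Function.update S j i) =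
        (1 : Matrix (Fin m) (Fin m) E).updateRow j (rmulE N b⁻¹ x i) := by
      have h2 : rowsM (rmulE N b⁻¹ x) S = 1 := by
        rw [rowsM_mul, ← hbv, ← Units.val_mul, mul_inv_cancel, Units.val_one]
      ext k k'
      by_cases hk : k = j
      · subst hk
        rw [Matrix.updateRow_self]
        show rmulE N b⁻¹ x (Function.update S k i k) k' = _
        rw [Function.update_self]
      · rw [Matrix.updateRow_ne hk, ← h2]
        show rmulE N b⁻¹ x (Function.update S j i k) k' = rmulE N b⁻¹ x (S k) k'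
        rw [Function.update_of_ne hk]
    have h3 := det_one_updateRow j (rmulE N b⁻¹ x i)
    rw [← h1, rowsM_mul, Matrix.det_mul] at h3
    rw [← h3, norm_mul]
    have h4 : (b : Matrix (Fin m) (Fin m) E).det *
        ((b⁻¹ : GL (Fin m) E) : Matrix (Fin m) (Fin m) E).det = 1 := by
      rw [← Matrix.det_mul, ← Units.val_mul, mul_inv_cancel, Units.val_one, Matrix.det_one]
    have h5 : ‖(rowsM x S).det‖ * ‖((b⁻¹ : GL (Fin m) E) : Matrix (Fin m) (Fin m) E).det‖ = 1 := by
      rw [← hbv, ← norm_mul, h4, norm_one]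
    have h6 := hmax (Function.update S j i) (Finset.mem_univ _)
    rw [← h5]
    exact mul_le_mul_of_nonneg_right h6 (norm_nonneg _)
  · intro i j
    rw [Matrix.of_apply]
    split_ifs <;> simp
  · have h2 : rowsM (rmulE N b⁻¹ x) S = 1 := by
      rw [rowsM_mul, ← hbv, ← Units.val_mul, mul_inv_cancel, Units.val_one]
    rw [← h2]
    ext i j
    rw [Matrix.mul_apply]
    simp only [Matrix.of_apply, ite_mul, one_mul, zero_mul, Finset.sum_ite_eq', Finset.mem_univ,
      if_true]
    rfl

attribute [local instance] Matrix.normedAddCommGroup in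
theorem prim_isOpen : IsOpen (prim N m E) := by
  rw [isOpen_iff_mem_nhds]
  rintro x ⟨h1, l, h2, h3⟩
  set D : (Fin N → Fin m → E) → Matrix (Fin m) (Fin m) E := fun y => l * Matrix.of y - 1 with hD
  have hDc : Continuous D := (continuous_const.matrix_mul continuous_id).sub continuous_const
  have h4 : ∀ᶠ y in 𝓝 x, ∀ i j, ‖D y i j‖ ≤ 1 / 2 := by
    rw [Filter.eventually_all]
    intro i
    rw [Filter.eventually_all]
    intro j
    have h5 : Continuous fun y => ‖D y i j‖ := (hDc.matrix_elem i j).norm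
    have h6 : ‖D x i j‖ < 1 / 2 := by
      have h7 : D x = 0 := by
        rw [hD]
        simp only
        rw [h3, sub_self]
      rw [h7]
      simp
    exact (h5.continuousAt.eventually_lt continuousAt_const h6).mono fun y hy => hy.le
  have h5 : ∀ᶠ y in 𝓝 x, ∀ i j, ‖y i j - x i j‖ ≤ 1 := by
    rw [Filter.eventually_all]
    intro i
    rw [Filter.eventually_all]
    intro j
    have h6 : Continuous fun y : Fin N → Fin m → E => ‖y i j - x i j‖ :=
      ((continuous_apply_apply i j).sub continuous_const).norm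
    have h7 : ‖x i j - x i j‖ < 1 := by
      rw [sub_self, norm_zero]
      exact one_pos
    exact (h6.continuousAt.eventually_lt continuousAt_const h7).mono fun y hy => hy.le
  filter_upwards [h4, h5] with y hy hy'
  refine ⟨fun i j => ?_, ?_⟩
  · have h6 : y i j = (y i j - x i j) + x i j := by ring
    rw [h6]
    exact (IsUltrametricDist.norm_add_le_max _ _).trans (max_le (hy' i j) (h1 i j))
  · obtain ⟨k, hk, hky⟩ := exists_glK_of_near (n := Fin m) (E := E) (ρ := 1 / 2) (by norm_num)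
      (by norm_num) le_rfl (D y) ((Matrix.norm_le_iff (by norm_num)).2 hy)
    have hky' : (k : Matrix (Fin m) (Fin m) E) = l * Matrix.of y := by
      rw [hky, hD]
      simp
    refine ⟨((k⁻¹ : GL (Fin m) E) : Matrix (Fin m) (Fin m) E) * l, fun i j => ?_, ?_⟩
    · have h6 := mul_entry_le ((k⁻¹ : GL (Fin m) E) : Matrix (Fin m) (Fin m) E) l zero_le_one
        zero_le_one (fun i j => glK_entry_inv hk i j) h2 i j
      rwa [one_mul] at h6
    · rw [Matrix.mul_assoc, ← hky', ← Units.val_mul, inv_mul_cancel, Units.val_one]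

theorem prim_isCompact : IsCompact (prim N m E) := by
  have h1 : prim N m E = Prod.fst '' {p : (Fin N → Fin m → E) × (Fin m → Fin N → E) |
      (∀ i j, ‖p.1 i j‖ ≤ 1) ∧ (∀ i j, ‖p.2 i j‖ ≤ 1) ∧
        (Matrix.of p.2 : Matrix (Fin m) (Fin N) E) * Matrix.of p.1 = 1} := by
    ext x
    constructor
    · rintro ⟨h1, l, h2, h3⟩
      exact ⟨(x, l), ⟨h1, h2, h3⟩, rfl⟩
    · rintro ⟨⟨y, l⟩, ⟨h1, h2, h3⟩, rfl⟩
      exact ⟨h1, l, h2, h3⟩
  rw [h1]
  refine IsCompact.image ?_ continuous_fst
  refine (isCompact_closedBall (0 : (Fin N → Fin m → E) × (Fin m → Fin N → E)) 1).of_isClosed_subset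
    ?_ ?_
  · refine IsClosed.inter ?_ (IsClosed.inter ?_ ?_)
    · have h2 : {p : (Fin N → Fin m → E) × (Fin m → Fin N → E) | ∀ i j, ‖p.1 i j‖ ≤ 1} =
          ⋂ i, ⋂ j, {p | ‖p.1 i j‖ ≤ 1} := by
        ext p
        simp
      show IsClosed {p : (Fin N → Fin m → E) × (Fin m → Fin N → E) | ∀ i j, ‖p.1 i j‖ ≤ 1}
      rw [h2]
      exact isClosed_iInter fun i => isClosed_iInter fun j =>
        isClosed_le ((continuous_apply_apply i j).comp continuous_fst).norm continuous_const
    · have h2 : {p : (Fin N → Fin m → E) × (Fin m → Fin N → E) | ∀ i j, ‖p.2 i j‖ ≤ 1} =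
          ⋂ i, ⋂ j, {p | ‖p.2 i j‖ ≤ 1} := by
        ext p
        simp
      show IsClosed {p : (Fin N → Fin m → E) × (Fin m → Fin N → E) | ∀ i j, ‖p.2 i j‖ ≤ 1}
      rw [h2]
      exact isClosed_iInter fun i => isClosed_iInter fun j =>
        isClosed_le ((continuous_apply_apply i j).comp continuous_snd).norm continuous_const
    · have h2 : Continuous fun p : (Fin N → Fin m → E) × (Fin m → Fin N → E) =>
          (Matrix.of p.2 : Matrix (Fin m) (Fin N) E) * (Matrix.of p.1 : Matrix (Fin N) (Fin m) E) :=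
        continuous_snd.matrix_mul continuous_fst
      exact isClosed_eq h2 continuous_const
  · rintro ⟨x, l⟩ ⟨h2, h3, -⟩
    rw [mem_closedBall_zero_iff, Prod.norm_def]
    refine max_le ?_ ?_
    · exact (pi_norm_le_iff_of_nonneg zero_le_one).2 fun i =>
        (pi_norm_le_iff_of_nonneg zero_le_one).2 fun j => h2 i j
    · exact (pi_norm_le_iff_of_nonneg zero_le_one).2 fun i =>
        (pi_norm_le_iff_of_nonneg zero_le_one).2 fun j => h3 i j

end prim

end SpW
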