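import Pool.Agent.Work.MP_3615d2_al.Clo.FibInv
import Pool.Agent.Work.MP_3615d2_al.Clo.Prim

/-!
MP_3615d2_al, the closed functional: the fibre integral of functions defined on the isotropic frames.
-/

open MeasureTheory Measure Filter Topology Matrix
open scoped NNReal ENNReal Pointwise

set_option linter.unusedSectionVars false

namespace SpW

section

variable {F E : Type} [NontriviallyNormedField F] [IsUltrametricDist F] [ProperSpace F]
  [NontriviallyNormedField E] [NormedAlgebra F E] [IsUltrametricDist E] [ProperSpace E]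
  [MeasurableSpace E] [BorelSpace E]
  {σ : E ≃ₐ[F] E} {δ : E} {d : F} {N m : ℕ} {H : Matrix (Fin N) (Fin N) E}

theorem continuous_rmulE (a : GL (Fin m) E) :
    Continuous (rmulE N a : (Fin N → Fin m → E) → (Fin N → Fin m → E)) := by
  have h1 : Continuous fun x : Matrix (Fin N) (Fin m) E => x * (a : Matrix (Fin m) (Fin m) E) :=
    continuous_id.matrix_mul continuous_const
  exact h1

theorem continuous_lmulE (a : GL (Fin N) E) :
    Continuous (lmulE a m : (Fin N → Fin m → E) → (Fin N → Fin m → E)) := by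
  have h1 : Continuous fun x : Matrix (Fin N) (Fin m) E => (a : Matrix (Fin N) (Fin N) E) * x :=
    continuous_const.matrix_mul continuous_id
  exact h1

theorem frames_isOpen : IsOpen (frames N m E) := by
  rw [isOpen_iff_mem_nhds]
  intro x hx
  obtain ⟨a, ha⟩ := prim_exists hx
  have h1 : {y | rmulE N a y ∈ prim N m E} ∈ 𝓝 x :=
    (prim_isOpen.preimage (continuous_rmulE a)).mem_nhds ha
  refine Filter.mem_of_superset h1 fun y hy => ?_
  have h2 := rmulE_mem_frames (prim_frames hy) a⁻¹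
  rwa [rmulE_mul, mul_inv_cancel, rmulE_one] at h2

theorem le_of_frame {x : Fin N → Fin m → E} (hx : x ∈ frames N m E) : m ≤ N := by
  obtain ⟨S, hS⟩ := exists_minor_ne hx
  have h1 : Function.Injective S := by
    intro i j hij
    by_contra hne
    exact hS (Matrix.det_zero_of_row_eq hne (by
      funext k
      show x (S i) k = x (S j) k
      rw [hij]))
  simpa using Fintype.card_le_of_injective S h1

/-- Extension of a locally constant function on the isotropic frames. -/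
theorem exists_test {Z : Set (Fin N → Fin m → E)}
    (g : (Fin N → Fin m → E) → ℂ) {K : Set (Fin N → Fin m → E)}
    (hK : IsCompact K) (hZ : IsClosed Z) (hKf : K ⊆ frames N m E)
    (h0 : ∀ x ∈ Z, x ∉ K → g x = 0)
    (hloc : ∀ x ∈ Z, x ∈ K → ∀ᶠ x' in 𝓝 x, x' ∈ Z → g x' = g x) :
    ∃ f, IsTest f ∧ (∀ x ∈ Z, f x = g x) ∧ ∀ x, f x = 0 ∨ ∃ z ∈ Z, f x = g z := by
  classical
  have hZK : IsCompact (K ∩ Z) := hK.inter_right hZ
  obtain ⟨ε, hε, hcov⟩ := lebesgue_number_lemma_of_metric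
    (c := fun y => interior {x' | x' ∈ frames N m E ∧ (x' ∈ Z → g x' = g y)}) hZK
    (fun y => isOpen_interior) (fun x hx => Set.mem_iUnion.2 ⟨x, by
      rw [mem_interior_iff_mem_nhds]
      filter_upwards [frames_isOpen.mem_nhds (hKf hx.1), hloc x hx.2 hx.1] with x' h1 h2
      exact ⟨h1, h2⟩⟩)
  have key : ∀ z ∈ K ∩ Z, ∀ x, dist x z < ε → x ∈ frames N m E ∧ (x ∈ Z → g x = g z) := by
    intro z hz x hx
    obtain ⟨y, hy⟩ := hcov z hz
    have h1 := interior_subset (hy (Metric.mem_ball_self hε))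
    have h2 := interior_subset (hy (show x ∈ Metric.ball z ε from hx))
    exact ⟨h2.1, fun h3 => by rw [h2.2 h3, h1.2 hz.2]⟩
  have htri : ∀ x y z : Fin N → Fin m → E, dist x y < ε → dist y z < ε → dist x z < ε := by
    intro x y z h1 h2
    exact (dist_triangle_max x y z).trans_lt (max_lt h1 h2)
  set f : (Fin N → Fin m → E) → ℂ := fun x =>
    if h : ∃ z ∈ K ∩ Z, dist x z < ε then g h.choose else 0 with hf
  have hfz : ∀ x z, z ∈ K ∩ Z → dist x z < ε → f x = g z := by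
    intro x z hz hxz
    have h : ∃ z ∈ K ∩ Z, dist x z < ε := ⟨z, hz, hxz⟩
    rw [hf]
    simp only
    rw [dif_pos h]
    have h1 := h.choose_spec
    refine (key z hz _ ?_).2 h1.1.2
    exact htri _ x _ (by rw [dist_comm]; exact h1.2) hxz
  have hfn : ∀ x, (¬ ∃ z ∈ K ∩ Z, dist x z < ε) → f x = 0 := by
    intro x h
    rw [hf]
    simp only
    rw [dif_neg h]
  have huni : ∀ x y, dist x y < ε → f x = f y := by
    intro x y hxy
    by_cases h : ∃ z ∈ K ∩ Z, dist x z < ε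
    · obtain ⟨z, hz, hxz⟩ := h
      rw [hfz x z hz hxz, hfz y z hz (htri _ x _ (by rwa [dist_comm]) hxz)]
    · have h' : ¬ ∃ z ∈ K ∩ Z, dist y z < ε := by
        rintro ⟨z, hz, hyz⟩
        exact h ⟨z, hz, htri _ y _ hxy hyz⟩
      rw [hfn x h, hfn y h']
  have hT : IsClosed {x : Fin N → Fin m → E | ∃ z ∈ K ∩ Z, dist x z < ε} := by
    rw [← isOpen_compl_iff, isOpen_iff_mem_nhds]
    intro x hx
    refine Filter.mem_of_superset (Metric.ball_mem_nhds x hε) fun y hy => ?_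
    rintro ⟨z, hz, hyz⟩
    exact hx ⟨z, hz, htri _ y _ (by rw [dist_comm]; exact hy) hyz⟩
  refine ⟨f, ⟨?_, {x | ∃ z ∈ K ∩ Z, dist x z < ε}, ?_, fun x hx => hfn x hx, ?_⟩, ?_, ?_⟩
  · rw [IsLocallyConstant.iff_eventually_eq]
    intro x
    filter_upwards [Metric.ball_mem_nhds x hε] with y hy
    exact huni y x hy
  · obtain ⟨R, hR⟩ := hZK.isBounded.exists_norm_le
    refine (isCompact_closedBall (0 : Fin N → Fin m → E) (ε + R)).of_isClosed_subset hT ?_
    rintro x ⟨z, hz, hxz⟩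
    rw [mem_closedBall_zero_iff]
    have h1 := hR z hz
    have h2 : ‖x‖ ≤ ‖x - z‖ + ‖z‖ := by
      have h3 := norm_add_le (x - z) z
      rwa [sub_add_cancel] at h3
    rw [dist_eq_norm] at hxz
    linarith
  · rintro x ⟨z, hz, hxz⟩
    exact (key z hz x hxz).1
  · intro x hx
    by_cases h : ∃ z ∈ K ∩ Z, dist x z < ε
    · obtain ⟨z, hz, hxz⟩ := h
      rw [hfz x z hz hxz, (key z hz x hxz).2 hx]
    · rw [hfn x h, h0 x hx]
      intro hxK
      exact h ⟨x, ⟨hxK, hx⟩, by rw [dist_self]; exact hε⟩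
  · intro x
    by_cases h : ∃ z ∈ K ∩ Z, dist x z < ε
    · obtain ⟨z, hz, hxz⟩ := h
      exact Or.inr ⟨z, hz.2, hfz x z hz hxz⟩
    · exact Or.inl (hfn x h)

theorem IsTest.add {f g : (Fin N → Fin m → E) → ℂ} (hf : IsTest f) (hg : IsTest g) :
    IsTest fun x => f x + g x := by
  obtain ⟨K, hK, h0, hl⟩ := hf.compact
  obtain ⟨K', hK', h0', hl'⟩ := hg.compact
  refine ⟨hf.locConst.add hg.locConst, K ∪ K', hK.union hK', fun x hx => ?_, fun x hx => ?_⟩
  · rw [Set.mem_union, not_or] at hx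
    show f x + g x = 0
    rw [h0 x hx.1, h0' x hx.2, add_zero]
  · exact hx.elim (hl x) (hl' x)

theorem IsTest.const_mul {f : (Fin N → Fin m → E) → ℂ} (hf : IsTest f) (c : ℂ) :
    IsTest fun x => c * f x := by
  obtain ⟨K, hK, h0, hl⟩ := hf.compact
  refine ⟨hf.locConst.comp (fun z => c * z), K, hK, fun x hx => ?_, hl⟩
  show c * f x = 0
  rw [h0 x hx, mul_zero]

theorem IsTest.comp_rmulE {f : (Fin N → Fin m → E) → ℂ} (hf : IsTest f) (a : GL (Fin m) E) :
    IsTest fun x => f (rmulE N a x) := by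
  obtain ⟨K, hK, h0, hl⟩ := hf.compact
  refine ⟨hf.locConst.comp_continuous (continuous_rmulE a), rmulE N a⁻¹ '' K,
    hK.image (continuous_rmulE a⁻¹), fun x hx => h0 _ fun h => hx ⟨_, h, ?_⟩, ?_⟩
  · rw [rmulE_mul, mul_inv_cancel, rmulE_one]
  · rintro _ ⟨y, hy, rfl⟩
    exact rmulE_mem_frames (hl y hy) a⁻¹

theorem IsTest.comp_lmulE {f : (Fin N → Fin m → E) → ℂ} (hf : IsTest f) (a : GL (Fin N) E) :
    IsTest fun x => f (lmulE a m x) := by
  obtain ⟨K, hK, h0, hl⟩ := hf.compact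
  refine ⟨hf.locConst.comp_continuous (continuous_lmulE a), lmulE a⁻¹ m '' K,
    hK.image (continuous_lmulE a⁻¹), fun x hx => h0 _ fun h => hx ⟨_, h, ?_⟩, ?_⟩
  · rw [lmulE_mul, inv_mul_cancel, lmulE_one]
  · rintro _ ⟨y, hy, rfl⟩
    exact lmulE_mem_frames (hl y hy) a⁻¹

/-- The fibre integral of a function on the isotropic frames is `v`. -/
def IsFibX (σ : E ≃ₐ[F] E) (H : Matrix (Fin N) (Fin N) E) (ν : Measure (Sk σ m))
    (g : (Fin N → Fin m → E) → ℂ) (v : ℂ) : Prop :=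
  ∃ f, IsTest f ∧ (∀ x, qf σ H x = 0 → f x = g x) ∧ IsFib σ H ν f v

theorem IsFibX.unique (hq : QuadDatum σ δ d) {ν : Measure (Sk σ m)} [ν.IsAddHaarMeasure]
    {g g' : (Fin N → Fin m → E) → ℂ} {v v' : ℂ} (h : IsFibX σ H ν g v)
    (h' : IsFibX σ H ν g' v') (hg : ∀ x, qf σ H x = 0 → g x = g' x) : v = v' := by
  obtain ⟨f, hf, hfg, hv⟩ := h
  obtain ⟨f', hf', hfg', hv'⟩ := h'
  have h1 := IsFib.add hq hf (hf'.const_mul (-1)) hv (hv'.smul (-1))
  have h2 : IsFib σ H ν (fun x => f x + -1 * f' x) 0 :=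
    IsFib.of_zero hq (hf.add (hf'.const_mul (-1))) fun x hx => by
      rw [hfg x hx, hfg' x hx, hg x hx]
      ring
  have h3 := IsFib.unique hq ν h1 h2
  linear_combination h3

theorem IsFibX.congr {ν : Measure (Sk σ m)}
    {g g' : (Fin N → Fin m → E) → ℂ} {v : ℂ} (h : IsFibX σ H ν g v)
    (hg : ∀ x, qf σ H x = 0 → g x = g' x) : IsFibX σ H ν g' v := by
  obtain ⟨f, hf, hfg, hv⟩ := h
  exact ⟨f, hf, fun x hx => (hfg x hx).trans (hg x hx), hv⟩

theorem IsFibX.add (hq : QuadDatum σ δ d) {ν : Measure (Sk σ m)}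
    {g g' : (Fin N → Fin m → E) → ℂ} {v v' : ℂ} (h : IsFibX σ H ν g v)
    (h' : IsFibX σ H ν g' v') : IsFibX σ H ν (fun x => g x + g' x) (v + v') := by
  obtain ⟨f, hf, hfg, hv⟩ := h
  obtain ⟨f', hf', hfg', hv'⟩ := h'
  exact ⟨_, hf.add hf', fun x hx => by rw [hfg x hx, hfg' x hx], IsFib.add hq hf hf' hv hv'⟩

theorem IsFibX.smul {ν : Measure (Sk σ m)}
    {g : (Fin N → Fin m → E) → ℂ} {v : ℂ} (c : ℂ) (h : IsFibX σ H ν g v) :
    IsFibX σ H ν (fun x => c * g x) (c * v) := by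
  obtain ⟨f, hf, hfg, hv⟩ := h
  exact ⟨_, hf.const_mul c, fun x hx => by rw [hfg x hx], hv.smul c⟩

theorem IsFibX.unitary (hq : QuadDatum σ δ d) (hH : IsSkew σ H) {ν : Measure (Sk σ m)}
    {g : (Fin N → Fin m → E) → ℂ} {v : ℂ} (u : unitary σ H) (h : IsFibX σ H ν g v) :
    IsFibX σ H ν (fun x => g (lmulE (u : GL (Fin N) E) m x)) v := by
  obtain ⟨f, hf, hfg, hv⟩ := h
  exact ⟨_, hf.comp_lmulE _, fun x hx => hfg _ (by rw [qf_unitary]; exact hx),
    hv.unitary hq hH u⟩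

theorem IsFibX.rmul (hq : QuadDatum σ δ d) {ν : Measure (Sk σ m)} [ν.IsAddHaarMeasure]
    {g : (Fin N → Fin m → E) → ℂ} {v : ℂ} (a : GL (Fin m) E) (h : IsFibX σ H ν g v) :
    IsFibX σ H ν (fun x => g (rmulE N a x)) (((ad a ^ N)⁻¹ * ad a ^ m : ℝ) * v) := by
  obtain ⟨f, hf, hfg, hv⟩ := h
  refine ⟨_, hf.comp_rmulE a, fun x hx => hfg _ ?_, hv.rmul hq a⟩
  rw [qf_rmul, hx]
  show (a : Matrix (Fin m) (Fin m) E).transpose * (0 : Matrix (Fin m) (Fin m) E) *
    (a : Matrix (Fin m) (Fin m) E).map σ = 0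
  rw [Matrix.mul_zero, Matrix.zero_mul]

end

end SpW
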