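import Pool.Agent.Work.MP_3615d2_al.Clo.Sec
import Pool.Agent.Work.MP_3615d2_al.WInt

/-!
MP_3615d2_al, the closed functional: multiplication of rectangular matrices by invertible ones,
its effect on Haar measure; uniform local constancy; bounded left inverses.
-/

open MeasureTheory Measure Filter Topology Matrix
open scoped NNReal ENNReal Pointwise

set_option linter.unusedSectionVars false

namespace SpW

section det

variable {E : Type} [Field E] {N m : ℕ}

/-- The map `x ↦ k x`. -/
def lmulE (k : GL (Fin N) E) (m : ℕ) : (Fin N → Fin m → E) ≃ₗ[E] (Fin N → Fin m → E) where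
  toFun x := (k : Matrix (Fin N) (Fin N) E) * Matrix.of x
  map_add' x y := Matrix.mul_add _ _ _
  map_smul' c x := by
    show (k : Matrix (Fin N) (Fin N) E) * (c • Matrix.of x) = _
    rw [Matrix.mul_smul]
    rfl
  invFun x := ((k⁻¹ : GL (Fin N) E) : Matrix (Fin N) (Fin N) E) * Matrix.of x
  left_inv x := by
    show ((k⁻¹ : GL (Fin N) E) : Matrix (Fin N) (Fin N) E) *
      ((k : Matrix (Fin N) (Fin N) E) * Matrix.of x) = Matrix.of x
    rw [← Matrix.mul_assoc, ← Units.val_mul, inv_mul_cancel, Units.val_one, Matrix.one_mul]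
  right_inv x := by
    show (k : Matrix (Fin N) (Fin N) E) *
      (((k⁻¹ : GL (Fin N) E) : Matrix (Fin N) (Fin N) E) * Matrix.of x) = Matrix.of x
    rw [← Matrix.mul_assoc, ← Units.val_mul, mul_inv_cancel, Units.val_one, Matrix.one_mul]

/-- The map `x ↦ x a`. -/
def rmulE (N : ℕ) (a : GL (Fin m) E) : (Fin N → Fin m → E) ≃ₗ[E] (Fin N → Fin m → E) where
  toFun x := Matrix.of x * (a : Matrix (Fin m) (Fin m) E)
  map_add' x y := Matrix.add_mul _ _ _
  map_smul' c x := by
    show (c • Matrix.of x) * (a : Matrix (Fin m) (Fin m) E) = _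
    rw [Matrix.smul_mul]
    rfl
  invFun x := Matrix.of x * ((a⁻¹ : GL (Fin m) E) : Matrix (Fin m) (Fin m) E)
  left_inv x := by
    show (Matrix.of x * (a : Matrix (Fin m) (Fin m) E)) *
      ((a⁻¹ : GL (Fin m) E) : Matrix (Fin m) (Fin m) E) = Matrix.of x
    rw [Matrix.mul_assoc, ← Units.val_mul, mul_inv_cancel, Units.val_one, Matrix.mul_one]
  right_inv x := by
    show (Matrix.of x * ((a⁻¹ : GL (Fin m) E) : Matrix (Fin m) (Fin m) E)) *
      (a : Matrix (Fin m) (Fin m) E) = Matrix.of x
    rw [Matrix.mul_assoc, ← Units.val_mul, inv_mul_cancel, Units.val_one, Matrix.mul_one]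

theorem lmulE_apply (k : GL (Fin N) E) (x : Matrix (Fin N) (Fin m) E) :
    lmulE k m x = (k : Matrix (Fin N) (Fin N) E) * x := rfl

theorem rmulE_apply (a : GL (Fin m) E) (x : Matrix (Fin N) (Fin m) E) :
    rmulE N a x = x * (a : Matrix (Fin m) (Fin m) E) := rfl

theorem det_rmulE (a : GL (Fin m) E) :
    LinearMap.det ((rmulE N a : (Fin N → Fin m → E) ≃ₗ[E] (Fin N → Fin m → E)) :
      (Fin N → Fin m → E) →ₗ[E] (Fin N → Fin m → E)) =
      (a : Matrix (Fin m) (Fin m) E).det ^ N := by
  have h1 : ((rmulE N a : (Fin N → Fin m → E) ≃ₗ[E] (Fin N → Fin m → E)) :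
      (Fin N → Fin m → E) →ₗ[E] (Fin N → Fin m → E)) =
      LinearMap.pi (fun i => (Matrix.toLin' (a : Matrix (Fin m) (Fin m) E).transpose).comp
        (LinearMap.proj i)) := by
    apply LinearMap.ext
    intro x
    funext i j
    show (Matrix.of x * (a : Matrix (Fin m) (Fin m) E)) i j =
      ((a : Matrix (Fin m) (Fin m) E).transpose.mulVec (x i)) j
    rw [Matrix.mulVec_transpose]
    rfl
  rw [h1, LinearMap.det_pi, Finset.prod_const, Finset.card_univ, Fintype.card_fin,
    LinearMap.det_toLin', Matrix.det_transpose]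

/-- The transposition as a linear equivalence. -/
def trR (N m : ℕ) (E : Type) [Field E] : (Fin m → Fin N → E) ≃ₗ[E] (Fin N → Fin m → E) where
  toFun x i j := x j i
  map_add' _ _ := rfl
  map_smul' _ _ := rfl
  invFun x i j := x j i
  left_inv _ := rfl
  right_inv _ := rfl

theorem det_lmulE (k : GL (Fin N) E) :
    LinearMap.det ((lmulE k m : (Fin N → Fin m → E) ≃ₗ[E] (Fin N → Fin m → E)) :
      (Fin N → Fin m → E) →ₗ[E] (Fin N → Fin m → E)) =
      (k : Matrix (Fin N) (Fin N) E).det ^ m := by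
  have h1 : ((lmulE k m : (Fin N → Fin m → E) ≃ₗ[E] (Fin N → Fin m → E)) :
      (Fin N → Fin m → E) →ₗ[E] (Fin N → Fin m → E)) =
      (trR N m E).toLinearMap.comp ((LinearMap.pi
        (fun i => (Matrix.toLin' (k : Matrix (Fin N) (Fin N) E)).comp
        (LinearMap.proj i))).comp (trR N m E).symm.toLinearMap) := by
    apply LinearMap.ext
    intro x
    funext i j
    show ((k : Matrix (Fin N) (Fin N) E) * Matrix.of x) i j =
      ((k : Matrix (Fin N) (Fin N) E).mulVec (fun l => x l j)) i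
    rfl
  rw [h1]
  have h2 := LinearMap.det_conj (LinearMap.pi
        (fun i : Fin m => (Matrix.toLin' (k : Matrix (Fin N) (Fin N) E)).comp
        (LinearMap.proj i))) (trR N m E)
  rw [h2, LinearMap.det_pi, Finset.prod_const, Finset.card_univ, Fintype.card_fin,
    LinearMap.det_toLin']

end det

section unif

variable {X S : Type} [PseudoMetricSpace X]

/-- A locally constant function with compact support is uniformly locally constant. -/
theorem unif_locConst {f : X → S} [Zero S] (hf : IsLocallyConstant f) {K : Set X} (hK : IsCompact K)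
    (h0 : ∀ x, x ∉ K → f x = 0) : ∃ ε > 0, ∀ x y, dist x y < ε → f x = f y := by
  obtain ⟨ε, hε, h⟩ := lebesgue_number_lemma_of_metric (c := fun v : S => f ⁻¹' {v}) hK
    (fun v => hf.isOpen_fiber v) (fun x _ => Set.mem_iUnion.2 ⟨f x, rfl⟩)
  have key : ∀ x ∈ K, ∀ y, dist x y < ε → f x = f y := by
    intro x hx y hxy
    obtain ⟨v, hv⟩ := h x hx
    have h1 : f x = v := hv (Metric.mem_ball_self hε)
    have h2 : f y = v := hv (by rwa [Metric.mem_ball, dist_comm])
    rw [h1, h2]
  refine ⟨ε, hε, fun x y hxy => ?_⟩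
  by_cases hx : x ∈ K
  · exact key x hx y hxy
  · by_cases hy : y ∈ K
    · exact (key y hy x (by rwa [dist_comm])).symm
    · rw [h0 x hx, h0 y hy]

end unif

section bnd

variable {E : Type} [NontriviallyNormedField E] [IsUltrametricDist E] [ProperSpace E] {N m : ℕ}

attribute [local instance] Matrix.normedAddCommGroup in
/-- Left inverses are bounded on compact sets. -/
theorem exists_bdd_left_inv (K : Set (Fin N → Fin m → E)) (hK : IsCompact K)
    (hl : ∀ x ∈ K, ∃ l : Matrix (Fin m) (Fin N) E, l * Matrix.of x = 1) :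
    ∃ B : ℝ, 0 < B ∧ ∀ x ∈ K, ∃ l : Matrix (Fin m) (Fin N) E, l * Matrix.of x = 1 ∧
      ∀ i j, ‖l i j‖ ≤ B := by
  refine hK.induction_on (p := fun K => ∃ B : ℝ, 0 < B ∧ ∀ x ∈ K,
    ∃ l : Matrix (Fin m) (Fin N) E, l * Matrix.of x = 1 ∧ ∀ i j, ‖l i j‖ ≤ B) ?_ ?_ ?_ ?_
  · exact ⟨1, one_pos, fun x hx => (Set.notMem_empty x hx).elim⟩
  · rintro s t hst ⟨B, hB, h⟩
    exact ⟨B, hB, fun x hx => h x (hst hx)⟩
  · rintro s t ⟨B, hB, h⟩ ⟨B', hB', h'⟩
    refine ⟨max B B', lt_max_of_lt_left hB, fun x hx => ?_⟩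
    rcases hx with hx | hx
    · obtain ⟨l, h1, h2⟩ := h x hx
      exact ⟨l, h1, fun i j => (h2 i j).trans (le_max_left _ _)⟩
    · obtain ⟨l, h1, h2⟩ := h' x hx
      exact ⟨l, h1, fun i j => (h2 i j).trans (le_max_right _ _)⟩
  · intro x hx
    obtain ⟨l, hlx⟩ := hl x hx
    set D : (Fin N → Fin m → E) → Matrix (Fin m) (Fin m) E := fun y => l * Matrix.of y - 1 with hD
    have h1 : Continuous D := (continuous_const.matrix_mul continuous_id).sub continuous_const
    have h2 : ∀ᶠ y in 𝓝 x, ∀ i j, ‖D y i j‖ ≤ 1 / 2 := by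
      rw [Filter.eventually_all]
      intro i
      rw [Filter.eventually_all]
      intro j
      have h3 : Continuous fun y => ‖D y i j‖ := (h1.matrix_elem i j).norm
      have h4 : ‖D x i j‖ < 1 / 2 := by
        have h5 : D x = 0 := by
          rw [hD]
          simp only
          rw [hlx, sub_self]
        rw [h5]
        simp
      exact (h3.continuousAt.eventually_lt continuousAt_const h4).mono fun y hy => hy.le
    refine ⟨{y | ∀ i j, ‖D y i j‖ ≤ 1 / 2},
      mem_nhdsWithin_of_mem_nhds h2, ‖l‖ + 1, by positivity, fun y hy => ?_⟩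
    obtain ⟨k, hk, hky⟩ := exists_glK_of_near (n := Fin m) (E := E) (ρ := 1 / 2) (by norm_num)
      (by norm_num) le_rfl (D y) ((Matrix.norm_le_iff (by norm_num)).2 hy)
    have hky' : (k : Matrix (Fin m) (Fin m) E) = l * Matrix.of y := by
      rw [hky, hD]
      simp
    refine ⟨((k⁻¹ : GL (Fin m) E) : Matrix (Fin m) (Fin m) E) * l, ?_, fun i j => ?_⟩
    · rw [Matrix.mul_assoc, ← hky', ← Units.val_mul, inv_mul_cancel, Units.val_one]
    · refine (mul_entry_le _ l zero_le_one (norm_nonneg l) (fun i j => glK_entry_inv hk i j)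
        (fun i j => Matrix.norm_entry_le_entrywise_sup_norm l) i j).trans ?_
      linarith

end bnd

end SpW
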