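import Pool.Agent.Work.MP_3615d2_al.Clo.Core
import Pool.Agent.Work.MP_3615d2_al.P1.Ev0

/-!
MP_3615d2_al, closed functional: the isotropic frame `x0` of `X = R + V + R'` and its stabiliser in
the unitary group in block form.
-/

open Matrix Filter Topology

set_option linter.unusedSectionVars false

namespace SpW.Clo

open SpW.P1

section frame

variable {F E : Type} [Field F] [Field E] [Algebra F E] {σ : E ≃ₐ[F] E} {δ : E} {d : F}
  {m n k N : ℕ}

/-- The blocks of `ε` are the blocks of `sJ h2`, `sJ h1`. -/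
structure IsBlk (h1 : m + n = k) (h2 : k + m = N) (ε : Fin m ⊕ (Fin n ⊕ Fin m) ≃ Fin N) :
    Prop where
  l : ∀ i, ε (Sum.inl i) = sJ h2 (Sum.inl (sJ h1 (Sum.inl i)))
  c : ∀ i, ε (Sum.inr (Sum.inl i)) = sJ h2 (Sum.inl (sJ h1 (Sum.inr i)))
  r : ∀ i, ε (Sum.inr (Sum.inr i)) = sJ h2 (Sum.inr i)

/-- The standard frame of `R`. -/
def x0 (E : Type) [Field E] (ε : Fin m ⊕ (Fin n ⊕ Fin m) ≃ Fin N) :
    Matrix (Fin N) (Fin m) E :=
  Matrix.of fun i j => iot ε (Pi.single j 1) 0 0 i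

theorem x0_mulVec (ε : Fin m ⊕ (Fin n ⊕ Fin m) ≃ Fin N) (r : Fin m → E) :
    x0 E ε *ᵥ r = iot ε r 0 0 := by
  funext i
  obtain ⟨j, rfl⟩ := ε.surjective i
  rcases j with j | j | j
  · simp only [Matrix.mulVec, dotProduct, x0, Matrix.of_apply, iot, Equiv.symm_apply_apply,
      Sum.elim_inl]
    rw [Finset.sum_eq_single j]
    · rw [Pi.single_eq_same, one_mul]
    · intro b _ hb
      rw [Pi.single_eq_of_ne (Ne.symm hb), zero_mul]
    · intro h
      exact absurd (Finset.mem_univ j) h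
  · simp [Matrix.mulVec, dotProduct, x0, iot]
  · simp [Matrix.mulVec, dotProduct, x0, iot]

theorem sk_one_dot (r s : Fin m → E) : sk σ (1 : Matrix (Fin m) (Fin m) E) r s =
    r ⬝ᵥ fun j => σ (s j) := by
  rw [sk_eq_dot, Matrix.one_mulVec]

theorem sk_zero_right' {k : ℕ} (H : Matrix (Fin k) (Fin k) E) (x : Fin k → E) :
    sk σ H x 0 = 0 := by
  unfold sk
  simp

theorem sk_zero_left' {k : ℕ} (H : Matrix (Fin k) (Fin k) E) (x : Fin k → E) :
    sk σ H 0 x = 0 := by
  unfold sk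
  simp

theorem dot_eq_zero_left {k : ℕ} {s : Fin k → E} (h : ∀ r : Fin k → E, r ⬝ᵥ s = 0) : s = 0 := by
  funext i
  have := h (Pi.single i 1)
  rwa [single_one_dotProduct] at this

variable {h1 : m + n = k} {h2 : k + m = N} {ε : Fin m ⊕ (Fin n ⊕ Fin m) ≃ Fin N}
  {H : Matrix (Fin N) (Fin N) E} {H₀ : Matrix (Fin n) (Fin n) E}

theorem IsBlk.pS_eq (hε : IsBlk h1 h2 ε) (y : Fin N → E) (i : Fin m) :
    pS ε y i = y (sJ h2 (Sum.inr i)) := by
  rw [← hε.r]
  rfl

/-- `x0` is an isotropic frame. -/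
theorem isFrame_x0 (hq : QuadDatum σ δ d) (hε : IsBlk h1 h2 ε) (hS : IsSplit σ ε H 1 H₀)
    (hH₀ : H₀.det ≠ 0) : IsFrame σ H h2 (x0 E ε) where
  perp v y hy := by
    rw [x0_mulVec, ← iot_p ε y, hS.form]
    have e1 : pS ε y = 0 := funext fun i => by
      rw [hε.pS_eq, hy]
      rfl
    rw [e1, sk_zero_right', sk_zero_left', sk_zero_right', map_zero]
    ring
  span z hz := by
    refine ⟨pR ε z, ?_⟩
    rw [x0_mulVec]
    have hz' : ∀ r' v', sk σ H₀ (pV ε z) v' - σ (sk σ 1 r' (pS ε z)) = 0 := by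
      intro r' v'
      have h3 := hz (iot ε r' v' 0) (fun i =>
        (hε.pS_eq (iot ε r' v' 0) i).symm.trans (by
          rw [pS_iot]
          rfl))
      rw [← iot_p ε z, hS.form, sk_zero_right', zero_add] at h3
      exact h3
    have e1 : pS ε z = 0 := by
      have h4 : ∀ r : Fin m → E, r ⬝ᵥ (fun j => σ (pS ε z j)) = 0 := by
        intro r
        have h5 := hz' r 0
        rw [sk_zero_right', zero_sub, neg_eq_zero, sk_one_dot] at h5
        exact (map_eq_zero_iff σ σ.injective).1 h5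
      have h6 := dot_eq_zero_left h4
      funext j
      exact (map_eq_zero_iff σ σ.injective).1 (congrFun h6 j)
    have e2 : pV ε z = 0 := by
      have h4 : ∀ v' : Fin n → E, sk σ H₀ (pV ε z) v' = 0 := by
        intro v'
        have h5 := hz' 0 v'
        rwa [sk_zero_left', map_zero, sub_zero] at h5
      have h5 : (pV ε z) ᵥ* H₀ = 0 := by
        refine dot_eq_zero_left fun r => ?_
        have h6 := h4 (fun j => σ (r j))
        rw [sk_eq_dot, Matrix.dotProduct_mulVec] at h6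
        have h7 : (fun j => σ (σ (r j))) = r := funext fun j => sig_sig hq _
        rw [h7] at h6
        rw [dotProduct_comm]
        exact h6
      have h8 : (pV ε z) ᵥ* H₀ ᵥ* H₀⁻¹ = 0 := by rw [h5, Matrix.zero_vecMul]
      rwa [Matrix.vecMul_vecMul, Matrix.mul_nonsing_inv _ (isUnit_iff_ne_zero.2 hH₀),
        Matrix.vecMul_one] at h8
    conv_lhs => rw [← iot_p ε z, e1, e2]
  inj v hv := by
    rw [x0_mulVec, ← iot_zero ε] at hv
    exact (iot_inj ε hv).1
  isot v v' := by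
    rw [x0_mulVec, x0_mulVec, hS.form, sk_zero_right', sk_zero_left', sk_zero_right', map_zero]
    ring

/-- The action of a block upper triangular element. -/
theorem blk_mulVec (hε : IsBlk h1 h2 ε) (α : GL (Fin m) E) (u : GL (Fin n) E)
    (b : Matrix (Fin m) (Fin n) E) (q : GL (Fin m) E) (y : Matrix (Fin k) (Fin m) E)
    (r : Fin m → E) (v : Fin n → E) (s : Fin m → E) :
    ((pelJ h2 (pelJ h1 α u b) q y : GL (Fin N) E) : Matrix (Fin N) (Fin N) E) *ᵥ iot ε r v s =
      iot ε ((α : Matrix (Fin m) (Fin m) E) *ᵥ r + b *ᵥ v +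
          (Matrix.of fun i j => y (sJ h1 (Sum.inl i)) j) *ᵥ s)
        ((u : Matrix (Fin n) (Fin n) E) *ᵥ v + (Matrix.of fun i j => y (sJ h1 (Sum.inr i)) j) *ᵥ s)
        ((q : Matrix (Fin m) (Fin m) E) *ᵥ s) := by
  funext i
  obtain ⟨i, rfl⟩ := ε.surjective i
  have e1 : ∀ (f : Fin N → E), ∑ j, f j = ∑ j, f (ε (Sum.inl j)) +
      (∑ j, f (ε (Sum.inr (Sum.inl j))) + ∑ j, f (ε (Sum.inr (Sum.inr j)))) := by
    intro f
    rw [← ε.sum_comp, Fintype.sum_sum_type, Fintype.sum_sum_type]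
  rw [Matrix.mulVec, dotProduct, e1]
  simp only [pelJ_val]
  rcases i with i | i | i
  · simp only [iot, Equiv.symm_apply_apply, Sum.elim_inl, Sum.elim_inr]
    simp only [hε.l, hε.c, hε.r,
      bmJ_apply, Matrix.fromBlocks_apply₁₁, Matrix.fromBlocks_apply₁₂, Pi.add_apply,
      Matrix.mulVec, dotProduct, Matrix.of_apply]
    ring
  · simp only [iot, Equiv.symm_apply_apply, Sum.elim_inl, Sum.elim_inr]
    simp only [hε.l, hε.c, hε.r,
      bmJ_apply, Matrix.fromBlocks_apply₁₁, Matrix.fromBlocks_apply₁₂, Matrix.fromBlocks_apply₂₁,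
      Matrix.fromBlocks_apply₂₂, Pi.add_apply, Matrix.zero_apply, zero_mul,
      Finset.sum_const_zero, zero_add,
      Matrix.mulVec, dotProduct, Matrix.of_apply]
  · simp only [iot, Equiv.symm_apply_apply, Sum.elim_inl, Sum.elim_inr]
    simp only [hε.l, hε.c, hε.r,
      bmJ_apply, Matrix.fromBlocks_apply₂₁,
      Matrix.fromBlocks_apply₂₂, Matrix.zero_apply, zero_mul,
      Finset.sum_const_zero, zero_add,
      Matrix.mulVec, dotProduct]

/-- The stabiliser of `R` in the unitary group. -/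
theorem exists_par (hq : QuadDatum σ δ d) (hε : IsBlk h1 h2 ε) (hS : IsSplit σ ε H 1 H₀)
    (p : unitary σ H) (α : GL (Fin m) E)
    (hp : umat p * x0 E ε = x0 E ε * (α : Matrix (Fin m) (Fin m) E)) :
    ∃ (u : unitary σ H₀) (b : Matrix (Fin m) (Fin n) E) (q : GL (Fin m) E)
      (y : Matrix (Fin k) (Fin m) E),
      (p : GL (Fin N) E) = pelJ h2 (pelJ h1 α (u : GL (Fin n) E) b) q y ∧
      (q : Matrix (Fin m) (Fin m) E) =
        (((α⁻¹ : GL (Fin m) E) : Matrix (Fin m) (Fin m) E).transpose).map σ ∧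
      (∀ r, umat p *ᵥ iot ε r 0 0 = iot ε ((α : Matrix (Fin m) (Fin m) E) *ᵥ r) 0 0) ∧
      ∀ v, ∃ r, umat p *ᵥ iot ε 0 v 0 = iot ε r (umat u *ᵥ v) 0 := by
  have hr : ∀ r, umat p *ᵥ iot ε r 0 0 = iot ε ((α : Matrix (Fin m) (Fin m) E) *ᵥ r) 0 0 := by
    intro r
    rw [← x0_mulVec, ← x0_mulVec, Matrix.mulVec_mulVec, hp, Matrix.mulVec_mulVec]
  -- `R^⊥` is stable
  have hY : ∀ y : Fin N → E, pS ε y = 0 → pS ε (umat p *ᵥ y) = 0 := by
    intro y hy
    have h3 : ∀ r : Fin m → E, r ⬝ᵥ (fun j => σ (pS ε (umat p *ᵥ y) j)) = 0 := by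
      intro r
      have h4 : sk σ H (iot ε r 0 0) (umat p *ᵥ y) = 0 := by
        have h5 := p.2 (iot ε (((α⁻¹ : GL (Fin m) E) : Matrix (Fin m) (Fin m) E) *ᵥ r) 0 0) y
        have h6 := hr (((α⁻¹ : GL (Fin m) E) : Matrix (Fin m) (Fin m) E) *ᵥ r)
        rw [Matrix.mulVec_mulVec, ← Units.val_mul, mul_inv_cancel, Units.val_one,
          Matrix.one_mulVec] at h6
        have h7 : sk σ H (umat p *ᵥ iot ε (((α⁻¹ : GL (Fin m) E) :
            Matrix (Fin m) (Fin m) E) *ᵥ r) 0 0) (umat p *ᵥ y) = _ := h5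
        rw [h6] at h7
        rw [h7, ← iot_p ε y, hS.form, hy, sk_zero_right', sk_zero_left', sk_zero_right', map_zero]
        ring
      rw [← iot_p ε (umat p *ᵥ y), hS.form, sk_zero_left', sk_zero_right', map_zero, sk_one_dot]
        at h4
      rw [← h4]
      ring
    have h6 := dot_eq_zero_left h3
    funext j
    exact (map_eq_zero_iff σ σ.injective).1 (congrFun h6 j)
  have hlow : lowLJ h2 ((p : GL (Fin N) E) : Matrix (Fin N) (Fin N) E) = 0 := by
    ext i j
    have h3 := hY (Pi.single (sJ h2 (Sum.inl j)) 1) (by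
      funext i'
      rw [hε.pS_eq, Pi.single_eq_of_ne]
      · rfl
      · intro h
        exact Sum.inr_ne_inl ((sJ h2).injective h))
    have h4 := congrFun h3 i
    rw [hε.pS_eq, Matrix.mulVec_single_one] at h4
    exact h4
  obtain ⟨p', q, y, hpe⟩ := (exists_pelJ_iff h2 _).2 hlow
  have hent : ∀ i j, umat p (sJ h2 (Sum.inl i)) (sJ h2 (Sum.inl j)) =
      (p' : Matrix (Fin k) (Fin k) E) i j := by
    intro i j
    show ((p : GL (Fin N) E) : Matrix (Fin N) (Fin N) E) _ _ = _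
    rw [hpe, pelJ_val, bmJ_apply]
    rfl
  have hcol : ∀ (i : Fin N) (j : Fin m), umat p i (ε (Sum.inl j)) =
      iot ε (fun l => (α : Matrix (Fin m) (Fin m) E) l j) 0 0 i := by
    intro i j
    have h3 := congrFun (hr (Pi.single j 1)) i
    rw [Matrix.mulVec_single_one] at h3
    have h4 : (iot ε (Pi.single j 1) 0 0 : Fin N → E) = Pi.single (ε (Sum.inl j)) 1 := by
      funext i'
      obtain ⟨i', rfl⟩ := ε.surjective i'
      rcases i' with i' | i' | i'
      · by_cases hij : i' = j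
        · subst hij
          simp [iot]
        · rw [Pi.single_eq_of_ne (fun h => hij (Sum.inl_injective (ε.injective h)))]
          simp [iot, hij]
      · rw [Pi.single_eq_of_ne (fun h => Sum.inr_ne_inl (ε.injective h))]
        simp [iot]
      · rw [Pi.single_eq_of_ne (fun h => Sum.inr_ne_inl (ε.injective h))]
        simp [iot]
    rw [h4, Matrix.mulVec_single_one] at h3
    exact h3
  have hlow' : lowLJ h1 (p' : Matrix (Fin k) (Fin k) E) = 0 := by
    ext i j
    show (p' : Matrix (Fin k) (Fin k) E) (sJ h1 (Sum.inr i)) (sJ h1 (Sum.inl j)) = 0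
    rw [← hent, ← hε.l, ← hε.c, hcol]
    simp [iot]
  obtain ⟨α', u', b, hpe'⟩ := (exists_pelJ_iff h1 _).2 hlow'
  have hα : α' = α := by
    apply Units.ext
    ext i j
    have h3 : (p' : Matrix (Fin k) (Fin k) E) (sJ h1 (Sum.inl i)) (sJ h1 (Sum.inl j)) =
        (α' : Matrix (Fin m) (Fin m) E) i j := by
      rw [hpe', pelJ_val, bmJ_apply]
      rfl
    rw [← h3, ← hent, ← hε.l, ← hε.l, hcol]
    simp [iot]
  subst hα
  have hpp : (p : GL (Fin N) E) = pelJ h2 (pelJ h1 α' u' b) q y := by rw [hpe, hpe']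
  have hact : ∀ r v s, umat p *ᵥ iot ε r v s =
      iot ε ((α' : Matrix (Fin m) (Fin m) E) *ᵥ r + b *ᵥ v +
          (Matrix.of fun i j => y (sJ h1 (Sum.inl i)) j) *ᵥ s)
        ((u' : Matrix (Fin n) (Fin n) E) *ᵥ v + (Matrix.of fun i j => y (sJ h1 (Sum.inr i)) j) *ᵥ s)
        ((q : Matrix (Fin m) (Fin m) E) *ᵥ s) := by
    intro r v s
    rw [← blk_mulVec hε, ← hpp]
  have hu : u' ∈ unitary σ H₀ := by
    intro v v'
    have h3 : sk σ H (umat p *ᵥ iot ε 0 v 0) (umat p *ᵥ iot ε 0 v' 0) = _ :=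
      p.2 (iot ε 0 v 0) (iot ε 0 v' 0)
    rw [hact, hact, hS.form, hS.form] at h3
    simp only [Matrix.mulVec_zero, add_zero, sk_zero_right', sk_zero_left', map_zero, zero_add,
      sub_zero] at h3
    exact h3
  refine ⟨⟨u', hu⟩, b, q, y, hpp, ?_, hr, fun v => ⟨b *ᵥ v, ?_⟩⟩
  · have h3 : ∀ r s : Fin m → E, ((α' : Matrix (Fin m) (Fin m) E) *ᵥ r) ⬝ᵥ
        (fun j => σ (((q : Matrix (Fin m) (Fin m) E) *ᵥ s) j)) = r ⬝ᵥ fun j => σ (s j) := by
      intro r s
      have h4 : sk σ H (umat p *ᵥ iot ε r 0 0) (umat p *ᵥ iot ε 0 0 s) = _ :=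
        p.2 (iot ε r 0 0) (iot ε 0 0 s)
      rw [hact, hact, hS.form, hS.form] at h4
      simp only [Matrix.mulVec_zero, add_zero, sk_zero_right', sk_zero_left', map_zero,
        sub_zero, sk_one_dot] at h4
      exact h4
    have h4 : (α' : Matrix (Fin m) (Fin m) E).transpose *
        ((q : Matrix (Fin m) (Fin m) E).map σ) = 1 := by
      ext i j
      have h5 := h3 (Pi.single i 1) (Pi.single j 1)
      rw [Matrix.mulVec_single_one, Matrix.mulVec_single_one, single_one_dotProduct] at h5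
      rw [Matrix.mul_apply, Matrix.one_apply]
      have h6 : (∑ l, (α' : Matrix (Fin m) (Fin m) E).transpose i l *
          ((q : Matrix (Fin m) (Fin m) E).map σ) l j) =
          ((α' : Matrix (Fin m) (Fin m) E).col i) ⬝ᵥ
            (fun l => σ ((q : Matrix (Fin m) (Fin m) E).col j l)) := rfl
      rw [h6, h5]
      by_cases hij : i = j
      · subst hij
        simp
      · rw [Pi.single_eq_of_ne hij, if_neg hij, map_zero]
    have h5 : (q : Matrix (Fin m) (Fin m) E).map σ =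
        ((α'⁻¹ : GL (Fin m) E) : Matrix (Fin m) (Fin m) E).transpose := by
      have h6 : ((α'⁻¹ : GL (Fin m) E) : Matrix (Fin m) (Fin m) E).transpose *
          (α' : Matrix (Fin m) (Fin m) E).transpose = 1 := by
        rw [← Matrix.transpose_mul, ← Units.val_mul, mul_inv_cancel, Units.val_one,
          Matrix.transpose_one]
      have h7 := congrArg (fun M => ((α'⁻¹ : GL (Fin m) E) :
        Matrix (Fin m) (Fin m) E).transpose * M) h4
      simp only [Matrix.mul_one] at h7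
      rw [← Matrix.mul_assoc, h6, Matrix.one_mul] at h7
      exact h7
    rw [← h5]
    ext i j
    simp only [Matrix.map_apply]
    exact (sig_sig hq _).symm
  · rw [hact]
    simp only [Matrix.mulVec_zero, add_zero, zero_add]

end frame

end SpW.Clo
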