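import Pool.Agent.Work.MP_3615d2_al.Clo.FibV

/-!
MP_3615d2_al, the closed functional: the action `s ↦ a^t s σ(a)` of `GL_m(E)` on the
skew-Hermitian matrices scales Haar measure by `|det a|^m`.
-/

open MeasureTheory Measure Filter Topology Matrix
open scoped NNReal ENNReal Pointwise

set_option linter.unusedSectionVars false

namespace SpW

section alg

variable {F E : Type} [Field F] [Field E] [Algebra F E] {σ : E ≃ₐ[F] E} {δ : E} {d : F} {N m : ℕ}

/-- `s ↦ a^t s σ(a)`. -/
def tr2 (σ : E ≃ₐ[F] E) (a : Matrix (Fin m) (Fin m) E) (s : Fin m → Fin m → E) :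
    Fin m → Fin m → E :=
  a.transpose * Matrix.of s * a.map σ

theorem tr2_add (a : Matrix (Fin m) (Fin m) E) (s t : Fin m → Fin m → E) :
    tr2 σ a (s + t) = tr2 σ a s + tr2 σ a t := by
  show a.transpose * (Matrix.of s + Matrix.of t) * a.map σ =
    a.transpose * Matrix.of s * a.map σ + a.transpose * Matrix.of t * a.map σ
  rw [Matrix.mul_add, Matrix.add_mul]

theorem tr2_mul (a b : Matrix (Fin m) (Fin m) E) (s : Fin m → Fin m → E) :
    tr2 σ b (tr2 σ a s) = tr2 σ (a * b) s := by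
  show b.transpose * (a.transpose * Matrix.of s * a.map σ) * b.map σ =
    (a * b).transpose * Matrix.of s * (a * b).map σ
  rw [mapσ_mul, Matrix.transpose_mul]
  simp only [Matrix.mul_assoc]

theorem tr2_one (s : Fin m → Fin m → E) : tr2 σ 1 s = s := by
  show (1 : Matrix (Fin m) (Fin m) E).transpose * Matrix.of s *
    (1 : Matrix (Fin m) (Fin m) E).map σ = Matrix.of s
  rw [mapσ_one, Matrix.transpose_one, Matrix.one_mul, Matrix.mul_one]

theorem tr2_mem (hσ : ∀ x, σ (σ x) = x) (a : Matrix (Fin m) (Fin m) E) {s : Fin m → Fin m → E}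
    (hs : s ∈ Sk σ m) : tr2 σ a s ∈ Sk σ m := by
  have h1 : ((Matrix.of s).map σ).transpose = -(Matrix.of s) := mem_Sk_iff.1 hs
  refine mem_Sk_iff.2 ?_
  show ((a.transpose * Matrix.of s * a.map σ).map σ).transpose =
    -(a.transpose * Matrix.of s * a.map σ)
  have h4 : (a.map σ).map σ = a := by
    ext i j
    exact hσ _
  rw [mapσ_mul, mapσ_mul, h4, Matrix.transpose_mul, Matrix.transpose_mul, h1,
    Matrix.transpose_map, Matrix.transpose_transpose, Matrix.neg_mul, Matrix.mul_neg,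
    Matrix.mul_assoc]

theorem qf_rmul (H : Matrix (Fin N) (Fin N) E) (a : GL (Fin m) E) (x : Fin N → Fin m → E) :
    qf σ H (rmulE N a x) = tr2 σ (a : Matrix (Fin m) (Fin m) E) (qf σ H x) :=
  hf_mul σ H (Matrix.of x) (a : Matrix (Fin m) (Fin m) E) (Matrix.of x)
    (a : Matrix (Fin m) (Fin m) E)

/-- The automorphism `s ↦ a^t s σ(a)` of the skew-Hermitian matrices. -/
def skT (hσ : ∀ x, σ (σ x) = x) (a : GL (Fin m) E) : Sk σ m ≃+ Sk σ m where
  toFun s := ⟨tr2 σ (a : Matrix (Fin m) (Fin m) E) s, tr2_mem hσ _ s.2⟩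
  invFun s := ⟨tr2 σ ((a⁻¹ : GL (Fin m) E) : Matrix (Fin m) (Fin m) E) s, tr2_mem hσ _ s.2⟩
  left_inv s := Subtype.ext (by
    show tr2 σ ((a⁻¹ : GL (Fin m) E) : Matrix (Fin m) (Fin m) E)
      (tr2 σ (a : Matrix (Fin m) (Fin m) E) s) = s
    rw [tr2_mul, ← Units.val_mul, mul_inv_cancel, Units.val_one, tr2_one])
  right_inv s := Subtype.ext (by
    show tr2 σ (a : Matrix (Fin m) (Fin m) E)
      (tr2 σ ((a⁻¹ : GL (Fin m) E) : Matrix (Fin m) (Fin m) E) s) = s
    rw [tr2_mul, ← Units.val_mul, inv_mul_cancel, Units.val_one, tr2_one])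
  map_add' s t := Subtype.ext (tr2_add _ _ _)

theorem skT_coe (hσ : ∀ x, σ (σ x) = x) (a : GL (Fin m) E) (s : Sk σ m) :
    (skT hσ a s : Fin m → Fin m → E) = tr2 σ (a : Matrix (Fin m) (Fin m) E) s := rfl

/-- `M_m(E) = Sk + δ Sk`. -/
def skP (hq : QuadDatum σ δ d) (m : ℕ) : (Sk σ m × Sk σ m) ≃+ (Fin m → Fin m → E) where
  toFun p i j := (p.1 : Fin m → Fin m → E) i j + δ * (p.2 : Fin m → Fin m → E) i j
  invFun x := (⟨fun i j => (2 : E)⁻¹ * (x i j - σ (x j i)), by
      intro i j
      rw [map_mul, map_sub, sig_sig hq, map_inv₀, map_ofNat]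
      ring⟩, ⟨fun i j => (2 * δ)⁻¹ * (x i j + σ (x j i)), by
      intro i j
      rw [map_mul, map_add, sig_sig hq, map_inv₀, map_mul, hq.sig, map_ofNat, mul_neg, inv_neg]
      ring⟩)
  left_inv p := by
    have h1 : ∀ i j, σ ((p.1 : Fin m → Fin m → E) j i) = -(p.1 : Fin m → Fin m → E) i j :=
      fun i j => p.1.2 i j
    have h2 : ∀ i j, σ ((p.2 : Fin m → Fin m → E) j i) = -(p.2 : Fin m → Fin m → E) i j :=
      fun i j => p.2.2 i j
    have h3 := hq.two_E
    have h4 := hq.ne
    refine Prod.ext (Subtype.ext ?_) (Subtype.ext ?_)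
    · funext i j
      show (2 : E)⁻¹ * (((p.1 : Fin m → Fin m → E) i j + δ * (p.2 : Fin m → Fin m → E) i j) -
        σ ((p.1 : Fin m → Fin m → E) j i + δ * (p.2 : Fin m → Fin m → E) j i)) =
          (p.1 : Fin m → Fin m → E) i j
      rw [map_add, map_mul, h1, h2, hq.sig]
      field_simp
      ring
    · funext i j
      show (2 * δ)⁻¹ * (((p.1 : Fin m → Fin m → E) i j + δ * (p.2 : Fin m → Fin m → E) i j) +
        σ ((p.1 : Fin m → Fin m → E) j i + δ * (p.2 : Fin m → Fin m → E) j i)) =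
          (p.2 : Fin m → Fin m → E) i j
      rw [map_add, map_mul, h1, h2, hq.sig]
      field_simp
      ring
  right_inv x := by
    funext i j
    have h3 := hq.two_E
    have h4 := hq.ne
    show (2 : E)⁻¹ * (x i j - σ (x j i)) + δ * ((2 * δ)⁻¹ * (x i j + σ (x j i))) = x i j
    field_simp
    ring
  map_add' p p' := by
    funext i j
    show ((p.1 : Fin m → Fin m → E) i j + (p'.1 : Fin m → Fin m → E) i j) +
      δ * ((p.2 : Fin m → Fin m → E) i j + (p'.2 : Fin m → Fin m → E) i j) =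
      ((p.1 : Fin m → Fin m → E) i j + δ * (p.2 : Fin m → Fin m → E) i j) +
      ((p'.1 : Fin m → Fin m → E) i j + δ * (p'.2 : Fin m → Fin m → E) i j)
    ring

theorem skP_apply (hq : QuadDatum σ δ d) (p : Sk σ m × Sk σ m) :
    (skP hq m p : Fin m → Fin m → E) = (p.1 : Fin m → Fin m → E) +
      fun i j => δ * (p.2 : Fin m → Fin m → E) i j := rfl

theorem tr2_smul (a : Matrix (Fin m) (Fin m) E) (c : E) (s : Fin m → Fin m → E) :
    tr2 σ a (fun i j => c * s i j) = fun i j => c * tr2 σ a s i j := by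
  have h1 : Matrix.of (fun i j => c * s i j) = c • Matrix.of s := rfl
  show a.transpose * Matrix.of (fun i j => c * s i j) * a.map σ =
    c • (a.transpose * Matrix.of s * a.map σ)
  rw [h1, Matrix.mul_smul, Matrix.smul_mul]

theorem skP_skT (hq : QuadDatum σ δ d) (a : GL (Fin m) E) (p : Sk σ m × Sk σ m) :
    skP hq m (skT (sig_sig hq) a p.1, skT (sig_sig hq) a p.2) =
      tr2 σ (a : Matrix (Fin m) (Fin m) E) (skP hq m p) := by
  rw [skP_apply, skP_apply, tr2_add, tr2_smul]
  rfl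

end alg

section vol

variable {F E : Type} [NontriviallyNormedField F] [IsUltrametricDist F] [ProperSpace F]
  [NontriviallyNormedField E] [NormedAlgebra F E] [IsUltrametricDist E] [ProperSpace E]
  [MeasurableSpace E] [BorelSpace E]
  {σ : E ≃ₐ[F] E} {δ : E} {d : F} {N m : ℕ}

/-- Haar measure and `s ↦ a^t s σ(a)`. -/
theorem real_skT (hq : QuadDatum σ δ d) (ν : Measure (Sk σ m)) [ν.IsAddHaarMeasure]
    (a : GL (Fin m) E) (L : Set (Sk σ m)) :
    ν.real (skT (sig_sig hq) a '' L) = ad a ^ m * ν.real L := by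
  have hlc := locallyCompact_Sk (m := m) hq
  have i1 : BorelSpace (Sk σ m) := inferInstance
  have i2 : MeasurableAdd (Sk σ m) := inferInstance
  have i3 : SecondCountableTopology (Sk σ m) := inferInstance
  have i4 : SigmaCompactSpace (Sk σ m) := inferInstance
  have i5 : SigmaFinite ν := inferInstance
  have i6 : (ν.prod ν).IsAddHaarMeasure := inferInstance
  have hσc := continuous_σ hq
  -- the measure on the space of all matrices
  set Q : Measure (Fin m → Fin m → E) := (ν.prod ν).map (skP hq m) with hQ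
  have hc1 : Continuous (skP hq m) := by
    refine continuous_pi fun i => continuous_pi fun j => ?_
    exact ((continuous_apply_apply i j).comp (continuous_subtype_val.comp continuous_fst)).add
      (continuous_const.mul
        ((continuous_apply_apply i j).comp (continuous_subtype_val.comp continuous_snd)))
  have hc2 : Continuous (skP hq m).symm := by
    refine Continuous.prodMk (Continuous.subtype_mk ?_ _) (Continuous.subtype_mk ?_ _)
    · refine continuous_pi fun i => continuous_pi fun j => ?_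
      exact continuous_const.mul ((continuous_apply_apply i j).sub
        (hσc.comp (continuous_apply_apply j i)))
    · refine continuous_pi fun i => continuous_pi fun j => ?_
      exact continuous_const.mul ((continuous_apply_apply i j).add
        (hσc.comp (continuous_apply_apply j i)))
  have hQh : Q.IsAddHaarMeasure := AddEquiv.isAddHaarMeasure_map (ν.prod ν) (skP hq m) hc1 hc2
  let eh : (Sk σ m × Sk σ m) ≃ₜ (Fin m → Fin m → E) := ⟨(skP hq m).toEquiv, hc1, hc2⟩
  have hQi : ∀ A : Set (Sk σ m × Sk σ m), Q (skP hq m '' A) = (ν.prod ν) A := by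
    intro A
    have h1 : Q (skP hq m '' A) = (ν.prod ν) (skP hq m ⁻¹' (skP hq m '' A)) :=
      eh.toMeasurableEquiv.map_apply _
    rw [h1, Set.preimage_image_eq _ (skP hq m).injective]
  -- the linear map
  set b : GL (Fin m) E := Matrix.GeneralLinearGroup.mkOfDetNeZero
    ((a : Matrix (Fin m) (Fin m) E).transpose) (by
      rw [Matrix.det_transpose]
      exact ((Matrix.isUnit_iff_isUnit_det _).1 (Units.isUnit a)).ne_zero) with hb
  have hdσ : ((a : Matrix (Fin m) (Fin m) E).map σ).det = σ (a : Matrix (Fin m) (Fin m) E).det :=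
    (RingHom.map_det (σ : E →+* E) (a : Matrix (Fin m) (Fin m) E)).symm
  set c : GL (Fin m) E := Matrix.GeneralLinearGroup.mkOfDetNeZero
    ((a : Matrix (Fin m) (Fin m) E).map σ) (by
      rw [hdσ]
      exact (map_ne_zero σ).2 ((Matrix.isUnit_iff_isUnit_det _).1 (Units.isUnit a)).ne_zero) with hc
  have hT : ∀ x, mulBoth b c x = tr2 σ (a : Matrix (Fin m) (Fin m) E) x := fun x => rfl
  have hdet : md (LinearMap.det ((mulBoth b c : (Fin m → Fin m → E) ≃ₗ[E] (Fin m → Fin m → E)) :
      (Fin m → Fin m → E) →ₗ[E] (Fin m → Fin m → E))) =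
        (md (a : Matrix (Fin m) (Fin m) E).det ^ m) ^ 2 := by
    rw [det_mulBoth, md_mul, md_pow, md_pow]
    have h1 : (b : Matrix (Fin m) (Fin m) E).det = (a : Matrix (Fin m) (Fin m) E).det :=
      Matrix.det_transpose _
    have h2 : (c : Matrix (Fin m) (Fin m) E).det = σ (a : Matrix (Fin m) (Fin m) E).det := hdσ
    rw [h1, h2, md_sg hq, sq]
  have himg : mulBoth b c '' (skP hq m '' (L ×ˢ L)) = skP hq m ''
      ((skT (sig_sig hq) a '' L) ×ˢ (skT (sig_sig hq) a '' L)) := by
    ext x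
    constructor
    · rintro ⟨_, ⟨p, ⟨hp1, hp2⟩, rfl⟩, rfl⟩
      refine ⟨(skT (sig_sig hq) a p.1, skT (sig_sig hq) a p.2), ⟨⟨_, hp1, rfl⟩, ⟨_, hp2, rfl⟩⟩, ?_⟩
      rw [skP_skT, hT]
    · rintro ⟨⟨_, _⟩, ⟨⟨s, hs, rfl⟩, ⟨t, ht, rfl⟩⟩, rfl⟩
      refine ⟨skP hq m (s, t), ⟨(s, t), ⟨hs, ht⟩, rfl⟩, ?_⟩
      rw [hT, ← skP_skT]
  have h1 := image_linearEquiv Q (mulBoth b c) (skP hq m '' (L ×ˢ L))
  rw [himg, hQi, hQi, Measure.prod_prod, Measure.prod_prod, hdet] at h1
  have h2 : (ν.real (skT (sig_sig hq) a '' L)) ^ 2 = (ad a ^ m * ν.real L) ^ 2 := by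
    have h3 := congrArg ENNReal.toReal h1
    rw [ENNReal.toReal_mul, ENNReal.toReal_mul, ENNReal.toReal_mul, ENNReal.coe_toReal,
      NNReal.coe_pow, NNReal.coe_pow, md_det_eq] at h3
    rw [mul_pow, sq, sq (ν.real L)]
    exact h3
  exact (pow_left_inj₀ measureReal_nonneg (mul_nonneg (pow_nonneg (ad_pos a).le _)
    measureReal_nonneg) two_ne_zero).1 h2

end vol

end SpW
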